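import Pool.Agent.H53.VK.FIN
import Pool.Agent.H31.VK.MON
import Pool.Agent.H55.VK.D2L
import Pool.Agent.H75.VK.LIN
import Pool.Agent.H75.VK.MCU
import Pool.Agent.H75.VK.RD1
import Pool.Agent.H80.VK.RY
import Pool.Agent.H88.VK.TLM
import Pool.Agent.H88.VK.GLM
import Pool.Agent.H38.VK.PA2
import Pool.Agent.H89.VK.PAPT
import Pool.Agent.H89.VK.UPC
import Pool.Agent.H91.VK.RD3
import Pool.Agent.H91.VK.RD4

set_option autoImplicit false

namespace VK

theorem spl : SPL_stmt := SPL_proved LIN_proved

theorem rst : RST_stmt :=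
  RST_proved (TLM_proved MNR_proved ERM_proved STR_proved BAS_proved) PTR_proved
    (RYH_proved UPC_proved spl)

theorem mcu : MCU_stmt := MCU_proved ERM_proved CUT_proved LIN_proved BAS_proved

theorem glm : GLM_stmt := GLM_proved MNR_proved ERM_proved EXT_proved SEP_proved BAS_proved

theorem pst : PST_stmt :=
  PST_proved rst PA1_proved PA2_proved (RYI_proved UPC_proved spl) glm
    (D2L_proved UPC_proved BLM_proved CUT_proved LIN_proved BAS_proved)
    (MON_proved UPC_proved mcu BAS_proved)

theorem bounds (M : ℕ) (h1 : 1 ≤ M) (h2 : M ≤ 2) (k : ℕ) : IH M k :=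
  all_bounds rst pst M h1 h2 k

theorem rd4 : RD4_stmt := RD4_proved RD3_proved

end VK
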