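import Pool.Agent.H53.VK.NT

set_option autoImplicit false

namespace VK

/-- a line of maximal thickness -/
theorem max_thick (A B : Finset Pt) : ∃ g₀ : Fn, Nc g₀ ∧ ∀ g : Fn, Nc g →
    min (A.filter (fun z => ev g z = 0)).card (B.filter (fun z => ev g z = 0)).card ≤
      min (A.filter (fun z => ev g₀ z = 0)).card (B.filter (fun z => ev g₀ z = 0)).card := by
  classical
  by_contra hcon
  push Not at hcon
  have key : ∀ n : ℕ, ∃ g : Fn, Nc g ∧ n ≤
      min (A.filter (fun z => ev g z = 0)).card (B.filter (fun z => ev g z = 0)).card := by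
    intro n
    induction n with
    | zero => exact ⟨⟨1, 0, 0⟩, Or.inl one_ne_zero, Nat.zero_le _⟩
    | succ n ih =>
      obtain ⟨g, hg, hn⟩ := ih
      obtain ⟨g', hg', hn'⟩ := hcon g hg
      exact ⟨g', hg', by omega⟩
  obtain ⟨g, _, hn⟩ := key (A.card + 1)
  have : (A.filter (fun z => ev g z = 0)).card ≤ A.card := Finset.card_filter_le _ _
  omega

theorem sqrt_count (d c t N : ℕ) (h1 : d + t ≤ c + N) (h2 : (2 * t + 1) * N ≤ 2 * t * c)
    (hc : 3 * c < 2 * d + 1) : (d : ℝ) + Real.sqrt d ≤ 2 * (c : ℝ) := by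
  have hcd : c ≤ d := by omega
  have e1 : ((2 * t + 1 : ℤ)) * ((d : ℤ) + t - c) ≤ 2 * t * c := by
    have a1 : ((d : ℤ) + t - c) ≤ N := by omega
    have a2 : ((2 * t + 1 : ℤ)) * N ≤ 2 * t * c := by exact_mod_cast h2
    have a3 : (0 : ℤ) ≤ 2 * t + 1 := by positivity
    exact (mul_le_mul_of_nonneg_left a1 a3).trans a2
  set x : ℤ := 2 * c - d with hx
  have hdc : (d : ℤ) = 2 * c - x := by omega
  have e2 : 4 * (d : ℤ) ≤ 4 * x ^ 2 + 1 := by
    nlinarith [sq_nonneg (2 * x - 1 - 4 * (t : ℤ)), e1, hdc]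
  have e3 : (d : ℤ) ≤ x ^ 2 := by omega
  have hx0 : 0 ≤ x := by
    by_contra hneg
    push Not at hneg
    have ht : (0 : ℤ) ≤ t := by positivity
    have hcd' : (c : ℤ) ≤ d := by exact_mod_cast hcd
    nlinarith [mul_nonneg ht (neg_nonneg.2 hneg.le), mul_nonneg ht ht, e1]
  have e4 : Real.sqrt d ≤ (x : ℝ) := by
    apply Real.sqrt_le_iff.2
    refine ⟨by exact_mod_cast hx0, ?_⟩
    exact_mod_cast e3
  have e5 : (x : ℝ) = 2 * c - d := by rw [hx]; push_cast; ring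
  linarith

theorem FIN4_main (hall : ∀ M : ℕ, 1 ≤ M → M ≤ 2 → ∀ k, IH M k) (hRD1 : RD1_stmt) (hRD4 : RD4_stmt)
    (hSXO : SXO_stmt) (hSXR : SXR_stmt) (hSCL : SCL_stmt) (hBCL : BCL_stmt) :
    ∀ (P : Finset (ℝ × ℝ)), 2 ≤ P.card →
      ∀ G : SimpleGraph (ℝ × ℝ),
        (∀ p q : ℝ × ℝ, G.Adj p q ↔
          (p ∈ P ∧ q ∈ P ∧ p ≠ q ∧ ∀ r ∈ P, r ∉ openSegment ℝ p q)) →
        ∀ d : ℕ, (∀ p ∈ P, d ≤ (G.neighborSet p).ncard) →
          (2 * d + 1 ≤ 3 * (P.card - 1) ∧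
            ∀ S : Finset (ℝ × ℝ), S ⊆ P → 3 * S.card < 2 * d + 1 →
              2 * (S.card : ℝ) < (d : ℝ) + max 5 (Real.sqrt d) →
              (G.induce ((P : Set (ℝ × ℝ)) \ (S : Set (ℝ × ℝ)))).Connected) := by
  intro P hP G hG d hd
  classical
  have hd1 : d ≤ P.card - 1 := by
    obtain ⟨p, hp⟩ : P.Nonempty := by rw [← Finset.card_pos]; omega
    refine (hd p hp).trans ?_
    rw [← Finset.card_erase_of_mem hp, ← Set.ncard_coe_finset]
    refine Set.ncard_le_ncard ?_ (Finset.finite_toSet _)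
    intro q hq
    rw [SimpleGraph.mem_neighborSet, hG] at hq
    exact Finset.mem_coe.2 (Finset.mem_erase.2 ⟨hq.2.2.1.symm, hq.2.1⟩)
  refine ⟨by omega, ?_⟩
  intro C hCP hC hC2
  by_contra hcon
  obtain ⟨A, B, hAn, hBn, hAB, hAC, hBC, hU, hbl⟩ := hRD1 P G hG C hCP (by omega) hcon
  have hAP : A ⊆ P := by
    rw [← hU]; exact Finset.subset_union_left.trans Finset.subset_union_left
  have hBP : B ⊆ P := by
    rw [← hU]; exact Finset.subset_union_right.trans Finset.subset_union_left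
  have hnb : ∀ v ∈ P, (G.neighborSet v) = {p : Pt | p ∈ P ∧ p ≠ v ∧ ∀ r ∈ P, r ∉ openSegment ℝ v p} := by
    intro v hv
    ext p
    rw [SimpleGraph.mem_neighborSet, hG]
    constructor
    · rintro ⟨_, h2, h3, h4⟩; exact ⟨h2, h3.symm, h4⟩
    · rintro ⟨h2, h3, h4⟩; exact ⟨hv, h2, h3.symm, h4⟩
  have hU' : B ∪ A ∪ C = P := by rw [Finset.union_comm B A]; exact hU
  have dA : ∀ g : Fn, Nc g → (∃ a ∈ A, ev g a = 0) → (∃ b ∈ B, ev g b = 0) →
      d + (A.filter (fun z => ev g z = 0)).card ≤ C.card + A.card := by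
    intro g hg ha hb
    refine hRD4 A B C g d hg hAB hbl ha hb ?_
    intro v hv
    rw [hU]
    have := hd v (hAP hv)
    rwa [hnb v (hAP hv)] at this
  have dB : ∀ g : Fn, Nc g → (∃ a ∈ A, ev g a = 0) → (∃ b ∈ B, ev g b = 0) →
      d + (B.filter (fun z => ev g z = 0)).card ≤ C.card + B.card := by
    intro g hg ha hb
    refine hRD4 B A C g d hg hAB.symm (blocked_swap hbl) hb ha ?_
    intro v hv
    rw [hU']
    have := hd v (hBP hv)
    rwa [hnb v (hBP hv)] at this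
  by_cases hthree : ∀ g₁ g₂ g₃ : Fn, Thk A B g₁ → Thk A B g₂ → Thk A B g₃ →
      Same A B g₁ g₂ ∨ Same A B g₁ g₃ ∨ Same A B g₂ g₃
  · exact few_thick hall A B C d hAn hBn hAB hbl dA dB hthree hC
  · push Not at hthree
    obtain ⟨g₁, g₂, g₃, t1, t2, t3, s12, s13, s23⟩ := hthree
    have nA := not_two_lines (X := A) (A := A) (B := B) t1.1 t2.1 t3.1 t1.2.1 t2.2.1 t3.2.1 s12 s13 s23
    have nB := not_two_lines (X := B) (A := A) (B := B) t1.1 t2.1 t3.1 t1.2.2 t2.2.2 t3.2.2 s12 s13 s23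
    have hN : N12_stmt := N12_proved hSXO hSXR hSCL hBCL
    obtain ⟨E, hE, hEc⟩ := fge_min_two hN A B hAB nA nB
    have hEC : E.card ≤ C.card := RD2_proved A B C E hbl hE
    have hne : ∀ (X : Finset Pt) (g : Fn), 1 ≤ (X.filter (fun z => ev g z = 0)).card →
        ∃ a ∈ X, ev g a = 0 := by
      intro X g h
      obtain ⟨a, ha⟩ := Finset.card_pos.1 h
      exact ⟨a, (Finset.mem_filter.1 ha).1, (Finset.mem_filter.1 ha).2⟩
    have k3A := t1.2.1
    have k3B := t1.2.2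
    have k1 := dA g₁ t1.1 (hne A g₁ (by omega)) (hne B g₁ (by omega))
    have k2 := dB g₁ t1.1 (hne A g₁ (by omega)) (hne B g₁ (by omega))
    have h5 : d + 5 ≤ 2 * C.card := by omega
    -- the square root bound
    obtain ⟨g₀, hg₀, hmax⟩ := max_thick A B
    set t : ℕ := min (A.filter (fun z => ev g₀ z = 0)).card (B.filter (fun z => ev g₀ z = 0)).card with ht
    have ht3 : 3 ≤ t := by
      have := hmax g₁ t1.1
      omega
    have hypt : Hyp t A B := by
      intro g hg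
      have := hmax g hg
      omega
    obtain ⟨q, hq, hqN⟩ := NT_min hSXO hSXR hSCL hBCL t A B hAB hypt nA nB
    obtain ⟨E', hE', hEc'⟩ := hq
    have hEC' : E'.card ≤ C.card := RD2_proved A B C E' hbl hE'
    have m1 := dA g₀ hg₀ (hne A g₀ (by omega)) (hne B g₀ (by omega))
    have m2 := dB g₀ hg₀ (hne A g₀ (by omega)) (hne B g₀ (by omega))
    have hsq := sqrt_count d C.card t (min A.card B.card) (by omega)
      (hqN.trans (Nat.mul_le_mul_left _ (hEc'.trans hEC'))) hC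
    have h5' : (d : ℝ) + 5 ≤ 2 * (C.card : ℝ) := by exact_mod_cast h5
    rcases max_choice (5 : ℝ) (Real.sqrt d) with h | h
    · rw [h] at hC2; linarith
    · rw [h] at hC2; linarith

end VK
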