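import Pool.Agent.H53.VK.ASM
import Pool.Agent.H53.VK.FIN4
import Pool.Agent.H19.VK.SXR
import Pool.Agent.H37.VK.SCL
import Pool.Agent.H40.VK.DTL
import Pool.Agent.H42.VK.BCL
import Pool.Agent.H50.VK.KFM
import Pool.Agent.H56.VK.WLM

set_option autoImplicit false

namespace VK

theorem scl : SCL_stmt := SCL_proved WLM_proved KFM_proved EXT_proved

theorem bcl : BCL_stmt := BCL_proved WLM_proved KFM_proved DTL_proved CUT_proved

theorem all_points (hSXO : SXO_stmt) :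
    ∀ (P : Finset (ℝ × ℝ)), 2 ≤ P.card →
      ∀ G : SimpleGraph (ℝ × ℝ),
        (∀ p q : ℝ × ℝ, G.Adj p q ↔
          (p ∈ P ∧ q ∈ P ∧ p ≠ q ∧ ∀ r ∈ P, r ∉ openSegment ℝ p q)) →
        ∀ d : ℕ, (∀ p ∈ P, d ≤ (G.neighborSet p).ncard) →
          (2 * d + 1 ≤ 3 * (P.card - 1) ∧
            ∀ S : Finset (ℝ × ℝ), S ⊆ P → 3 * S.card < 2 * d + 1 →
              2 * (S.card : ℝ) < (d : ℝ) + max 5 (Real.sqrt d) →
              (G.induce ((P : Set (ℝ × ℝ)) \ (S : Set (ℝ × ℝ)))).Connected) :=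
  FIN4_main bounds RD1_proved rd4 hSXO SXR_proved scl bcl

end VK
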