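import Pool.Agent.H53.VK.Stm

set_option autoImplicit false

namespace VK

theorem good_empty (A B : Finset Pt) : Good A B ∅ := by
  refine ⟨Finset.empty_subset _, ?_⟩
  intro e he; simp at he

theorem hyp_swap (A B : Finset Pt) (M : ℕ) (h : Hyp M A B) : Hyp M B A := by
  intro g hg
  exact (h g hg).symm

theorem BAS_proved : BAS_stmt := by
  refine ⟨?_, ?_, ?_, ?_, ?_, ?_, ?_⟩
  · rintro A B m n hmn ⟨E, hE, hc⟩
    exact ⟨E, hE, hmn.trans hc⟩
  · rintro A A' B B' n hA hB ⟨E, hE, hc⟩
    exact ⟨E, ⟨hE.1.trans (Finset.product_subset_product hA hB), hE.2⟩, hc⟩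
  · rintro A B n ⟨E, hE, hc⟩
    refine ⟨E.image Prod.swap, ⟨?_, ?_⟩, ?_⟩
    · intro e he
      obtain ⟨f, hf, rfl⟩ := Finset.mem_image.1 he
      have := Finset.mem_product.1 (hE.1 hf)
      exact Finset.mem_product.2 ⟨this.2, this.1⟩
    · intro e he e' he' hne
      obtain ⟨f, hf, rfl⟩ := Finset.mem_image.1 he
      obtain ⟨f', hf', rfl⟩ := Finset.mem_image.1 he'
      have h1 : f ≠ f' := by
        intro h; exact hne (by rw [h])
      have := hE.2 f hf f' hf' h1
      simp only [Prod.fst_swap, Prod.snd_swap]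
      rw [openSegment_symm ℝ f.2 f.1, openSegment_symm ℝ f'.2 f'.1]
      exact this
    · rw [Finset.card_image_of_injective _ Prod.swap_injective]
      exact hc
  · rintro A B ⟨a, ha⟩ ⟨b, hb⟩
    refine ⟨{(a, b)}, ⟨?_, ?_⟩, by simp⟩
    · simp [ha, hb]
    · intro e he f hf hne
      simp only [Finset.mem_singleton] at he hf
      exact absurd (he.trans hf.symm) hne
  · intro A B M h
    exact hyp_swap A B M h
  · intro A A' B B' M hA hB h g hg
    rcases h g hg with h1 | h1
    · left
      exact (Finset.card_le_card (Finset.filter_subset_filter _ hA)).trans h1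
    · right
      exact (Finset.card_le_card (Finset.filter_subset_filter _ hB)).trans h1
  · intro A B h
    exact h.symm

theorem MNR_proved : MNR_stmt := by
  intro S f g hf hg hex
  obtain ⟨z0, hz0, hz0'⟩ := hex
  set T := S.filter (fun z => 0 < ev f z) with hT
  have hTn : T.Nonempty := ⟨z0, Finset.mem_filter.2 ⟨hz0, hz0'⟩⟩
  obtain ⟨z1, hz1, hmin⟩ := Finset.exists_min_image T (fun z => ev g z / ev f z) hTn
  have h1 := (Finset.mem_filter.1 hz1)
  refine ⟨ev g z1 / ev f z1, ?_, z1, h1.1, h1.2, ?_⟩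
  · intro z hz
    rcases (hf z hz).lt_or_eq with hlt | heq
    · have := hmin z (Finset.mem_filter.2 ⟨hz, hlt⟩)
      have h2 : ev g z1 / ev f z1 * ev f z ≤ ev g z := by
        calc ev g z1 / ev f z1 * ev f z ≤ ev g z / ev f z * ev f z :=
              mul_le_mul_of_nonneg_right this hlt.le
          _ = ev g z := by field_simp
      linarith
    · rw [← heq]
      have := hg z hz heq.symm
      linarith
  · have : ev f z1 ≠ 0 := h1.2.ne'
    field_simp
    ring

end VK
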