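import Pool.Agent.H53.VK.ERM

set_option autoImplicit false

namespace VK

theorem BLM_proved : BLM_stmt := by
  intro A B t h v x hAB hER hex
  classical
  have hxv : x ≠ v := by
    rintro rfl
    exact lt_irrefl _ hER.ord
  have hmem : ∀ z ∈ A ∪ B.erase v, z ∈ A ∪ B ∧ z ≠ v := by
    intro z hz
    rcases Finset.mem_union.1 hz with h1 | h1
    · refine ⟨Finset.mem_union_left _ h1, ?_⟩
      rintro rfl
      exact (Finset.disjoint_left.1 hAB h1) hER.hv
    · exact ⟨Finset.mem_union_right _ (Finset.mem_of_mem_erase h1), Finset.ne_of_mem_erase h1⟩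
  have hmem' : ∀ z ∈ A ∪ B, z ≠ v → z ∈ A ∪ B.erase v := by
    intro z hz hzv
    rcases Finset.mem_union.1 hz with h1 | h1
    · exact Finset.mem_union_left _ h1
    · exact Finset.mem_union_right _ (Finset.mem_erase.2 ⟨hzv, h1⟩)
  have hxS : x ∈ A ∪ B.erase v := Finset.mem_union_left _ hER.hx
  have m1 : ∀ z ∈ A ∪ B.erase v, 0 ≤ ev h z := by
    intro z hz
    exact hER.supp z (hmem z hz).1
  have m2 : ∀ z ∈ A ∪ B.erase v, ev h z = 0 → 0 ≤ ev (lin 1 t 0 h (-ev t x)) z := by
    intro z hz hz0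
    rw [ev_lin]
    rcases hER.rest z (hmem z hz).1 hz0 with h1 | h1 | h1
    · exact absurd h1 (hmem z hz).2
    · rw [h1]; linarith
    · linarith
  have m3 : ∃ z ∈ A ∪ B.erase v, 0 < ev h z := by
    obtain ⟨z, hz, hz0⟩ := hex
    refine ⟨z, hmem' z hz ?_, hz0⟩
    rintro rfl
    rw [hER.zv] at hz0
    exact lt_irrefl _ hz0
  obtain ⟨ρ, hρ, z1, hz1, hz1h, hz1f⟩ := MNR_proved (A ∪ B.erase v) h (lin 1 t 0 h (-ev t x)) m1 m2 m3
  set F : Fn := lin 1 t (-ρ) h (-ev t x) with hF
  have hFe : ∀ z, ev F z = ev (lin 1 t 0 h (-ev t x)) z - ρ * ev h z := by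
    intro z
    rw [hF, ev_lin, ev_lin]; ring
  have hF0 : ∀ z ∈ A ∪ B.erase v, 0 ≤ ev F z := by
    intro z hz; rw [hFe]; exact hρ z hz
  have hFx : ev F x = 0 := by
    rw [hF, ev_lin, hER.zx]; ring
  have hFv : ev F v < 0 := by
    rw [hF, ev_lin, hER.zv]; have := hER.ord; linarith
  have hins : insert v (B.erase v) = B := Finset.insert_erase hER.hv
  have hdet : det h F ≠ 0 := by
    have : det h F = - det t h := by
      simp only [det, hF, lin]; ring
    rw [this]
    exact neg_ne_zero.2 hER.fr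
  by_cases hu : ∃ u ∈ A, u ≠ x ∧ ev F u = 0
  · obtain ⟨u, huA, hux, hFu⟩ := hu
    left
    intro n hn
    have := STR_proved A (B.erase v) {x, u} v n ?_ ?_ hn
    · rw [hins, Finset.card_pair (Ne.symm hux)] at this
      exact this
    · intro z hz
      simp only [Finset.mem_insert, Finset.mem_singleton] at hz
      rcases hz with rfl | rfl
      · exact hER.hx
      · exact huA
    · intro z hz
      simp only [Finset.mem_insert, Finset.mem_singleton] at hz
      rcases hz with rfl | rfl
      · exact ⟨F, hF0, hFx, hFv⟩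
      · exact ⟨F, hF0, hFu, hFv⟩
  · right
    push Not at hu
    refine ⟨?_, ?_⟩
    · have hdis : Disjoint A (B.erase v) :=
        Finset.disjoint_of_subset_right (Finset.erase_subset _ _) hAB
      refine ERM_proved A (B.erase v) h F x hdis hdet hER.hx hFx hF0 ?_ ?_
      · refine ⟨z1, hz1, ?_, ?_⟩
        · rintro rfl
          rw [hER.zx] at hz1h
          exact lt_irrefl _ hz1h
        · rw [hFe]; exact hz1f
      · intro z hz hzx hFz
        have hzB : z ∈ B.erase v := by
          rcases Finset.mem_union.1 hz with h1 | h1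
          · exact absurd hFz (hu z h1 hzx)
          · exact h1
        refine ⟨hzB, ?_⟩
        rw [hER.zx]
        rcases (hER.supp z (hmem z hz).1).lt_or_eq with h1 | h1
        · exact h1
        · exfalso
          have hz0 : ev h z = 0 := h1.symm
          rcases hER.rest z (hmem z hz).1 hz0 with h2 | h2 | h2
          · exact (hmem z hz).2 h2
          · exact hzx h2
          · rw [hF, ev_lin, hz0] at hFz
            linarith
    · intro n hn
      have := STR_proved A (B.erase v) {x} v n ?_ ?_ hn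
      · rw [hins, Finset.card_singleton] at this
        exact this
      · intro z hz
        simp only [Finset.mem_singleton] at hz
        rw [hz]; exact hER.hx
      · intro z hz
        simp only [Finset.mem_singleton] at hz
        rw [hz]
        exact ⟨F, hF0, hFx, hFv⟩

theorem CUT_proved : CUT_stmt := by
  rintro A B A1 B1 A2 B2 g n1 n2 c hA1 hB1 hA2 hB2 h1 h2 hc ⟨E1, hE1, hc1⟩ ⟨E2, hE2, hc2⟩
  classical
  have hm1 : ∀ e ∈ E1, e.1 ∈ A1 ∧ e.2 ∈ B1 := fun e he => Finset.mem_product.1 (hE1.1 he)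
  have hm2 : ∀ e ∈ E2, e.1 ∈ A2 ∧ e.2 ∈ B2 := fun e he => Finset.mem_product.1 (hE2.1 he)
  set L := E2.filter (fun e => ev g e.1 = 0 ∧ ev g e.2 = 0) with hL
  set R := E2.filter (fun e => ¬ (ev g e.1 = 0 ∧ ev g e.2 = 0)) with hR
  have hLR : L.card + R.card = E2.card := Finset.card_filter_add_card_filter_not _
  have hLc : L.card ≤ c := by
    refine hc L ⟨?_, ?_⟩
    · intro e he
      have := Finset.mem_filter.1 he
      have h3 := hm2 e this.1
      exact Finset.mem_product.2 ⟨Finset.mem_filter.2 ⟨h3.1, this.2.1⟩, Finset.mem_filter.2 ⟨h3.2, this.2.2⟩⟩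
    · intro e he f hf hne
      exact hE2.2 e (Finset.mem_filter.1 he).1 f (Finset.mem_filter.1 hf).1 hne
  have hneg : ∀ e ∈ R, ev g e.1 ≤ 0 ∧ ev g e.2 ≤ 0 ∧ (ev g e.1 < 0 ∨ ev g e.2 < 0) := by
    intro e he
    have := Finset.mem_filter.1 he
    have h3 := hm2 e this.1
    have h4 := h2 e.1 (Finset.mem_union_left _ h3.1)
    have h5 := h2 e.2 (Finset.mem_union_right _ h3.2)
    refine ⟨h4, h5, ?_⟩
    by_contra hcon
    push Not at hcon
    exact this.2 ⟨le_antisymm h4 hcon.1, le_antisymm h5 hcon.2⟩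
  have hd : ∀ e ∈ E1, ∀ k ∈ R, Disjoint (openSegment ℝ k.1 k.2) (openSegment ℝ e.1 e.2) := by
    intro e he k hk
    obtain ⟨a1, a2, a3⟩ := hneg k hk
    have h3 := hm1 e he
    exact SEP_proved _ _ _ _ g a1 a2 a3 (h1 _ (Finset.mem_union_left _ h3.1))
      (h1 _ (Finset.mem_union_right _ h3.2))
  have hER : Disjoint E1 R := by
    rw [Finset.disjoint_left]
    intro e he hk
    obtain ⟨a1, a2, a3⟩ := hneg e hk
    have h3 := hm1 e he
    have := h1 _ (Finset.mem_union_left _ h3.1)
    have := h1 _ (Finset.mem_union_right _ h3.2)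
    rcases a3 with a3 | a3 <;> linarith
  refine ⟨E1 ∪ R, ⟨?_, ?_⟩, ?_⟩
  · intro e he
    rcases Finset.mem_union.1 he with h | h
    · exact Finset.mem_product.2 ⟨hA1 (hm1 e h).1, hB1 (hm1 e h).2⟩
    · have := hm2 e (Finset.mem_filter.1 h).1
      exact Finset.mem_product.2 ⟨hA2 this.1, hB2 this.2⟩
  · intro e he f hf hne
    rcases Finset.mem_union.1 he with h | h <;> rcases Finset.mem_union.1 hf with h' | h'
    · exact hE1.2 e h f h' hne
    · exact (hd e h f h').symm
    · exact hd f h' e h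
    · exact hE2.2 e (Finset.mem_filter.1 h).1 f (Finset.mem_filter.1 h').1 hne
  · rw [Finset.card_union_of_disjoint hER]
    omega

theorem RD2_proved : RD2_stmt := by
  intro A B C E hb hE
  classical
  have hch : ∀ e ∈ E, ∃ c ∈ C, c ∈ openSegment ℝ e.1 e.2 := by
    intro e he
    have := Finset.mem_product.1 (hE.1 he)
    exact hb e.1 this.1 e.2 this.2
  choose! φ hφ using hch
  refine Finset.card_le_card_of_injOn φ (fun e he => (hφ e he).1) ?_
  intro e he f hf hef
  by_contra hne
  have h1 := hE.2 e he f hf hne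
  exact (Set.disjoint_left.1 h1 (hφ e he).2) (hef ▸ (hφ f hf).2)

end VK
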