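import Mathlib

/-!
# Visibility graphs with at most six collinear points: definitions (crew VK)

`Good A B E`: `E` is a family of `A`-`B` segments with pairwise disjoint open segments.
`Fge A B n`: there is such a family with at least `n` segments (truncated subtraction is fine in `n`).
`Fn` = affine functionals, `ev` = evaluation, `det t h ≠ 0` = `(t, h)` is a coordinate frame.
-/

set_option autoImplicit false

namespace VK

abbrev Pt := ℝ × ℝ

def Good (A B : Finset Pt) (E : Finset (Pt × Pt)) : Prop :=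
  E ⊆ A ×ˢ B ∧ ∀ e ∈ E, ∀ f ∈ E, e ≠ f →
    Disjoint (openSegment ℝ e.1 e.2) (openSegment ℝ f.1 f.2)

def Fge (A B : Finset Pt) (n : ℕ) : Prop := ∃ E, Good A B E ∧ n ≤ E.card

/-- affine functional `a x + b y + c` -/
structure Fn where
  a : ℝ
  b : ℝ
  c : ℝ

noncomputable def ev (f : Fn) (z : Pt) : ℝ := f.a * z.1 + f.b * z.2 + f.c

/-- `α f + β g + γ` -/
noncomputable def lin (α : ℝ) (f : Fn) (β : ℝ) (g : Fn) (γ : ℝ) : Fn :=
  ⟨α * f.a + β * g.a, α * f.b + β * g.b, α * f.c + β * g.c + γ⟩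

noncomputable def det (t h : Fn) : ℝ := t.a * h.b - t.b * h.a

/-- not constant -/
def Nc (f : Fn) : Prop := f.a ≠ 0 ∨ f.b ≠ 0

theorem ev_lin (α : ℝ) (f : Fn) (β : ℝ) (g : Fn) (γ : ℝ) (z : Pt) :
    ev (lin α f β g γ) z = α * ev f z + β * ev g z + γ := by
  simp only [ev, lin]; ring

/-- every line has at most `M` points of one of the colours -/
def Hyp (M : ℕ) (A B : Finset Pt) : Prop :=
  ∀ g : Fn, Nc g → (A.filter (fun z => ev g z = 0)).card ≤ M ∨ (B.filter (fun z => ev g z = 0)).card ≤ M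

/-- (directed) end run of length one: `h ≥ 0` is supporting, `v ∈ B` is the end (minimal `t`) of the
line `h = 0`, its neighbour on the line is `x ∈ A`. -/
structure ER (A B : Finset Pt) (t h : Fn) (v x : Pt) : Prop where
  fr : det t h ≠ 0
  hv : v ∈ B
  hx : x ∈ A
  supp : ∀ z ∈ A ∪ B, 0 ≤ ev h z
  zv : ev h v = 0
  zx : ev h x = 0
  ord : ev t v < ev t x
  rest : ∀ z ∈ A ∪ B, ev h z = 0 → z = v ∨ z = x ∨ ev t x < ev t z

def EndRun (A B : Finset Pt) : Prop :=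
  (∃ t h v x, ER A B t h v x) ∨ (∃ t h v x, ER B A t h v x)

/-- double end run: on the supporting line `h = 0`, ordered by `t`: `y2, y1 ∈ B`, `x1, x2 ∈ A`, rest. -/
structure DR (A B : Finset Pt) (t h : Fn) (y2 y1 x1 x2 : Pt) : Prop where
  fr : det t h ≠ 0
  hy2 : y2 ∈ B
  hy1 : y1 ∈ B
  hx1 : x1 ∈ A
  hx2 : x2 ∈ A
  supp : ∀ z ∈ A ∪ B, 0 ≤ ev h z
  zy2 : ev h y2 = 0
  zy1 : ev h y1 = 0
  zx1 : ev h x1 = 0
  zx2 : ev h x2 = 0
  ord1 : ev t y2 < ev t y1
  ord2 : ev t y1 < ev t x1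
  ord3 : ev t x1 < ev t x2
  rest : ∀ z ∈ A ∪ B, ev h z = 0 → z = y2 ∨ z = y1 ∨ z = x1 ∨ z = x2 ∨ ev t x2 < ev t z

/-- inner isolated point: `v ∈ B` on the supporting line `h = 0`, `t v = 0`; on both sides of `v` on
the line the nearest point (`w` left, `x` right) is in `A`, and on both sides `#B + 1 ≤ #A`. -/
structure IS (A B : Finset Pt) (t h : Fn) (w v x : Pt) : Prop where
  fr : det t h ≠ 0
  hv : v ∈ B
  hx : x ∈ A
  hw : w ∈ A
  supp : ∀ z ∈ A ∪ B, 0 ≤ ev h z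
  zv : ev h v = 0
  zx : ev h x = 0
  zw : ev h w = 0
  tv : ev t v = 0
  tx : 0 < ev t x
  tw : ev t w < 0
  rest : ∀ z ∈ A ∪ B, ev h z = 0 → z = v ∨ z = x ∨ z = w ∨ ev t x < ev t z ∨ ev t z < ev t w
  cr : (B.filter (fun z => ev h z = 0 ∧ 0 < ev t z)).card + 1 ≤
        (A.filter (fun z => ev h z = 0 ∧ 0 < ev t z)).card
  cl : (B.filter (fun z => ev h z = 0 ∧ ev t z < 0)).card + 1 ≤
        (A.filter (fun z => ev h z = 0 ∧ ev t z < 0)).card

/-- pattern `A^i B B A^j`, `i, j ≥ 2`, on the supporting line `h = 0`; the two `B` points of the line are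
`y1` (left, `t y1 = 0`) and `y2` (right); `w ∈ A` is the left neighbour of `y1`, `x ∈ A` the right
neighbour of `y2`. -/
structure D2 (A B : Finset Pt) (t h : Fn) (w y1 y2 x : Pt) : Prop where
  fr : det t h ≠ 0
  hy1 : y1 ∈ B
  hy2 : y2 ∈ B
  hx : x ∈ A
  hw : w ∈ A
  supp : ∀ z ∈ A ∪ B, 0 ≤ ev h z
  zy1 : ev h y1 = 0
  zy2 : ev h y2 = 0
  zx : ev h x = 0
  zw : ev h w = 0
  ty1 : ev t y1 = 0
  ty2 : 0 < ev t y2
  tx : ev t y2 < ev t x
  tw : ev t w < 0
  onlyB : ∀ z ∈ B, ev h z = 0 → z = y1 ∨ z = y2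
  rest : ∀ z ∈ A, ev h z = 0 → z = x ∨ z = w ∨ ev t x < ev t z ∨ ev t z < ev t w
  cr : 2 ≤ (A.filter (fun z => ev h z = 0 ∧ 0 < ev t z)).card
  cl : 2 ≤ (A.filter (fun z => ev h z = 0 ∧ ev t z < 0)).card

/-- induction hypothesis: both bounds for all pairs with fewer than `k` points -/
def IH (M k : ℕ) : Prop :=
  ∀ A B : Finset Pt, Disjoint A B → A.Nonempty → B.Nonempty → A.card + B.card < k → Hyp M A B →
    Fge A B (2 * min A.card B.card + 1 - 2 * M) ∧
    (EndRun A B → Fge A B (2 * min A.card B.card - M))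

end VK
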