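import Pool.Agent.H53.VK.BAS

set_option autoImplicit false

namespace VK

theorem frame_inj {q f : Fn} (hd : det q f ≠ 0) {z x : Pt} (h1 : ev q z = ev q x)
    (h2 : ev f z = ev f x) : z = x := by
  simp only [ev, det] at *
  have e1 : (q.a * f.b - q.b * f.a) * (z.1 - x.1) = 0 := by linear_combination f.b * h1 - q.b * h2
  have e2 : (q.a * f.b - q.b * f.a) * (z.2 - x.2) = 0 := by linear_combination q.a * h2 - f.a * h1
  have h3 : z.1 - x.1 = 0 := by
    rcases mul_eq_zero.1 e1 with h | h
    · exact absurd h hd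
    · exact h
  have h4 : z.2 - x.2 = 0 := by
    rcases mul_eq_zero.1 e2 with h | h
    · exact absurd h hd
    · exact h
  exact Prod.ext (by linarith) (by linarith)

theorem ev_seg {p q z : Pt} (f : Fn) (hz : z ∈ openSegment ℝ p q) :
    ∃ a b : ℝ, 0 < a ∧ 0 < b ∧ a + b = 1 ∧ ev f z = a * ev f p + b * ev f q := by
  obtain ⟨a, b, ha, hb, hab, rfl⟩ := hz
  refine ⟨a, b, ha, hb, hab, ?_⟩
  simp only [ev, Prod.fst_add, Prod.snd_add, Prod.smul_fst, Prod.smul_snd, smul_eq_mul]
  have : b = 1 - a := by linarith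
  subst this; ring

theorem SEP_proved : SEP_stmt := by
  intro p q r s f hp hq hpq hr hs
  rw [Set.disjoint_left]
  intro z hz hz'
  obtain ⟨a, b, ha, hb, _, h1⟩ := ev_seg f hz
  obtain ⟨c, d, hc, hd, _, h2⟩ := ev_seg f hz'
  have h3 : 0 ≤ ev f z := by rw [h2]; positivity
  have h4 : ev f z < 0 := by
    rw [h1]
    rcases hpq with h | h
    · have := mul_neg_of_pos_of_neg ha h
      have := mul_nonpos_of_nonneg_of_nonpos hb.le hq
      linarith
    · have := mul_neg_of_pos_of_neg hb h
      have := mul_nonpos_of_nonneg_of_nonpos ha.le hp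
      linarith
  linarith

theorem ERM_proved : ERM_stmt := by
  intro A B q f w hAB hd hw hfw hsupp hex hall
  classical
  obtain ⟨z0, hz0, hz0w, hz0f⟩ := hex
  set T := (A ∪ B).filter (fun z => z ≠ w ∧ ev f z = 0) with hT
  have hTn : T.Nonempty := ⟨z0, Finset.mem_filter.2 ⟨hz0, hz0w, hz0f⟩⟩
  obtain ⟨x, hx, hmin⟩ := Finset.exists_min_image T (fun z => ev q z) hTn
  have h1 := Finset.mem_filter.1 hx
  have h2 := hall x h1.1 h1.2.1 h1.2.2
  right
  refine ⟨q, f, w, x, ?_⟩
  refine ⟨hd, hw, h2.1, ?_, hfw, h1.2.2, h2.2, ?_⟩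
  · intro z hz
    exact hsupp z (by rw [Finset.union_comm]; exact hz)
  · intro z hz hfz
    by_cases hzw : z = w
    · left; exact hzw
    · right
      have hzT : z ∈ T := Finset.mem_filter.2 ⟨by rw [Finset.union_comm]; exact hz, hzw, hfz⟩
      rcases (hmin z hzT).lt_or_eq with h | h
      · right; exact h
      · left
        exact (frame_inj hd h (by rw [hfz, h1.2.2])).symm

theorem EXT_proved : EXT_stmt := by
  rintro A B A' B' K n hA hB hK hf ⟨E, hE, hc⟩
  classical
  have hEmem : ∀ e ∈ E, e.1 ∈ A' ∧ e.2 ∈ B' := fun e he => Finset.mem_product.1 (hE.1 he)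
  have hdisjseg : ∀ e ∈ E, ∀ k ∈ K, Disjoint (openSegment ℝ k.1 k.2) (openSegment ℝ e.1 e.2) := by
    intro e he k hk
    obtain ⟨f, h0, h1, h2, h3⟩ := hf k hk
    exact SEP_proved _ _ _ _ f h1 h2 h3 (h0 _ (Finset.mem_union_left _ (hEmem e he).1))
      (h0 _ (Finset.mem_union_right _ (hEmem e he).2))
  have hEK : Disjoint E K := by
    rw [Finset.disjoint_left]
    intro e he hk
    obtain ⟨f, h0, h1, h2, h3⟩ := hf e hk
    have ha := h0 _ (Finset.mem_union_left _ (hEmem e he).1)
    have hb := h0 _ (Finset.mem_union_right _ (hEmem e he).2)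
    rcases h3 with h3 | h3 <;> linarith
  refine ⟨E ∪ K, ⟨?_, ?_⟩, ?_⟩
  · intro e he
    rcases Finset.mem_union.1 he with h | h
    · exact Finset.mem_product.2 ⟨hA (hEmem e h).1, hB (hEmem e h).2⟩
    · exact hK.1 h
  · intro e he f hf' hne
    rcases Finset.mem_union.1 he with h | h <;> rcases Finset.mem_union.1 hf' with h' | h'
    · exact hE.2 e h f h' hne
    · exact (hdisjseg e h f h').symm
    · exact hdisjseg f h' e h
    · exact hK.2 e h f h' hne
  · rw [Finset.card_union_of_disjoint hEK]
    omega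

theorem STR_proved : STR_stmt := by
  intro A B W v n hW hf hn
  classical
  have hinj : Function.Injective (fun u : Pt => (u, v)) := by
    intro u u' h; exact (Prod.mk.inj h).1
  have key := EXT_proved A (insert v B) A B (W.image (fun u => (u, v))) n (Finset.Subset.refl _)
    (Finset.subset_insert _ _) ?_ ?_ hn
  · rw [Finset.card_image_of_injective _ hinj] at key
    exact key
  · refine ⟨?_, ?_⟩
    · intro e he
      obtain ⟨u, hu, rfl⟩ := Finset.mem_image.1 he
      exact Finset.mem_product.2 ⟨hW hu, Finset.mem_insert_self _ _⟩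
    · intro e he e' he' hne
      obtain ⟨u, hu, rfl⟩ := Finset.mem_image.1 he
      obtain ⟨u', hu', rfl⟩ := Finset.mem_image.1 he'
      have huu : u ≠ u' := by rintro rfl; exact hne rfl
      simp only
      rw [Set.disjoint_left]
      rintro z hz hz'
      obtain ⟨f, hf0, hf1, hf2⟩ := hf u hu
      obtain ⟨f', hf0', hf1', hf2'⟩ := hf u' hu'
      obtain ⟨a, b, ha, hb, hab, hz1⟩ := hz
      obtain ⟨c, d, hc, hd, hcd, hz2⟩ := hz'
      -- z = a u + b v = c u' + d v
      have e1 : a * u.1 + b * v.1 = c * u'.1 + d * v.1 := by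
        have := congrArg Prod.fst (hz1.trans hz2.symm)
        simpa using this
      have e2 : a * u.2 + b * v.2 = c * u'.2 + d * v.2 := by
        have := congrArg Prod.snd (hz1.trans hz2.symm)
        simpa using this
      have hu_f : 0 ≤ ev f u' := hf0 u' (Finset.mem_union_left _ (hW hu'))
      have hu_f' : 0 ≤ ev f' u := hf0' u (Finset.mem_union_left _ (hW hu))
      have k1 : a * ev f u + b * ev f v = c * ev f u' + d * ev f v := by
        simp only [ev]
        linear_combination f.a * e1 + f.b * e2 + f.c * (hab - hcd)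
      have k2 : a * ev f' u + b * ev f' v = c * ev f' u' + d * ev f' v := by
        simp only [ev]
        linear_combination f'.a * e1 + f'.b * e2 + f'.c * (hab - hcd)
      rw [hf1] at k1
      rw [hf1'] at k2
      -- (b - d) * f v = c f u' ≥ 0, f v < 0 → b ≤ d ; (b - d) f' v = - a f' u ≤ 0 → b ≥ d
      have h1 : b - d ≤ 0 := by
        by_contra hcon
        push Not at hcon
        have : (b - d) * ev f v < 0 := mul_neg_of_pos_of_neg hcon hf2
        have : 0 ≤ c * ev f u' := mul_nonneg hc.le hu_f
        nlinarith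
      have h2 : 0 ≤ b - d := by
        by_contra hcon
        push Not at hcon
        have : 0 < (b - d) * ev f' v := mul_pos_of_neg_of_neg hcon hf2'
        have : 0 ≤ a * ev f' u := mul_nonneg ha.le hu_f'
        nlinarith
      have hbd : b = d := by linarith
      have hac : a = c := by linarith
      subst hbd hac
      apply huu
      apply Prod.ext
      · have : a * (u.1 - u'.1) = 0 := by linarith
        rcases mul_eq_zero.1 this with h | h
        · linarith
        · linarith
      · have : a * (u.2 - u'.2) = 0 := by linarith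
        rcases mul_eq_zero.1 this with h | h
        · linarith
        · linarith
  · intro e he
    obtain ⟨u, hu, rfl⟩ := Finset.mem_image.1 he
    obtain ⟨f, hf0, hf1, hf2⟩ := hf u hu
    exact ⟨f, hf0, hf1.le, hf2.le, Or.inr hf2⟩

end VK
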