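import Pool.Agent.H53.VK.PST

set_option autoImplicit false

namespace VK

theorem collinear_line (g : Fn) (hg : Nc g) (s : Set Pt) (hs : ∀ z ∈ s, ev g z = 0) :
    Collinear ℝ s := by
  rcases s.eq_empty_or_nonempty with rfl | ⟨p0, hp0⟩
  · exact collinear_empty ℝ _
  rw [collinear_iff_of_mem hp0]
  refine ⟨(-g.b, g.a), ?_⟩
  intro p hp
  have h1 := hs p hp
  have h2 := hs p0 hp0
  simp only [ev] at h1 h2
  rcases hg with h | h
  · refine ⟨(p.2 - p0.2) / g.a, ?_⟩
    ext
    · simp only [vadd_eq_add, Prod.fst_add, Prod.smul_fst, smul_eq_mul]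
      field_simp
      linarith
    · simp only [vadd_eq_add, Prod.snd_add, Prod.smul_snd, smul_eq_mul]
      field_simp
      ring
  · refine ⟨-(p.1 - p0.1) / g.b, ?_⟩
    ext
    · simp only [vadd_eq_add, Prod.fst_add, Prod.smul_fst, smul_eq_mul]
      field_simp
      ring
    · simp only [vadd_eq_add, Prod.snd_add, Prod.smul_snd, smul_eq_mul]
      field_simp
      linarith

theorem line_through (a b : Pt) (hab : a ≠ b) : ∃ g : Fn, Nc g ∧ ev g a = 0 ∧ ev g b = 0 := by
  refine ⟨⟨b.2 - a.2, -(b.1 - a.1), -(b.2 - a.2) * a.1 + (b.1 - a.1) * a.2⟩, ?_, ?_, ?_⟩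
  · by_contra hcon
    simp only [Nc, not_or, not_not] at hcon
    apply hab
    exact Prod.ext (by linarith [hcon.2]) (by linarith [hcon.1])
  · simp only [ev]; ring
  · simp only [ev]; ring

theorem blocked_swap {A B C : Finset Pt} (h : Blocked A B C) : Blocked B A C := by
  intro b hb a ha
  obtain ⟨c, hc, hc'⟩ := h a ha b hb
  exact ⟨c, hc, by rw [openSegment_symm]; exact hc'⟩

/-- two different points of a collinear set on the line `g = 0` put the whole set on this line -/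
theorem line_of_two {g : Fn} {s : Set Pt} (hs : Collinear ℝ s) {a b : Pt} (ha : a ∈ s) (hb : b ∈ s)
    (hab : a ≠ b) (hga : ev g a = 0) (hgb : ev g b = 0) : ∀ z ∈ s, ev g z = 0 := by
  intro z hz
  rw [collinear_iff_of_mem ha] at hs
  obtain ⟨v, hv⟩ := hs
  obtain ⟨r, hr⟩ := hv b hb
  obtain ⟨q, hq⟩ := hv z hz
  have hr0 : r ≠ 0 := by
    rintro rfl
    apply hab
    rw [hr]; simp
  have e1 : b.1 = r * v.1 + a.1 := by
    have := congrArg Prod.fst hr
    simpa using this
  have e2 : b.2 = r * v.2 + a.2 := by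
    have := congrArg Prod.snd hr
    simpa using this
  have e3 : z.1 = q * v.1 + a.1 := by
    have := congrArg Prod.fst hq
    simpa using this
  have e4 : z.2 = q * v.2 + a.2 := by
    have := congrArg Prod.snd hq
    simpa using this
  simp only [ev] at *
  have h1 : r * (g.a * v.1 + g.b * v.2) = 0 := by
    rw [e1, e2] at hgb
    linear_combination hgb - hga
  have h2 : g.a * v.1 + g.b * v.2 = 0 := by
    rcases mul_eq_zero.1 h1 with h | h
    · exact absurd h hr0
    · exact h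
  rw [e3, e4]
  linear_combination q * h2 + hga

/-- thick line -/
def Thk (A B : Finset Pt) (g : Fn) : Prop :=
  Nc g ∧ 3 ≤ (A.filter (fun z => ev g z = 0)).card ∧ 3 ≤ (B.filter (fun z => ev g z = 0)).card

/-- the two zero lines agree on `A ∪ B` -/
def Same (A B : Finset Pt) (g g' : Fn) : Prop := ∀ z ∈ A ∪ B, ev g z = 0 ↔ ev g' z = 0

theorem filter_same {A X : Finset Pt} {g g' : Fn} (hX : X ⊆ A) (h : ∀ z ∈ A, ev g z = 0 ↔ ev g' z = 0) :
    X.filter (fun z => ev g z = 0) = X.filter (fun z => ev g' z = 0) :=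
  Finset.filter_congr (fun z hz => h z (hX hz))

/-- delete all but two points of a line -/
theorem thin_out (A : Finset Pt) (g : Fn) (h3 : 2 ≤ (A.filter (fun z => ev g z = 0)).card) :
    ∃ A' : Finset Pt, A' ⊆ A ∧ (A'.filter (fun z => ev g z = 0)).card ≤ 2 ∧
      A'.card + (A.filter (fun z => ev g z = 0)).card = A.card + 2 := by
  classical
  obtain ⟨K, hK, hKc⟩ := Finset.exists_subset_card_eq h3
  have hKA : K ⊆ A := hK.trans (Finset.filter_subset _ _)
  refine ⟨A.filter (fun z => ¬ ev g z = 0) ∪ K, ?_, ?_, ?_⟩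
  · exact Finset.union_subset (Finset.filter_subset _ _) hKA
  · have : (A.filter (fun z => ¬ ev g z = 0) ∪ K).filter (fun z => ev g z = 0) ⊆ K := by
      intro z hz
      obtain ⟨h1, h2⟩ := Finset.mem_filter.1 hz
      rcases Finset.mem_union.1 h1 with h | h
      · exact absurd h2 (Finset.mem_filter.1 h).2
      · exact h
    exact (Finset.card_le_card this).trans hKc.le
  · have hd : Disjoint (A.filter (fun z => ¬ ev g z = 0)) K := by
      rw [Finset.disjoint_left]
      intro z hz hz'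
      exact (Finset.mem_filter.1 hz).2 (Finset.mem_filter.1 (hK hz')).2
    rw [Finset.card_union_of_disjoint hd, hKc]
    have := Finset.card_filter_add_card_filter_not (s := A) (fun z => ev g z = 0)
    omega

theorem FIN_main (hall : ∀ M : ℕ, 1 ≤ M → M ≤ 2 → ∀ k, IH M k) (hRD1 : RD1_stmt) (hRD4 : RD4_stmt) :
    ∀ (P : Finset (ℝ × ℝ)), 2 ≤ P.card →
      (∀ Q₁ Q₂ Q₃ : Finset (ℝ × ℝ), Q₁ ⊆ P → Q₂ ⊆ P → Q₃ ⊆ P →
        Collinear ℝ (Q₁ : Set (ℝ × ℝ)) → Collinear ℝ (Q₂ : Set (ℝ × ℝ)) →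
        Collinear ℝ (Q₃ : Set (ℝ × ℝ)) → 7 ≤ Q₁.card → 7 ≤ Q₂.card → 7 ≤ Q₃.card →
        Collinear ℝ ((Q₁ : Set (ℝ × ℝ)) ∪ Q₂) ∨ Collinear ℝ ((Q₁ : Set (ℝ × ℝ)) ∪ Q₃) ∨
        Collinear ℝ ((Q₂ : Set (ℝ × ℝ)) ∪ Q₃)) →
      ∀ G : SimpleGraph (ℝ × ℝ),
        (∀ p q : ℝ × ℝ, G.Adj p q ↔
          (p ∈ P ∧ q ∈ P ∧ p ≠ q ∧ ∀ r ∈ P, r ∉ openSegment ℝ p q)) →
        ∀ d : ℕ, (∀ p ∈ P, d ≤ (G.neighborSet p).ncard) →
          (2 * d + 1 ≤ 3 * (P.card - 1) ∧
            ∀ S : Finset (ℝ × ℝ), S ⊆ P → 3 * S.card < 2 * d + 1 →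
              (G.induce ((P : Set (ℝ × ℝ)) \ (S : Set (ℝ × ℝ)))).Connected) := by
  intro P hP hrich G hG d hd
  classical
  have hd1 : d ≤ P.card - 1 := by
    obtain ⟨p, hp⟩ : P.Nonempty := by rw [← Finset.card_pos]; omega
    refine (hd p hp).trans ?_
    rw [← Finset.card_erase_of_mem hp, ← Set.ncard_coe_finset]
    refine Set.ncard_le_ncard ?_ (Finset.finite_toSet _)
    intro q hq
    rw [SimpleGraph.mem_neighborSet, hG] at hq
    exact Finset.mem_coe.2 (Finset.mem_erase.2 ⟨hq.2.2.1.symm, hq.2.1⟩)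
  refine ⟨by omega, ?_⟩
  intro C hCP hC
  by_contra hcon
  obtain ⟨A, B, hAn, hBn, hAB, hAC, hBC, hU, hbl⟩ := hRD1 P G hG C hCP (by omega) hcon
  have hAP : A ⊆ P := by
    rw [← hU]; exact Finset.subset_union_left.trans Finset.subset_union_left
  have hBP : B ⊆ P := by
    rw [← hU]; exact Finset.subset_union_right.trans Finset.subset_union_left
  have hnb : ∀ v ∈ P, (G.neighborSet v) = {p : Pt | p ∈ P ∧ p ≠ v ∧ ∀ r ∈ P, r ∉ openSegment ℝ v p} := by
    intro v hv
    ext p
    rw [SimpleGraph.mem_neighborSet, hG]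
    constructor
    · rintro ⟨_, h2, h3, h4⟩; exact ⟨h2, h3.symm, h4⟩
    · rintro ⟨h2, h3, h4⟩; exact ⟨hv, h2, h3.symm, h4⟩
  have hU' : B ∪ A ∪ C = P := by rw [Finset.union_comm B A]; exact hU
  have dA : ∀ g : Fn, Nc g → (∃ a ∈ A, ev g a = 0) → (∃ b ∈ B, ev g b = 0) →
      d + (A.filter (fun z => ev g z = 0)).card ≤ C.card + A.card := by
    intro g hg ha hb
    refine hRD4 A B C g d hg hAB hbl ha hb ?_
    intro v hv
    rw [hU]
    have := hd v (hAP hv)
    rwa [hnb v (hAP hv)] at this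
  have dB : ∀ g : Fn, Nc g → (∃ a ∈ A, ev g a = 0) → (∃ b ∈ B, ev g b = 0) →
      d + (B.filter (fun z => ev g z = 0)).card ≤ C.card + B.card := by
    intro g hg ha hb
    refine hRD4 B A C g d hg hAB.symm (blocked_swap hbl) hb ha ?_
    intro v hv
    rw [hU']
    have := hd v (hBP hv)
    rwa [hnb v (hBP hv)] at this
  have hne : ∀ (X : Finset Pt) (g : Fn), 1 ≤ (X.filter (fun z => ev g z = 0)).card →
      ∃ a ∈ X, ev g a = 0 := by
    intro X g h
    obtain ⟨a, ha⟩ := Finset.card_pos.1 h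
    exact ⟨a, (Finset.mem_filter.1 ha).1, (Finset.mem_filter.1 ha).2⟩
  -- a thick line carries a collinear set of at least seven points
  have hseven : ∀ g : Fn, Thk A B g → ∃ Q : Finset Pt, Q ⊆ P ∧ 7 ≤ Q.card ∧
      (∀ z ∈ Q, ev g z = 0) ∧ (A.filter (fun z => ev g z = 0)) ⊆ Q ∧
      (B.filter (fun z => ev g z = 0)) ⊆ Q := by
    rintro g ⟨hg, h3A, h3B⟩
    obtain ⟨a, ha, ha0⟩ := hne A g (by omega)
    obtain ⟨b, hb, hb0⟩ := hne B g (by omega)
    obtain ⟨c, hc, hc'⟩ := hbl a ha b hb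
    have hc0 : ev g c = 0 := by
      obtain ⟨x, y, _, _, _, h⟩ := ev_seg g hc'
      rw [h, ha0, hb0]; ring
    have hd1 : Disjoint (A.filter (fun z => ev g z = 0)) (B.filter (fun z => ev g z = 0)) :=
      Finset.disjoint_of_subset_left (Finset.filter_subset _ _)
        (Finset.disjoint_of_subset_right (Finset.filter_subset _ _) hAB)
    have hcn : c ∉ (A.filter (fun z => ev g z = 0)) ∪ (B.filter (fun z => ev g z = 0)) := by
      intro h
      rcases Finset.mem_union.1 h with h | h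
      · exact Finset.disjoint_left.1 hAC (Finset.mem_filter.1 h).1 hc
      · exact Finset.disjoint_left.1 hBC (Finset.mem_filter.1 h).1 hc
    refine ⟨insert c ((A.filter (fun z => ev g z = 0)) ∪ (B.filter (fun z => ev g z = 0))), ?_, ?_, ?_,
      ?_, ?_⟩
    · intro z hz
      rcases Finset.mem_insert.1 hz with rfl | hz
      · exact hCP hc
      rcases Finset.mem_union.1 hz with h | h
      · exact hAP (Finset.mem_filter.1 h).1
      · exact hBP (Finset.mem_filter.1 h).1
    · rw [Finset.card_insert_of_notMem hcn, Finset.card_union_of_disjoint hd1]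
      omega
    · intro z hz
      rcases Finset.mem_insert.1 hz with rfl | hz
      · exact hc0
      rcases Finset.mem_union.1 hz with h | h
      · exact (Finset.mem_filter.1 h).2
      · exact (Finset.mem_filter.1 h).2
    · exact Finset.subset_union_left.trans (Finset.subset_insert _ _)
    · exact Finset.subset_union_right.trans (Finset.subset_insert _ _)
  -- collinear union of thick lines: same line
  have hsame : ∀ (g g' : Fn) (Q Q' : Finset Pt), 2 ≤ Q.card → 2 ≤ Q'.card →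
      (∀ z ∈ Q, ev g z = 0) → (∀ z ∈ Q', ev g' z = 0) →
      (∀ X : Finset Pt, X ⊆ A ∪ B → X.filter (fun z => ev g z = 0) ⊆ Q) →
      (∀ X : Finset Pt, X ⊆ A ∪ B → X.filter (fun z => ev g' z = 0) ⊆ Q') →
      Collinear ℝ ((Q : Set Pt) ∪ Q') → Same A B g g' := by
    intro g g' Q Q' hQ hQ' hg hg' hX hX' hcol z hz
    obtain ⟨a, ha, b, hb, hab⟩ := Finset.one_lt_card.1 hQ
    obtain ⟨a', ha', b', hb', hab'⟩ := Finset.one_lt_card.1 hQ'
    constructor
    · intro h0
      have hzQ : z ∈ Q := hX {z} (by simpa using hz) (Finset.mem_filter.2 ⟨Finset.mem_singleton_self z, h0⟩)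
      exact line_of_two hcol (Or.inr ha') (Or.inr hb') hab' (hg' a' ha') (hg' b' hb') z (Or.inl hzQ)
    · intro h0
      have hzQ : z ∈ Q' := hX' {z} (by simpa using hz) (Finset.mem_filter.2 ⟨Finset.mem_singleton_self z, h0⟩)
      exact line_of_two hcol (Or.inl ha) (Or.inl hb) hab (hg a ha) (hg b hb) z (Or.inr hzQ)
  have hfil : ∀ (g : Fn) (Q : Finset Pt), (A.filter (fun z => ev g z = 0)) ⊆ Q →
      (B.filter (fun z => ev g z = 0)) ⊆ Q → ∀ X : Finset Pt, X ⊆ A ∪ B →
      X.filter (fun z => ev g z = 0) ⊆ Q := by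
    intro g Q h1 h2 X hX z hz
    obtain ⟨h3, h4⟩ := Finset.mem_filter.1 hz
    rcases Finset.mem_union.1 (hX h3) with h | h
    · exact h1 (Finset.mem_filter.2 ⟨h, h4⟩)
    · exact h2 (Finset.mem_filter.2 ⟨h, h4⟩)
  have hthree : ∀ g₁ g₂ g₃ : Fn, Thk A B g₁ → Thk A B g₂ → Thk A B g₃ →
      Same A B g₁ g₂ ∨ Same A B g₁ g₃ ∨ Same A B g₂ g₃ := by
    intro g₁ g₂ g₃ h1 h2 h3
    obtain ⟨Q₁, a1, b1, c1, d1, e1⟩ := hseven g₁ h1
    obtain ⟨Q₂, a2, b2, c2, d2, e2⟩ := hseven g₂ h2
    obtain ⟨Q₃, a3, b3, c3, d3, e3⟩ := hseven g₃ h3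
    have k1 := collinear_line g₁ h1.1 (Q₁ : Set Pt) (fun z hz => c1 z (Finset.mem_coe.1 hz))
    have k2 := collinear_line g₂ h2.1 (Q₂ : Set Pt) (fun z hz => c2 z (Finset.mem_coe.1 hz))
    have k3 := collinear_line g₃ h3.1 (Q₃ : Set Pt) (fun z hz => c3 z (Finset.mem_coe.1 hz))
    rcases hrich Q₁ Q₂ Q₃ a1 a2 a3 k1 k2 k3 b1 b2 b3 with h | h | h
    · left
      exact hsame g₁ g₂ Q₁ Q₂ (by omega) (by omega) c1 c2 (hfil g₁ Q₁ d1 e1) (hfil g₂ Q₂ d2 e2) h
    · right; left
      exact hsame g₁ g₃ Q₁ Q₃ (by omega) (by omega) c1 c3 (hfil g₁ Q₁ d1 e1) (hfil g₃ Q₃ d3 e3) h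
    · right; right
      exact hsame g₂ g₃ Q₂ Q₃ (by omega) (by omega) c2 c3 (hfil g₂ Q₂ d2 e2) (hfil g₃ Q₃ d3 e3) h
  -- the conclusion from a thinned pair
  have hfinish : ∀ A' B' : Finset Pt, A' ⊆ A → B' ⊆ B → Hyp 2 A' B' →
      d + 2 ≤ C.card + A'.card → d + 2 ≤ C.card + B'.card → False := by
    intro A' B' hA' hB' hyp k1 k2
    by_cases hAe : A'.Nonempty
    · by_cases hBe : B'.Nonempty
      · obtain ⟨E, hE, hEc⟩ := (hall 2 (by norm_num) le_rfl (A'.card + B'.card + 1) A' B'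
          (Finset.disjoint_of_subset_left hA' (Finset.disjoint_of_subset_right hB' hAB)) hAe hBe
          (Nat.lt_succ_self _) hyp).1
        have hbl' : Blocked A' B' C := fun a ha b hb => hbl a (hA' ha) b (hB' hb)
        have hEC : E.card ≤ C.card := RD2_proved A' B' C E hbl' hE
        omega
      · rw [Finset.not_nonempty_iff_eq_empty] at hBe
        rw [hBe, Finset.card_empty] at k2
        omega
    · rw [Finset.not_nonempty_iff_eq_empty] at hAe
      rw [hAe, Finset.card_empty] at k1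
      omega
  by_cases hthick : ∃ g : Fn, Nc g ∧ 2 ≤ (A.filter (fun z => ev g z = 0)).card ∧
      2 ≤ (B.filter (fun z => ev g z = 0)).card
  · by_cases hT : ∃ g : Fn, Thk A B g
    · obtain ⟨g₁, hg₁⟩ := hT
      -- a second thick line, if there is one
      obtain ⟨g₂, hg₂, hcov⟩ : ∃ g₂ : Fn, Thk A B g₂ ∧
          ∀ g, Thk A B g → Same A B g g₁ ∨ Same A B g g₂ := by
        by_cases h : ∃ g₂ : Fn, Thk A B g₂ ∧ ¬ Same A B g₁ g₂
        · obtain ⟨g₂, h1, h2⟩ := h
          refine ⟨g₂, h1, ?_⟩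
          intro g hg
          rcases hthree g₁ g₂ g hg₁ h1 hg with h3 | h3 | h3
          · exact absurd h3 h2
          · left; exact fun z hz => (h3 z hz).symm
          · right; exact fun z hz => (h3 z hz).symm
        · push Not at h
          refine ⟨g₁, hg₁, ?_⟩
          intro g hg
          left; exact fun z hz => (h g hg z hz).symm
      obtain ⟨A', hA', hA2, hAc⟩ := thin_out A g₁ (by have := hg₁.2.1; omega)
      obtain ⟨B', hB', hB2, hBc⟩ := thin_out B g₂ (by have := hg₂.2.2; omega)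
      refine hfinish A' B' hA' hB' ?_ ?_ ?_
      · intro g hg
        by_cases hgt : Thk A B g
        · rcases hcov g hgt with h | h
          · left
            rw [filter_same hA' (fun z hz => h z (Finset.mem_union_left _ hz))]
            exact hA2
          · right
            rw [filter_same hB' (fun z hz => h z (Finset.mem_union_right _ hz))]
            exact hB2
        · have hAle := Finset.card_le_card (Finset.filter_subset_filter (fun z => ev g z = 0) hA')
          have hBle := Finset.card_le_card (Finset.filter_subset_filter (fun z => ev g z = 0) hB')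
          by_contra hcon'
          push Not at hcon'
          exact hgt ⟨hg, by omega, by omega⟩
      · have := dA g₁ hg₁.1 (hne A g₁ (by have := hg₁.2.1; omega)) (hne B g₁ (by have := hg₁.2.2; omega))
        omega
      · have := dB g₂ hg₂.1 (hne A g₂ (by have := hg₂.2.1; omega)) (hne B g₂ (by have := hg₂.2.2; omega))
        omega
    · obtain ⟨g, hg, h2A, h2B⟩ := hthick
      have k1 := dA g hg (hne A g (by omega)) (hne B g (by omega))
      have k2 := dB g hg (hne A g (by omega)) (hne B g (by omega))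
      refine hfinish A B (Finset.Subset.refl _) (Finset.Subset.refl _) ?_ (by omega) (by omega)
      intro g' hg'
      by_contra hcon'
      push Not at hcon'
      exact hT ⟨g', hg', by omega, by omega⟩
  · have hyp1 : Hyp 1 A B := by
      intro g hg
      by_contra hcon'
      push Not at hcon'
      exact hthick ⟨g, hg, hcon'.1, hcon'.2⟩
    obtain ⟨a, ha⟩ := hAn
    obtain ⟨b, hb⟩ := hBn
    have hab : a ≠ b := by
      rintro rfl
      exact Finset.disjoint_left.1 hAB ha hb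
    obtain ⟨g, hg, hga, hgb⟩ := line_through a b hab
    have k1 := dA g hg ⟨a, ha, hga⟩ ⟨b, hb, hgb⟩
    have k2 := dB g hg ⟨a, ha, hga⟩ ⟨b, hb, hgb⟩
    have c1 : 1 ≤ (A.filter (fun z => ev g z = 0)).card :=
      Finset.card_pos.2 ⟨a, Finset.mem_filter.2 ⟨ha, hga⟩⟩
    have c2 : 1 ≤ (B.filter (fun z => ev g z = 0)).card :=
      Finset.card_pos.2 ⟨b, Finset.mem_filter.2 ⟨hb, hgb⟩⟩
    obtain ⟨E, hE, hEc⟩ := (hall 1 le_rfl (by norm_num) (A.card + B.card + 1) A B hAB ⟨a, ha⟩ ⟨b, hb⟩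
      (Nat.lt_succ_self _) hyp1).1
    have hEC : E.card ≤ C.card := RD2_proved A B C E hbl hE
    omega

end VK
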