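import Pool.Agent.H53.VK.Stm2

set_option autoImplicit false

namespace VK

theorem fge_union_clean {A B : Finset Pt} {g : Fn} {n1 n2 : ℕ}
    (h1 : Fge (A.filter (fun z => 0 < ev g z)) (B.filter (fun z => 0 < ev g z)) n1)
    (h2 : Fge (A.filter (fun z => ev g z < 0)) (B.filter (fun z => ev g z < 0)) n2) :
    Fge A B (n1 + n2) := by
  classical
  have := CUT_proved A B _ _ _ _ g n1 n2 0 (Finset.filter_subset _ _) (Finset.filter_subset _ _)
    (Finset.filter_subset _ _) (Finset.filter_subset _ _) ?_ ?_ ?_ h1 h2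
  · exact this
  · intro z hz
    rcases Finset.mem_union.1 hz with h | h <;> exact (Finset.mem_filter.1 h).2.le
  · intro z hz
    rcases Finset.mem_union.1 hz with h | h <;> exact (Finset.mem_filter.1 h).2.le
  · intro E hE
    have hemp : (A.filter (fun z => ev g z < 0)).filter (fun z => ev g z = 0) = ∅ := by
      rw [Finset.filter_eq_empty_iff]
      intro z hz h0
      exact absurd h0 (Finset.mem_filter.1 hz).2.ne
    have h3 := hE.1
    rw [hemp, Finset.empty_product, Finset.subset_empty] at h3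
    rw [h3, Finset.card_empty]

theorem onLine_not {S : Finset Pt} (h : ¬ OnLine S) {e : Fn} (he : Nc e) : ∃ z ∈ S, ev e z ≠ 0 := by
  by_contra hcon
  push Not at hcon
  exact h ⟨e, he, hcon⟩

theorem n12_core (hSXO : SXO_stmt) (hSXR : SXR_stmt) (hSCL : SCL_stmt) (hBCL : BCL_stmt)
    (A B : Finset Pt) (hAB : Disjoint A B) (hc : A.card = B.card) (hnl : ¬ OnLine (A ∪ B))
    (ih : ∀ A' B' : Finset Pt, Disjoint A' B' → A'.card = B'.card → A'.card < A.card →
      ¬ OnLine (A' ∪ B') → Fge A' B' (A'.card + 1)) :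
    Fge A B (A.card + 2) ∨
    (Fge A B (A.card + 1) ∧ ∃ e1 e2 : Fn, Nc e1 ∧ Nc e2 ∧ ∀ z ∈ A ∪ B, ev e1 z = 0 ∨ ev e2 z = 0) := by
  classical
  have hne : (A ∪ B).Nonempty := by
    rw [Finset.nonempty_iff_ne_empty]
    intro h
    apply hnl
    refine ⟨⟨1, 0, 0⟩, Or.inl one_ne_zero, ?_⟩
    rw [h]; intro z hz; simp at hz
  have hAn : A.Nonempty := by
    rw [← Finset.card_pos]
    obtain ⟨z, hz⟩ := hne
    rcases Finset.mem_union.1 hz with h | h
    · exact Finset.card_pos.2 ⟨z, h⟩
    · rw [hc]; exact Finset.card_pos.2 ⟨z, h⟩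
  obtain ⟨O, hO1, hO2⟩ := hSXO (A ∪ B) hnl
  obtain ⟨g, hgO, hg0, hgc⟩ := hSXR A B O hAB hc hAn hO1
  obtain ⟨⟨zp, hzp, hzp'⟩, ⟨zn, hzn, hzn'⟩⟩ := hO2 g hgO hg0
  have hsplit : ∀ X : Finset Pt, X ⊆ A ∪ B → (X.filter (fun z => 0 < ev g z)).card +
      (X.filter (fun z => ev g z < 0)).card = X.card := by
    intro X hX
    rw [← Finset.card_filter_add_card_filter_not (s := X) (fun z => 0 < ev g z)]
    congr 2
    refine Finset.filter_congr ?_
    intro z hz
    constructor
    · intro h; exact not_lt.2 h.le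
    · intro h; exact lt_of_le_of_ne (not_lt.1 h) (hg0 z (hX hz))
  have sA := hsplit A Finset.subset_union_left
  have sB := hsplit B Finset.subset_union_right
  set Ap := A.filter (fun z => 0 < ev g z) with hAp
  set Bp := B.filter (fun z => 0 < ev g z) with hBp
  set An := A.filter (fun z => ev g z < 0) with hAnn
  set Bn := B.filter (fun z => ev g z < 0) with hBnn
  have k1 : 1 ≤ Ap.card := by
    rcases Finset.mem_union.1 hzp with h | h
    · exact Finset.card_pos.2 ⟨zp, Finset.mem_filter.2 ⟨h, hzp'⟩⟩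
    · rw [hgc]; exact Finset.card_pos.2 ⟨zp, Finset.mem_filter.2 ⟨h, hzp'⟩⟩
  have hnc : An.card = Bn.card := by omega
  have k2 : 1 ≤ An.card := by
    rcases Finset.mem_union.1 hzn with h | h
    · exact Finset.card_pos.2 ⟨zn, Finset.mem_filter.2 ⟨h, hzn'⟩⟩
    · rw [hnc]; exact Finset.card_pos.2 ⟨zn, Finset.mem_filter.2 ⟨h, hzn'⟩⟩
  have hmono := BAS_proved.1
  have dP : Disjoint Ap Bp := Finset.disjoint_of_subset_left (Finset.filter_subset _ _)
    (Finset.disjoint_of_subset_right (Finset.filter_subset _ _) hAB)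
  have dN : Disjoint An Bn := Finset.disjoint_of_subset_left (Finset.filter_subset _ _)
    (Finset.disjoint_of_subset_right (Finset.filter_subset _ _) hAB)
  by_cases L1 : OnLine (Ap ∪ Bp)
  · obtain ⟨e1, he1, hL1⟩ := L1
    by_cases L2 : OnLine (An ∪ Bn)
    · obtain ⟨e2, he2, hL2⟩ := L2
      right
      have m1 : ∀ z ∈ A ∪ B, 0 < ev g z → ev e1 z = 0 := by
        intro z hz h
        rcases Finset.mem_union.1 hz with h' | h'
        · exact hL1 z (Finset.mem_union_left _ (Finset.mem_filter.2 ⟨h', h⟩))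
        · exact hL1 z (Finset.mem_union_right _ (Finset.mem_filter.2 ⟨h', h⟩))
      have m2 : ∀ z ∈ A ∪ B, ev g z < 0 → ev e2 z = 0 := by
        intro z hz h
        rcases Finset.mem_union.1 hz with h' | h'
        · exact hL2 z (Finset.mem_union_left _ (Finset.mem_filter.2 ⟨h', h⟩))
        · exact hL2 z (Finset.mem_union_right _ (Finset.mem_filter.2 ⟨h', h⟩))
      refine ⟨?_, e1, e2, he1, he2, ?_⟩
      · have := hBCL A B g e1 e2 Ap.card An.card hAB he1 he2 hg0 rfl hgc.symm k1 rfl hnc.symm k2 m1 m2 hnl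
        rwa [sA] at this
      · intro z hz
        rcases lt_or_gt_of_ne (hg0 z hz) with h | h
        · exact Or.inr (m2 z hz h)
        · exact Or.inl (m1 z hz h)
    · left
      have hI := ih An Bn dN hnc (by omega) L2
      have m1 : ∀ z ∈ A ∪ B, 0 < ev g z → ev e1 z = 0 := by
        intro z hz h
        rcases Finset.mem_union.1 hz with h' | h'
        · exact hL1 z (Finset.mem_union_left _ (Finset.mem_filter.2 ⟨h', h⟩))
        · exact hL1 z (Finset.mem_union_right _ (Finset.mem_filter.2 ⟨h', h⟩))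
      obtain ⟨z, hz, hz0⟩ := onLine_not L2 he1
      have hex : ∃ z ∈ A ∪ B, ev g z < 0 ∧ ev e1 z ≠ 0 := by
        rcases Finset.mem_union.1 hz with h | h
        · exact ⟨z, Finset.mem_union_left _ (Finset.mem_filter.1 h).1, (Finset.mem_filter.1 h).2, hz0⟩
        · exact ⟨z, Finset.mem_union_right _ (Finset.mem_filter.1 h).1, (Finset.mem_filter.1 h).2, hz0⟩
      have := hSCL A B g e1 Ap.card (An.card + 1) hAB he1 hg0 rfl hgc.symm k1 m1 hex hI
      exact hmono A B _ _ (by omega) this
  · have hI1 := ih Ap Bp dP hgc (by omega) L1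
    left
    by_cases L2 : OnLine (An ∪ Bn)
    · obtain ⟨e2, he2, hL2⟩ := L2
      set g' : Fn := lin (-1) g 0 g 0 with hg'
      have hev : ∀ z, ev g' z = - ev g z := by
        intro z; rw [hg', ev_lin]; ring
      have fA : A.filter (fun z => 0 < ev g' z) = An := by
        rw [hAnn]
        refine Finset.filter_congr ?_
        intro z _; rw [hev]; constructor <;> intro h <;> linarith
      have fB : B.filter (fun z => 0 < ev g' z) = Bn := by
        rw [hBnn]
        refine Finset.filter_congr ?_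
        intro z _; rw [hev]; constructor <;> intro h <;> linarith
      have fA' : A.filter (fun z => ev g' z < 0) = Ap := by
        rw [hAp]
        refine Finset.filter_congr ?_
        intro z _; rw [hev]; constructor <;> intro h <;> linarith
      have fB' : B.filter (fun z => ev g' z < 0) = Bp := by
        rw [hBp]
        refine Finset.filter_congr ?_
        intro z _; rw [hev]; constructor <;> intro h <;> linarith
      have m1 : ∀ z ∈ A ∪ B, 0 < ev g' z → ev e2 z = 0 := by
        intro z hz h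
        rw [hev] at h
        rcases Finset.mem_union.1 hz with h' | h'
        · exact hL2 z (Finset.mem_union_left _ (Finset.mem_filter.2 ⟨h', by linarith⟩))
        · exact hL2 z (Finset.mem_union_right _ (Finset.mem_filter.2 ⟨h', by linarith⟩))
      obtain ⟨z, hz, hz0⟩ := onLine_not L1 he2
      have hex : ∃ z ∈ A ∪ B, ev g' z < 0 ∧ ev e2 z ≠ 0 := by
        rcases Finset.mem_union.1 hz with h | h
        · exact ⟨z, Finset.mem_union_left _ (Finset.mem_filter.1 h).1,
            by rw [hev]; have := (Finset.mem_filter.1 h).2; linarith, hz0⟩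
        · exact ⟨z, Finset.mem_union_right _ (Finset.mem_filter.1 h).1,
            by rw [hev]; have := (Finset.mem_filter.1 h).2; linarith, hz0⟩
      have := hSCL A B g' e2 An.card (Ap.card + 1) hAB he2
        (fun z hz => by rw [hev]; exact neg_ne_zero.2 (hg0 z hz)) (by rw [fA]) (by rw [fB, hnc]) k2 m1 hex
        (by rw [fA', fB']; exact hI1)
      exact hmono A B _ _ (by omega) this
    · have hI2 := ih An Bn dN hnc (by omega) L2
      have := fge_union_clean (A := A) (B := B) (g := g) hI1 hI2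
      exact hmono A B _ _ (by omega) this

theorem N1_aux (hSXO : SXO_stmt) (hSXR : SXR_stmt) (hSCL : SCL_stmt) (hBCL : BCL_stmt) (n : ℕ) :
    ∀ (A B : Finset Pt), A.card < n → Disjoint A B → A.card = B.card → ¬ OnLine (A ∪ B) →
      Fge A B (A.card + 1) := by
  induction n with
  | zero => intro A B h; exact absurd h (Nat.not_lt_zero _)
  | succ n ihn =>
    intro A B hn hAB hc hnl
    rcases n12_core hSXO hSXR hSCL hBCL A B hAB hc hnl
      (fun A' B' d c lt nl => ihn A' B' (by omega) d c nl) with h | h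
    · exact BAS_proved.1 A B _ _ (by omega) h
    · exact h.1

theorem N12_proved (hSXO : SXO_stmt) (hSXR : SXR_stmt) (hSCL : SCL_stmt) (hBCL : BCL_stmt) :
    N12_stmt := by
  intro A B hAB hc hnl
  have h1 := N1_aux hSXO hSXR hSCL hBCL
  refine ⟨h1 (A.card + 1) A B (Nat.lt_succ_self _) hAB hc hnl, ?_⟩
  intro hcov
  rcases n12_core hSXO hSXR hSCL hBCL A B hAB hc hnl
      (fun A' B' d c lt nl => h1 (A'.card + 1) A' B' (Nat.lt_succ_self _) d c nl) with h | h
  · exact h
  · exact absurd h.2 hcov

end VK
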