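import Pool.Agent.H53.VK.FIN
import Pool.Agent.H53.VK.N12

set_option autoImplicit false

namespace VK

/-- the part of `FIN_main` after the reduction: at most two thick lines -/
theorem few_thick (hall : ∀ M : ℕ, 1 ≤ M → M ≤ 2 → ∀ k, IH M k) (A B C : Finset Pt) (d : ℕ)
    (hAn : A.Nonempty) (hBn : B.Nonempty) (hAB : Disjoint A B) (hbl : Blocked A B C)
    (dA : ∀ g : Fn, Nc g → (∃ a ∈ A, ev g a = 0) → (∃ b ∈ B, ev g b = 0) →
      d + (A.filter (fun z => ev g z = 0)).card ≤ C.card + A.card)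
    (dB : ∀ g : Fn, Nc g → (∃ a ∈ A, ev g a = 0) → (∃ b ∈ B, ev g b = 0) →
      d + (B.filter (fun z => ev g z = 0)).card ≤ C.card + B.card)
    (hthree : ∀ g₁ g₂ g₃ : Fn, Thk A B g₁ → Thk A B g₂ → Thk A B g₃ →
      Same A B g₁ g₂ ∨ Same A B g₁ g₃ ∨ Same A B g₂ g₃) (hC : 3 * C.card < 2 * d + 1) : False := by
  classical
  have hne : ∀ (X : Finset Pt) (g : Fn), 1 ≤ (X.filter (fun z => ev g z = 0)).card →
      ∃ a ∈ X, ev g a = 0 := by
    intro X g h
    obtain ⟨a, ha⟩ := Finset.card_pos.1 h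
    exact ⟨a, (Finset.mem_filter.1 ha).1, (Finset.mem_filter.1 ha).2⟩
  have hfinish : ∀ A' B' : Finset Pt, A' ⊆ A → B' ⊆ B → Hyp 2 A' B' →
      d + 2 ≤ C.card + A'.card → d + 2 ≤ C.card + B'.card → False := by
    intro A' B' hA' hB' hyp k1 k2
    by_cases hAe : A'.Nonempty
    · by_cases hBe : B'.Nonempty
      · obtain ⟨E, hE, hEc⟩ := (hall 2 (by norm_num) le_rfl (A'.card + B'.card + 1) A' B'
          (Finset.disjoint_of_subset_left hA' (Finset.disjoint_of_subset_right hB' hAB)) hAe hBe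
          (Nat.lt_succ_self _) hyp).1
        have hbl' : Blocked A' B' C := fun a ha b hb => hbl a (hA' ha) b (hB' hb)
        have hEC : E.card ≤ C.card := RD2_proved A' B' C E hbl' hE
        omega
      · rw [Finset.not_nonempty_iff_eq_empty] at hBe
        rw [hBe, Finset.card_empty] at k2
        omega
    · rw [Finset.not_nonempty_iff_eq_empty] at hAe
      rw [hAe, Finset.card_empty] at k1
      omega
  by_cases hthick : ∃ g : Fn, Nc g ∧ 2 ≤ (A.filter (fun z => ev g z = 0)).card ∧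
      2 ≤ (B.filter (fun z => ev g z = 0)).card
  · by_cases hT : ∃ g : Fn, Thk A B g
    · obtain ⟨g₁, hg₁⟩ := hT
      obtain ⟨g₂, hg₂, hcov⟩ : ∃ g₂ : Fn, Thk A B g₂ ∧
          ∀ g, Thk A B g → Same A B g g₁ ∨ Same A B g g₂ := by
        by_cases h : ∃ g₂ : Fn, Thk A B g₂ ∧ ¬ Same A B g₁ g₂
        · obtain ⟨g₂, h1, h2⟩ := h
          refine ⟨g₂, h1, ?_⟩
          intro g hg
          rcases hthree g₁ g₂ g hg₁ h1 hg with h3 | h3 | h3
          · exact absurd h3 h2
          · left; exact fun z hz => (h3 z hz).symm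
          · right; exact fun z hz => (h3 z hz).symm
        · push Not at h
          refine ⟨g₁, hg₁, ?_⟩
          intro g hg
          left; exact fun z hz => (h g hg z hz).symm
      obtain ⟨A', hA', hA2, hAc⟩ := thin_out A g₁ (by have := hg₁.2.1; omega)
      obtain ⟨B', hB', hB2, hBc⟩ := thin_out B g₂ (by have := hg₂.2.2; omega)
      refine hfinish A' B' hA' hB' ?_ ?_ ?_
      · intro g hg
        by_cases hgt : Thk A B g
        · rcases hcov g hgt with h | h
          · left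
            rw [filter_same hA' (fun z hz => h z (Finset.mem_union_left _ hz))]
            exact hA2
          · right
            rw [filter_same hB' (fun z hz => h z (Finset.mem_union_right _ hz))]
            exact hB2
        · have hAle := Finset.card_le_card (Finset.filter_subset_filter (fun z => ev g z = 0) hA')
          have hBle := Finset.card_le_card (Finset.filter_subset_filter (fun z => ev g z = 0) hB')
          by_contra hcon'
          push Not at hcon'
          exact hgt ⟨hg, by omega, by omega⟩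
      · have := dA g₁ hg₁.1 (hne A g₁ (by have := hg₁.2.1; omega)) (hne B g₁ (by have := hg₁.2.2; omega))
        omega
      · have := dB g₂ hg₂.1 (hne A g₂ (by have := hg₂.2.1; omega)) (hne B g₂ (by have := hg₂.2.2; omega))
        omega
    · obtain ⟨g, hg, h2A, h2B⟩ := hthick
      have k1 := dA g hg (hne A g (by omega)) (hne B g (by omega))
      have k2 := dB g hg (hne A g (by omega)) (hne B g (by omega))
      refine hfinish A B (Finset.Subset.refl _) (Finset.Subset.refl _) ?_ (by omega) (by omega)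
      intro g' hg'
      by_contra hcon'
      push Not at hcon'
      exact hT ⟨g', hg', by omega, by omega⟩
  · have hyp1 : Hyp 1 A B := by
      intro g hg
      by_contra hcon'
      push Not at hcon'
      exact hthick ⟨g, hg, hcon'.1, hcon'.2⟩
    obtain ⟨a, ha⟩ := hAn
    obtain ⟨b, hb⟩ := hBn
    have hab : a ≠ b := by
      rintro rfl
      exact Finset.disjoint_left.1 hAB ha hb
    obtain ⟨g, hg, hga, hgb⟩ := line_through a b hab
    have k1 := dA g hg ⟨a, ha, hga⟩ ⟨b, hb, hgb⟩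
    have k2 := dB g hg ⟨a, ha, hga⟩ ⟨b, hb, hgb⟩
    have c1 : 1 ≤ (A.filter (fun z => ev g z = 0)).card :=
      Finset.card_pos.2 ⟨a, Finset.mem_filter.2 ⟨ha, hga⟩⟩
    have c2 : 1 ≤ (B.filter (fun z => ev g z = 0)).card :=
      Finset.card_pos.2 ⟨b, Finset.mem_filter.2 ⟨hb, hgb⟩⟩
    obtain ⟨E, hE, hEc⟩ := (hall 1 le_rfl (by norm_num) (A.card + B.card + 1) A B hAB ⟨a, ha⟩ ⟨b, hb⟩
      (Nat.lt_succ_self _) hyp1).1
    have hEC : E.card ≤ C.card := RD2_proved A B C E hbl hE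
    omega

theorem two_pts {g e : Fn} (hg : Nc g) (he : Nc e) {p q : Pt} (hpq : p ≠ q) (h1 : ev g p = 0)
    (h2 : ev g q = 0) (h3 : ev e p = 0) (h4 : ev e q = 0) (z : Pt) : ev g z = 0 ↔ ev e z = 0 := by
  constructor
  · intro h
    have hcol := collinear_line g hg ({p, q, z} : Set Pt) (by
      intro y hy
      simp only [Set.mem_insert_iff, Set.mem_singleton_iff] at hy
      rcases hy with rfl | rfl | rfl <;> assumption)
    exact line_of_two hcol (by simp) (by simp) hpq h3 h4 z (by simp)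
  · intro h
    have hcol := collinear_line e he ({p, q, z} : Set Pt) (by
      intro y hy
      simp only [Set.mem_insert_iff, Set.mem_singleton_iff] at hy
      rcases hy with rfl | rfl | rfl <;> assumption)
    exact line_of_two hcol (by simp) (by simp) hpq h1 h2 z (by simp)

/-- three points of a line covered by two lines: one of the two lines is this line -/
theorem three_cov {X : Finset Pt} {g e1 e2 : Fn} (hg : Nc g) (h1 : Nc e1) (h2 : Nc e2)
    (hX : 3 ≤ (X.filter (fun z => ev g z = 0)).card) (hcov : ∀ z ∈ X, ev e1 z = 0 ∨ ev e2 z = 0) :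
    (∀ z, ev g z = 0 ↔ ev e1 z = 0) ∨ (∀ z, ev g z = 0 ↔ ev e2 z = 0) := by
  classical
  set Y := X.filter (fun z => ev g z = 0) with hY
  have hc := Finset.card_filter_add_card_filter_not (s := Y) (fun z => ev e1 z = 0)
  by_cases h : 1 < (Y.filter (fun z => ev e1 z = 0)).card
  · left
    obtain ⟨p, hp, q, hq, hpq⟩ := Finset.one_lt_card.1 h
    have hp' := Finset.mem_filter.1 hp
    have hq' := Finset.mem_filter.1 hq
    exact two_pts hg h1 hpq (Finset.mem_filter.1 hp'.1).2 (Finset.mem_filter.1 hq'.1).2 hp'.2 hq'.2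
  · right
    have h' : 1 < (Y.filter (fun z => ¬ ev e1 z = 0)).card := by omega
    obtain ⟨p, hp, q, hq, hpq⟩ := Finset.one_lt_card.1 h'
    have hp' := Finset.mem_filter.1 hp
    have hq' := Finset.mem_filter.1 hq
    have ep : ev e2 p = 0 := by
      rcases hcov p (Finset.mem_filter.1 hp'.1).1 with h | h
      · exact absurd h hp'.2
      · exact h
    have eq : ev e2 q = 0 := by
      rcases hcov q (Finset.mem_filter.1 hq'.1).1 with h | h
      · exact absurd h hq'.2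
      · exact h
    exact two_pts hg h2 hpq (Finset.mem_filter.1 hp'.1).2 (Finset.mem_filter.1 hq'.1).2 ep eq

theorem not_two_lines {X A B : Finset Pt} {g₁ g₂ g₃ : Fn} (h1 : Nc g₁) (h2 : Nc g₂) (h3 : Nc g₃)
    (k1 : 3 ≤ (X.filter (fun z => ev g₁ z = 0)).card) (k2 : 3 ≤ (X.filter (fun z => ev g₂ z = 0)).card)
    (k3 : 3 ≤ (X.filter (fun z => ev g₃ z = 0)).card)
    (s12 : ¬ Same A B g₁ g₂) (s13 : ¬ Same A B g₁ g₃) (s23 : ¬ Same A B g₂ g₃) :
    ¬ ∃ e1 e2 : Fn, Nc e1 ∧ Nc e2 ∧ ∀ z ∈ X, ev e1 z = 0 ∨ ev e2 z = 0 := by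
  rintro ⟨e1, e2, he1, he2, hcov⟩
  have c1 := three_cov h1 he1 he2 k1 hcov
  have c2 := three_cov h2 he1 he2 k2 hcov
  have c3 := three_cov h3 he1 he2 k3 hcov
  rcases c1 with c1 | c1 <;> rcases c2 with c2 | c2 <;> rcases c3 with c3 | c3
  · exact s12 (fun z _ => (c1 z).trans (c2 z).symm)
  · exact s12 (fun z _ => (c1 z).trans (c2 z).symm)
  · exact s13 (fun z _ => (c1 z).trans (c3 z).symm)
  · exact s23 (fun z _ => (c2 z).trans (c3 z).symm)
  · exact s23 (fun z _ => (c2 z).trans (c3 z).symm)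
  · exact s13 (fun z _ => (c1 z).trans (c3 z).symm)
  · exact s12 (fun z _ => (c1 z).trans (c2 z).symm)
  · exact s12 (fun z _ => (c1 z).trans (c2 z).symm)

theorem fge_min_two (hN : N12_stmt) (A B : Finset Pt) (hAB : Disjoint A B)
    (hA : ¬ ∃ e1 e2 : Fn, Nc e1 ∧ Nc e2 ∧ ∀ z ∈ A, ev e1 z = 0 ∨ ev e2 z = 0)
    (hB : ¬ ∃ e1 e2 : Fn, Nc e1 ∧ Nc e2 ∧ ∀ z ∈ B, ev e1 z = 0 ∨ ev e2 z = 0) :
    Fge A B (min A.card B.card + 2) := by
  classical
  rcases le_total A.card B.card with h | h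
  · obtain ⟨B', hB', hc⟩ := Finset.exists_subset_card_eq h
    have hcov : ¬ ∃ e1 e2 : Fn, Nc e1 ∧ Nc e2 ∧ ∀ z ∈ A ∪ B', ev e1 z = 0 ∨ ev e2 z = 0 := by
      rintro ⟨e1, e2, h1, h2, h3⟩
      exact hA ⟨e1, e2, h1, h2, fun z hz => h3 z (Finset.mem_union_left _ hz)⟩
    have hnl : ¬ OnLine (A ∪ B') := by
      rintro ⟨e, he, h3⟩
      exact hcov ⟨e, e, he, he, fun z hz => Or.inl (h3 z hz)⟩
    have := (hN A B' (Finset.disjoint_of_subset_right hB' hAB) hc.symm hnl).2 hcov
    rw [min_eq_left h]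
    exact BAS_proved.2.1 A A B' B _ (Finset.Subset.refl _) hB' this
  · obtain ⟨A', hA', hc⟩ := Finset.exists_subset_card_eq h
    have hcov : ¬ ∃ e1 e2 : Fn, Nc e1 ∧ Nc e2 ∧ ∀ z ∈ A' ∪ B, ev e1 z = 0 ∨ ev e2 z = 0 := by
      rintro ⟨e1, e2, h1, h2, h3⟩
      exact hB ⟨e1, e2, h1, h2, fun z hz => h3 z (Finset.mem_union_right _ hz)⟩
    have hnl : ¬ OnLine (A' ∪ B) := by
      rintro ⟨e, he, h3⟩
      exact hcov ⟨e, e, he, he, fun z hz => Or.inl (h3 z hz)⟩
    have := (hN A' B (Finset.disjoint_of_subset_left hA' hAB) hc hnl).2 hcov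
    rw [min_eq_right h, ← hc]
    exact BAS_proved.2.1 A' A B B _ hA' (Finset.Subset.refl _) this

theorem FIN3_main (hall : ∀ M : ℕ, 1 ≤ M → M ≤ 2 → ∀ k, IH M k) (hRD1 : RD1_stmt) (hRD4 : RD4_stmt)
    (hN : N12_stmt) :
    ∀ (P : Finset (ℝ × ℝ)), 2 ≤ P.card →
      ∀ G : SimpleGraph (ℝ × ℝ),
        (∀ p q : ℝ × ℝ, G.Adj p q ↔
          (p ∈ P ∧ q ∈ P ∧ p ≠ q ∧ ∀ r ∈ P, r ∉ openSegment ℝ p q)) →
        ∀ d : ℕ, (∀ p ∈ P, d ≤ (G.neighborSet p).ncard) →
          (2 * d + 1 ≤ 3 * (P.card - 1) ∧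
            ∀ S : Finset (ℝ × ℝ), S ⊆ P → 3 * S.card < 2 * d + 1 → 2 * S.card < d + 5 →
              (G.induce ((P : Set (ℝ × ℝ)) \ (S : Set (ℝ × ℝ)))).Connected) := by
  intro P hP G hG d hd
  classical
  have hd1 : d ≤ P.card - 1 := by
    obtain ⟨p, hp⟩ : P.Nonempty := by rw [← Finset.card_pos]; omega
    refine (hd p hp).trans ?_
    rw [← Finset.card_erase_of_mem hp, ← Set.ncard_coe_finset]
    refine Set.ncard_le_ncard ?_ (Finset.finite_toSet _)
    intro q hq
    rw [SimpleGraph.mem_neighborSet, hG] at hq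
    exact Finset.mem_coe.2 (Finset.mem_erase.2 ⟨hq.2.2.1.symm, hq.2.1⟩)
  refine ⟨by omega, ?_⟩
  intro C hCP hC hC2
  by_contra hcon
  obtain ⟨A, B, hAn, hBn, hAB, hAC, hBC, hU, hbl⟩ := hRD1 P G hG C hCP (by omega) hcon
  have hAP : A ⊆ P := by
    rw [← hU]; exact Finset.subset_union_left.trans Finset.subset_union_left
  have hBP : B ⊆ P := by
    rw [← hU]; exact Finset.subset_union_right.trans Finset.subset_union_left
  have hnb : ∀ v ∈ P, (G.neighborSet v) = {p : Pt | p ∈ P ∧ p ≠ v ∧ ∀ r ∈ P, r ∉ openSegment ℝ v p} := by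
    intro v hv
    ext p
    rw [SimpleGraph.mem_neighborSet, hG]
    constructor
    · rintro ⟨_, h2, h3, h4⟩; exact ⟨h2, h3.symm, h4⟩
    · rintro ⟨h2, h3, h4⟩; exact ⟨hv, h2, h3.symm, h4⟩
  have hU' : B ∪ A ∪ C = P := by rw [Finset.union_comm B A]; exact hU
  have dA : ∀ g : Fn, Nc g → (∃ a ∈ A, ev g a = 0) → (∃ b ∈ B, ev g b = 0) →
      d + (A.filter (fun z => ev g z = 0)).card ≤ C.card + A.card := by
    intro g hg ha hb
    refine hRD4 A B C g d hg hAB hbl ha hb ?_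
    intro v hv
    rw [hU]
    have := hd v (hAP hv)
    rwa [hnb v (hAP hv)] at this
  have dB : ∀ g : Fn, Nc g → (∃ a ∈ A, ev g a = 0) → (∃ b ∈ B, ev g b = 0) →
      d + (B.filter (fun z => ev g z = 0)).card ≤ C.card + B.card := by
    intro g hg ha hb
    refine hRD4 B A C g d hg hAB.symm (blocked_swap hbl) hb ha ?_
    intro v hv
    rw [hU']
    have := hd v (hBP hv)
    rwa [hnb v (hBP hv)] at this
  by_cases hthree : ∀ g₁ g₂ g₃ : Fn, Thk A B g₁ → Thk A B g₂ → Thk A B g₃ →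
      Same A B g₁ g₂ ∨ Same A B g₁ g₃ ∨ Same A B g₂ g₃
  · exact few_thick hall A B C d hAn hBn hAB hbl dA dB hthree hC
  · push Not at hthree
    obtain ⟨g₁, g₂, g₃, t1, t2, t3, s12, s13, s23⟩ := hthree
    have nA := not_two_lines (X := A) (A := A) (B := B) t1.1 t2.1 t3.1 t1.2.1 t2.2.1 t3.2.1 s12 s13 s23
    have nB := not_two_lines (X := B) (A := A) (B := B) t1.1 t2.1 t3.1 t1.2.2 t2.2.2 t3.2.2 s12 s13 s23
    obtain ⟨E, hE, hEc⟩ := fge_min_two hN A B hAB nA nB
    have hEC : E.card ≤ C.card := RD2_proved A B C E hbl hE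
    have hne : ∀ (X : Finset Pt) (g : Fn), 1 ≤ (X.filter (fun z => ev g z = 0)).card →
        ∃ a ∈ X, ev g a = 0 := by
      intro X g h
      obtain ⟨a, ha⟩ := Finset.card_pos.1 h
      exact ⟨a, (Finset.mem_filter.1 ha).1, (Finset.mem_filter.1 ha).2⟩
    have k3A := t1.2.1
    have k3B := t1.2.2
    have k1 := dA g₁ t1.1 (hne A g₁ (by omega)) (hne B g₁ (by omega))
    have k2 := dB g₁ t1.1 (hne A g₁ (by omega)) (hne B g₁ (by omega))
    omega

end VK
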