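import Pool.Agent.H53.VK.FIN4

set_option autoImplicit false

namespace VK

theorem FIN5_main (hall : ∀ M : ℕ, 1 ≤ M → M ≤ 2 → ∀ k, IH M k) (hRD1 : RD1_stmt) (hRD4 : RD4_stmt)
    (hSXO : SXO_stmt) (hSXR : SXR_stmt) (hSCL : SCL_stmt) (hBCL : BCL_stmt) :
    ∀ (t : ℕ) (P : Finset (ℝ × ℝ)), 2 ≤ P.card →
      (∀ Q : Finset (ℝ × ℝ), Q ⊆ P → Collinear ℝ (Q : Set (ℝ × ℝ)) → Q.card ≤ 2 * t + 2) →
      ∀ G : SimpleGraph (ℝ × ℝ),
        (∀ p q : ℝ × ℝ, G.Adj p q ↔
          (p ∈ P ∧ q ∈ P ∧ p ≠ q ∧ ∀ r ∈ P, r ∉ openSegment ℝ p q)) →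
        ∀ d : ℕ, (∀ p ∈ P, d ≤ (G.neighborSet p).ncard) →
          (2 * d + 1 ≤ 3 * (P.card - 1) ∧
            ∀ S : Finset (ℝ × ℝ), S ⊆ P → 3 * S.card < 2 * d + 1 →
              (4 * t + 1) * S.card < (2 * t + 1) * (d + 3) →
              (G.induce ((P : Set (ℝ × ℝ)) \ (S : Set (ℝ × ℝ)))).Connected) := by
  intro t P hP hsix G hG d hd
  classical
  have hd1 : d ≤ P.card - 1 := by
    obtain ⟨p, hp⟩ : P.Nonempty := by rw [← Finset.card_pos]; omega
    refine (hd p hp).trans ?_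
    rw [← Finset.card_erase_of_mem hp, ← Set.ncard_coe_finset]
    refine Set.ncard_le_ncard ?_ (Finset.finite_toSet _)
    intro q hq
    rw [SimpleGraph.mem_neighborSet, hG] at hq
    exact Finset.mem_coe.2 (Finset.mem_erase.2 ⟨hq.2.2.1.symm, hq.2.1⟩)
  refine ⟨by omega, ?_⟩
  intro C hCP hC hC2
  by_contra hcon
  obtain ⟨A, B, hAn, hBn, hAB, hAC, hBC, hU, hbl⟩ := hRD1 P G hG C hCP (by omega) hcon
  have hAP : A ⊆ P := by
    rw [← hU]; exact Finset.subset_union_left.trans Finset.subset_union_left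
  have hBP : B ⊆ P := by
    rw [← hU]; exact Finset.subset_union_right.trans Finset.subset_union_left
  have hnb : ∀ v ∈ P, (G.neighborSet v) = {p : Pt | p ∈ P ∧ p ≠ v ∧ ∀ r ∈ P, r ∉ openSegment ℝ v p} := by
    intro v hv
    ext p
    rw [SimpleGraph.mem_neighborSet, hG]
    constructor
    · rintro ⟨_, h2, h3, h4⟩; exact ⟨h2, h3.symm, h4⟩
    · rintro ⟨h2, h3, h4⟩; exact ⟨hv, h2, h3.symm, h4⟩
  have hU' : B ∪ A ∪ C = P := by rw [Finset.union_comm B A]; exact hU
  have dA : ∀ g : Fn, Nc g → (∃ a ∈ A, ev g a = 0) → (∃ b ∈ B, ev g b = 0) →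
      d + (A.filter (fun z => ev g z = 0)).card ≤ C.card + A.card := by
    intro g hg ha hb
    refine hRD4 A B C g d hg hAB hbl ha hb ?_
    intro v hv
    rw [hU]
    have := hd v (hAP hv)
    rwa [hnb v (hAP hv)] at this
  have dB : ∀ g : Fn, Nc g → (∃ a ∈ A, ev g a = 0) → (∃ b ∈ B, ev g b = 0) →
      d + (B.filter (fun z => ev g z = 0)).card ≤ C.card + B.card := by
    intro g hg ha hb
    refine hRD4 B A C g d hg hAB.symm (blocked_swap hbl) hb ha ?_
    intro v hv
    rw [hU']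
    have := hd v (hBP hv)
    rwa [hnb v (hBP hv)] at this
  have hne : ∀ (X : Finset Pt) (g : Fn), 1 ≤ (X.filter (fun z => ev g z = 0)).card →
      ∃ a ∈ X, ev g a = 0 := by
    intro X g h
    obtain ⟨a, ha⟩ := Finset.card_pos.1 h
    exact ⟨a, (Finset.mem_filter.1 ha).1, (Finset.mem_filter.1 ha).2⟩
  have hfive : ∀ g : Fn, Nc g → (∃ a ∈ A, ev g a = 0) → (∃ b ∈ B, ev g b = 0) →
      (A.filter (fun z => ev g z = 0)).card + (B.filter (fun z => ev g z = 0)).card ≤ 2 * t + 1 := by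
    rintro g hg ⟨a, ha, ha0⟩ ⟨b, hb, hb0⟩
    obtain ⟨c, hc, hc'⟩ := hbl a ha b hb
    have hc0 : ev g c = 0 := by
      obtain ⟨x, y, _, _, _, h⟩ := ev_seg g hc'
      rw [h, ha0, hb0]; ring
    have hd1 : Disjoint (A.filter (fun z => ev g z = 0)) (B.filter (fun z => ev g z = 0)) :=
      Finset.disjoint_of_subset_left (Finset.filter_subset _ _)
        (Finset.disjoint_of_subset_right (Finset.filter_subset _ _) hAB)
    have hcn : c ∉ (A.filter (fun z => ev g z = 0)) ∪ (B.filter (fun z => ev g z = 0)) := by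
      intro h
      rcases Finset.mem_union.1 h with h | h
      · exact Finset.disjoint_left.1 hAC (Finset.mem_filter.1 h).1 hc
      · exact Finset.disjoint_left.1 hBC (Finset.mem_filter.1 h).1 hc
    have h6 := hsix (insert c ((A.filter (fun z => ev g z = 0)) ∪ (B.filter (fun z => ev g z = 0)))) ?_ ?_
    · rw [Finset.card_insert_of_notMem hcn, Finset.card_union_of_disjoint hd1] at h6
      omega
    · intro z hz
      rcases Finset.mem_insert.1 hz with rfl | hz
      · exact hCP hc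
      rcases Finset.mem_union.1 hz with h | h
      · exact hAP (Finset.mem_filter.1 h).1
      · exact hBP (Finset.mem_filter.1 h).1
    · refine collinear_line g hg _ ?_
      intro z hz
      rw [Finset.mem_coe] at hz
      rcases Finset.mem_insert.1 hz with rfl | hz
      · exact hc0
      rcases Finset.mem_union.1 hz with h | h
      · exact (Finset.mem_filter.1 h).2
      · exact (Finset.mem_filter.1 h).2
  have hypt : Hyp t A B := by
    intro g hg
    by_contra hcon'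
    push Not at hcon'
    have := hfive g hg (hne A g (by omega)) (hne B g (by omega))
    omega
  by_cases hthree : ∀ g₁ g₂ g₃ : Fn, Thk A B g₁ → Thk A B g₂ → Thk A B g₃ →
      Same A B g₁ g₂ ∨ Same A B g₁ g₃ ∨ Same A B g₂ g₃
  · exact few_thick hall A B C d hAn hBn hAB hbl dA dB hthree hC
  · push Not at hthree
    obtain ⟨g₁, g₂, g₃, t1, t2, t3, s12, s13, s23⟩ := hthree
    have nA := not_two_lines (X := A) (A := A) (B := B) t1.1 t2.1 t3.1 t1.2.1 t2.2.1 t3.2.1 s12 s13 s23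
    have nB := not_two_lines (X := B) (A := A) (B := B) t1.1 t2.1 t3.1 t1.2.2 t2.2.2 t3.2.2 s12 s13 s23
    have k3A := t1.2.1
    have k3B := t1.2.2
    have k1 := dA g₁ t1.1 (hne A g₁ (by omega)) (hne B g₁ (by omega))
    have k2 := dB g₁ t1.1 (hne A g₁ (by omega)) (hne B g₁ (by omega))
    obtain ⟨q, hq, hqN⟩ := NT_min hSXO hSXR hSCL hBCL t A B hAB hypt nA nB
    obtain ⟨E', hE', hEc'⟩ := hq
    have hEC' : E'.card ≤ C.card := RD2_proved A B C E' hbl hE'
    have hN : d + 3 ≤ C.card + min A.card B.card := by omega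
    have h2 : (2 * t + 1) * min A.card B.card ≤ 2 * t * C.card :=
      hqN.trans (Nat.mul_le_mul_left _ (hEc'.trans hEC'))
    have h3 : (2 * t + 1) * (d + 3) ≤ (2 * t + 1) * (C.card + min A.card B.card) :=
      Nat.mul_le_mul_left _ hN
    have h4 : (2 * t + 1) * (C.card + min A.card B.card) =
        (2 * t + 1) * C.card + (2 * t + 1) * min A.card B.card := by ring
    have h5 : (4 * t + 1) * C.card = (2 * t + 1) * C.card + 2 * t * C.card := by ring
    omega

end VK
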