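import Pool.Agent.H53.VK.FIN3

set_option autoImplicit false

namespace VK

theorem FIN6_main (hall : ∀ M : ℕ, 1 ≤ M → M ≤ 2 → ∀ k, IH M k) (hRD1 : RD1_stmt) (hRD4 : RD4_stmt) :
    ∀ (P : Finset (ℝ × ℝ)), 2 ≤ P.card → ∀ T : Finset (ℝ × ℝ), T ⊆ P →
      (∀ Q₁ Q₂ Q₃ : Finset (ℝ × ℝ), Q₁ ⊆ P → Q₂ ⊆ P → Q₃ ⊆ P →
        Collinear ℝ (Q₁ : Set (ℝ × ℝ)) → Collinear ℝ (Q₂ : Set (ℝ × ℝ)) →
        Collinear ℝ (Q₃ : Set (ℝ × ℝ)) → 7 ≤ Q₁.card → 7 ≤ Q₂.card → 7 ≤ Q₃.card →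
        6 ≤ (Q₁ \ T).card → 6 ≤ (Q₂ \ T).card → 6 ≤ (Q₃ \ T).card →
        Collinear ℝ ((Q₁ : Set (ℝ × ℝ)) ∪ Q₂) ∨ Collinear ℝ ((Q₁ : Set (ℝ × ℝ)) ∪ Q₃) ∨
        Collinear ℝ ((Q₂ : Set (ℝ × ℝ)) ∪ Q₃)) →
      ∀ G : SimpleGraph (ℝ × ℝ),
        (∀ p q : ℝ × ℝ, G.Adj p q ↔
          (p ∈ P ∧ q ∈ P ∧ p ≠ q ∧ ∀ r ∈ P, r ∉ openSegment ℝ p q)) →
        ∀ d : ℕ, (∀ p ∈ P, d ≤ (G.neighborSet p).ncard) →
          (2 * d + 1 ≤ 3 * (P.card - 1) ∧
            ∀ S : Finset (ℝ × ℝ), S ⊆ P → 3 * S.card + 2 * T.card < 2 * d + 1 →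
              (G.induce ((P : Set (ℝ × ℝ)) \ (S : Set (ℝ × ℝ)))).Connected) := by
  intro P hP T hTP hrich G hG d hd
  classical
  have hd1 : d ≤ P.card - 1 := by
    obtain ⟨p, hp⟩ : P.Nonempty := by rw [← Finset.card_pos]; omega
    refine (hd p hp).trans ?_
    rw [← Finset.card_erase_of_mem hp, ← Set.ncard_coe_finset]
    refine Set.ncard_le_ncard ?_ (Finset.finite_toSet _)
    intro q hq
    rw [SimpleGraph.mem_neighborSet, hG] at hq
    exact Finset.mem_coe.2 (Finset.mem_erase.2 ⟨hq.2.2.1.symm, hq.2.1⟩)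
  refine ⟨by omega, ?_⟩
  intro C hCP hC
  by_contra hcon
  obtain ⟨A, B, hAn, hBn, hAB, hAC, hBC, hU, hbl⟩ := hRD1 P G hG C hCP (by omega) hcon
  have hAP : A ⊆ P := by
    rw [← hU]; exact Finset.subset_union_left.trans Finset.subset_union_left
  have hBP : B ⊆ P := by
    rw [← hU]; exact Finset.subset_union_right.trans Finset.subset_union_left
  have hnb : ∀ v ∈ P, (G.neighborSet v) = {p : Pt | p ∈ P ∧ p ≠ v ∧ ∀ r ∈ P, r ∉ openSegment ℝ v p} := by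
    intro v hv
    ext p
    rw [SimpleGraph.mem_neighborSet, hG]
    constructor
    · rintro ⟨_, h2, h3, h4⟩; exact ⟨h2, h3.symm, h4⟩
    · rintro ⟨h2, h3, h4⟩; exact ⟨hv, h2, h3.symm, h4⟩
  have hU' : B ∪ A ∪ C = P := by rw [Finset.union_comm B A]; exact hU
  have dA : ∀ g : Fn, Nc g → (∃ a ∈ A, ev g a = 0) → (∃ b ∈ B, ev g b = 0) →
      d + (A.filter (fun z => ev g z = 0)).card ≤ C.card + A.card := by
    intro g hg ha hb
    refine hRD4 A B C g d hg hAB hbl ha hb ?_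
    intro v hv
    rw [hU]
    have := hd v (hAP hv)
    rwa [hnb v (hAP hv)] at this
  have dB : ∀ g : Fn, Nc g → (∃ a ∈ A, ev g a = 0) → (∃ b ∈ B, ev g b = 0) →
      d + (B.filter (fun z => ev g z = 0)).card ≤ C.card + B.card := by
    intro g hg ha hb
    refine hRD4 B A C g d hg hAB.symm (blocked_swap hbl) hb ha ?_
    intro v hv
    rw [hU']
    have := hd v (hBP hv)
    rwa [hnb v (hBP hv)] at this
  have hne : ∀ (X : Finset Pt) (g : Fn), 1 ≤ (X.filter (fun z => ev g z = 0)).card →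
      ∃ a ∈ X, ev g a = 0 := by
    intro X g h
    obtain ⟨a, ha⟩ := Finset.card_pos.1 h
    exact ⟨a, (Finset.mem_filter.1 ha).1, (Finset.mem_filter.1 ha).2⟩
  -- delete `T`
  set A0 := A \ T with hA0
  set B0 := B \ T with hB0
  have sA : A0 ⊆ A := Finset.sdiff_subset
  have sB : B0 ⊆ B := Finset.sdiff_subset
  have cA : A.card ≤ A0.card + T.card := by
    have := Finset.card_le_card_sdiff_add_card (s := A) (t := T)
    rw [hA0]; omega
  have cB : B.card ≤ B0.card + T.card := by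
    have := Finset.card_le_card_sdiff_add_card (s := B) (t := T)
    rw [hB0]; omega
  have hbl0 : Blocked A0 B0 C := fun a ha b hb => hbl a (sA ha) b (sB hb)
  have hAB0 : Disjoint A0 B0 := Finset.disjoint_of_subset_left sA (Finset.disjoint_of_subset_right sB hAB)
  have fA : ∀ g : Fn, (A0.filter (fun z => ev g z = 0)).card ≤ (A.filter (fun z => ev g z = 0)).card :=
    fun g => Finset.card_le_card (Finset.filter_subset_filter _ sA)
  have fB : ∀ g : Fn, (B0.filter (fun z => ev g z = 0)).card ≤ (B.filter (fun z => ev g z = 0)).card :=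
    fun g => Finset.card_le_card (Finset.filter_subset_filter _ sB)
  have hdT : T.card ≤ d := by omega
  -- one line through a point of `A` and a point of `B`
  obtain ⟨a, ha⟩ := hAn
  obtain ⟨b, hb⟩ := hBn
  have hab : a ≠ b := by
    rintro rfl
    exact Finset.disjoint_left.1 hAB ha hb
  obtain ⟨g, hg, hga, hgb⟩ := line_through a b hab
  have k1 := dA g hg ⟨a, ha, hga⟩ ⟨b, hb, hgb⟩
  have k2 := dB g hg ⟨a, ha, hga⟩ ⟨b, hb, hgb⟩
  have c1 : 1 ≤ (A.filter (fun z => ev g z = 0)).card :=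
    Finset.card_pos.2 ⟨a, Finset.mem_filter.2 ⟨ha, hga⟩⟩
  have c2 : 1 ≤ (B.filter (fun z => ev g z = 0)).card :=
    Finset.card_pos.2 ⟨b, Finset.mem_filter.2 ⟨hb, hgb⟩⟩
  have hA0n : A0.Nonempty := by rw [← Finset.card_pos]; omega
  have hB0n : B0.Nonempty := by rw [← Finset.card_pos]; omega
  -- a thick line carries a collinear set as in the hypothesis
  have hseven : ∀ g : Fn, Thk A0 B0 g → ∃ Q : Finset Pt, Q ⊆ P ∧ 7 ≤ Q.card ∧ 6 ≤ (Q \ T).card ∧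
      (∀ z ∈ Q, ev g z = 0) ∧ (A0.filter (fun z => ev g z = 0)) ⊆ Q ∧
      (B0.filter (fun z => ev g z = 0)) ⊆ Q := by
    rintro g ⟨hg, h3A, h3B⟩
    obtain ⟨a, ha, ha0⟩ := hne A0 g (by omega)
    obtain ⟨b, hb, hb0⟩ := hne B0 g (by omega)
    obtain ⟨c, hc, hc'⟩ := hbl0 a ha b hb
    have hc0 : ev g c = 0 := by
      obtain ⟨x, y, _, _, _, h⟩ := ev_seg g hc'
      rw [h, ha0, hb0]; ring
    have hd1 : Disjoint (A0.filter (fun z => ev g z = 0)) (B0.filter (fun z => ev g z = 0)) :=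
      Finset.disjoint_of_subset_left (Finset.filter_subset _ _)
        (Finset.disjoint_of_subset_right (Finset.filter_subset _ _) hAB0)
    have hcn : c ∉ (A0.filter (fun z => ev g z = 0)) ∪ (B0.filter (fun z => ev g z = 0)) := by
      intro h
      rcases Finset.mem_union.1 h with h | h
      · exact Finset.disjoint_left.1 hAC (sA (Finset.mem_filter.1 h).1) hc
      · exact Finset.disjoint_left.1 hBC (sB (Finset.mem_filter.1 h).1) hc
    have hcard : 6 ≤ ((A0.filter (fun z => ev g z = 0)) ∪ (B0.filter (fun z => ev g z = 0))).card := by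
      rw [Finset.card_union_of_disjoint hd1]; omega
    refine ⟨insert c ((A0.filter (fun z => ev g z = 0)) ∪ (B0.filter (fun z => ev g z = 0))), ?_, ?_, ?_,
      ?_, ?_, ?_⟩
    · intro z hz
      rcases Finset.mem_insert.1 hz with rfl | hz
      · exact hCP hc
      rcases Finset.mem_union.1 hz with h | h
      · exact hAP (sA (Finset.mem_filter.1 h).1)
      · exact hBP (sB (Finset.mem_filter.1 h).1)
    · rw [Finset.card_insert_of_notMem hcn]
      omega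
    · refine hcard.trans (Finset.card_le_card ?_)
      intro z hz
      refine Finset.mem_sdiff.2 ⟨Finset.mem_insert_of_mem hz, ?_⟩
      rcases Finset.mem_union.1 hz with h | h
      · exact (Finset.mem_sdiff.1 (Finset.mem_filter.1 h).1).2
      · exact (Finset.mem_sdiff.1 (Finset.mem_filter.1 h).1).2
    · intro z hz
      rcases Finset.mem_insert.1 hz with rfl | hz
      · exact hc0
      rcases Finset.mem_union.1 hz with h | h
      · exact (Finset.mem_filter.1 h).2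
      · exact (Finset.mem_filter.1 h).2
    · exact Finset.subset_union_left.trans (Finset.subset_insert _ _)
    · exact Finset.subset_union_right.trans (Finset.subset_insert _ _)
  have hsame : ∀ (g g' : Fn) (Q Q' : Finset Pt), 2 ≤ Q.card → 2 ≤ Q'.card →
      (∀ z ∈ Q, ev g z = 0) → (∀ z ∈ Q', ev g' z = 0) →
      (∀ X : Finset Pt, X ⊆ A0 ∪ B0 → X.filter (fun z => ev g z = 0) ⊆ Q) →
      (∀ X : Finset Pt, X ⊆ A0 ∪ B0 → X.filter (fun z => ev g' z = 0) ⊆ Q') →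
      Collinear ℝ ((Q : Set Pt) ∪ Q') → Same A0 B0 g g' := by
    intro g g' Q Q' hQ hQ' hg hg' hX hX' hcol z hz
    obtain ⟨a, ha, b, hb, hab⟩ := Finset.one_lt_card.1 hQ
    obtain ⟨a', ha', b', hb', hab'⟩ := Finset.one_lt_card.1 hQ'
    constructor
    · intro h0
      have hzQ : z ∈ Q := hX {z} (by simpa using hz) (Finset.mem_filter.2 ⟨Finset.mem_singleton_self z, h0⟩)
      exact line_of_two hcol (Or.inr ha') (Or.inr hb') hab' (hg' a' ha') (hg' b' hb') z (Or.inl hzQ)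
    · intro h0
      have hzQ : z ∈ Q' := hX' {z} (by simpa using hz) (Finset.mem_filter.2 ⟨Finset.mem_singleton_self z, h0⟩)
      exact line_of_two hcol (Or.inl ha) (Or.inl hb) hab (hg a ha) (hg b hb) z (Or.inr hzQ)
  have hfil : ∀ (g : Fn) (Q : Finset Pt), (A0.filter (fun z => ev g z = 0)) ⊆ Q →
      (B0.filter (fun z => ev g z = 0)) ⊆ Q → ∀ X : Finset Pt, X ⊆ A0 ∪ B0 →
      X.filter (fun z => ev g z = 0) ⊆ Q := by
    intro g Q h1 h2 X hX z hz
    obtain ⟨h3, h4⟩ := Finset.mem_filter.1 hz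
    rcases Finset.mem_union.1 (hX h3) with h | h
    · exact h1 (Finset.mem_filter.2 ⟨h, h4⟩)
    · exact h2 (Finset.mem_filter.2 ⟨h, h4⟩)
  have hthree : ∀ g₁ g₂ g₃ : Fn, Thk A0 B0 g₁ → Thk A0 B0 g₂ → Thk A0 B0 g₃ →
      Same A0 B0 g₁ g₂ ∨ Same A0 B0 g₁ g₃ ∨ Same A0 B0 g₂ g₃ := by
    intro g₁ g₂ g₃ h1 h2 h3
    obtain ⟨Q₁, a1, b1, x1, c1, d1, e1⟩ := hseven g₁ h1
    obtain ⟨Q₂, a2, b2, x2, c2, d2, e2⟩ := hseven g₂ h2
    obtain ⟨Q₃, a3, b3, x3, c3, d3, e3⟩ := hseven g₃ h3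
    have k1 := collinear_line g₁ h1.1 (Q₁ : Set Pt) (fun z hz => c1 z (Finset.mem_coe.1 hz))
    have k2 := collinear_line g₂ h2.1 (Q₂ : Set Pt) (fun z hz => c2 z (Finset.mem_coe.1 hz))
    have k3 := collinear_line g₃ h3.1 (Q₃ : Set Pt) (fun z hz => c3 z (Finset.mem_coe.1 hz))
    rcases hrich Q₁ Q₂ Q₃ a1 a2 a3 k1 k2 k3 b1 b2 b3 x1 x2 x3 with h | h | h
    · left
      exact hsame g₁ g₂ Q₁ Q₂ (by omega) (by omega) c1 c2 (hfil g₁ Q₁ d1 e1) (hfil g₂ Q₂ d2 e2) h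
    · right; left
      exact hsame g₁ g₃ Q₁ Q₃ (by omega) (by omega) c1 c3 (hfil g₁ Q₁ d1 e1) (hfil g₃ Q₃ d3 e3) h
    · right; right
      exact hsame g₂ g₃ Q₂ Q₃ (by omega) (by omega) c2 c3 (hfil g₂ Q₂ d2 e2) (hfil g₃ Q₃ d3 e3) h
  refine few_thick hall A0 B0 C (d - T.card) hA0n hB0n hAB0 hbl0 ?_ ?_ hthree (by omega)
  · rintro g hg ⟨a, ha, ha0⟩ ⟨b, hb, hb0⟩
    have := dA g hg ⟨a, sA ha, ha0⟩ ⟨b, sB hb, hb0⟩
    have := fA g
    omega
  · rintro g hg ⟨a, ha, ha0⟩ ⟨b, hb, hb0⟩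
    have := dB g hg ⟨a, sA ha, ha0⟩ ⟨b, sB hb, hb0⟩
    have := fB g
    omega

end VK
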