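import Pool.Agent.H53.VK.FIN3

set_option autoImplicit false

namespace VK

/-- one splitting step -/
theorem split_step (hSXO : SXO_stmt) (hSXR : SXR_stmt) (hSCL : SCL_stmt) (hBCL : BCL_stmt)
    (A B : Finset Pt) (hAB : Disjoint A B) (hc : A.card = B.card) (hnl : ¬ OnLine (A ∪ B)) :
    (∃ A1 B1 A2 B2 : Finset Pt, A1 ⊆ A ∧ B1 ⊆ B ∧ A2 ⊆ A ∧ B2 ⊆ B ∧ A1.card = B1.card ∧
      A2.card = B2.card ∧ A1.card + A2.card = A.card ∧ 1 ≤ A1.card ∧ 1 ≤ A2.card ∧
      ¬ OnLine (A1 ∪ B1) ∧ ¬ OnLine (A2 ∪ B2) ∧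
      ∀ n1 n2, Fge A1 B1 n1 → Fge A2 B2 n2 → Fge A B (n1 + n2)) ∨
    (∃ A1 B1 A2 B2 : Finset Pt, A1 ⊆ A ∧ B1 ⊆ B ∧ A2 ⊆ A ∧ B2 ⊆ B ∧ A1.card = B1.card ∧
      A2.card = B2.card ∧ A1.card + A2.card = A.card ∧ 1 ≤ A1.card ∧ 1 ≤ A2.card ∧
      OnLine (A1 ∪ B1) ∧ ¬ OnLine (A2 ∪ B2) ∧
      ∀ n2, Fge A2 B2 n2 → Fge A B (n2 + (A1.card + 1))) ∨
    (∃ A1 B1 A2 B2 : Finset Pt, A1 ⊆ A ∧ B1 ⊆ B ∧ A2 ⊆ A ∧ B2 ⊆ B ∧ A1.card = B1.card ∧
      A2.card = B2.card ∧ A1.card + A2.card = A.card ∧ 1 ≤ A1.card ∧ 1 ≤ A2.card ∧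
      OnLine (A1 ∪ B1) ∧ OnLine (A2 ∪ B2) ∧ Fge A B (A.card + 1)) := by
  classical
  have hne : (A ∪ B).Nonempty := by
    rw [Finset.nonempty_iff_ne_empty]
    intro h
    apply hnl
    refine ⟨⟨1, 0, 0⟩, Or.inl one_ne_zero, ?_⟩
    rw [h]; intro z hz; simp at hz
  have hAn : A.Nonempty := by
    rw [← Finset.card_pos]
    obtain ⟨z, hz⟩ := hne
    rcases Finset.mem_union.1 hz with h | h
    · exact Finset.card_pos.2 ⟨z, h⟩
    · rw [hc]; exact Finset.card_pos.2 ⟨z, h⟩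
  obtain ⟨O, hO1, hO2⟩ := hSXO (A ∪ B) hnl
  obtain ⟨g, hgO, hg0, hgc⟩ := hSXR A B O hAB hc hAn hO1
  obtain ⟨⟨zp, hzp, hzp'⟩, ⟨zn, hzn, hzn'⟩⟩ := hO2 g hgO hg0
  have hsplit : ∀ X : Finset Pt, X ⊆ A ∪ B → (X.filter (fun z => 0 < ev g z)).card +
      (X.filter (fun z => ev g z < 0)).card = X.card := by
    intro X hX
    rw [← Finset.card_filter_add_card_filter_not (s := X) (fun z => 0 < ev g z)]
    congr 2
    refine Finset.filter_congr ?_
    intro z hz
    constructor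
    · intro h; exact not_lt.2 h.le
    · intro h; exact lt_of_le_of_ne (not_lt.1 h) (hg0 z (hX hz))
  have sA := hsplit A Finset.subset_union_left
  have sB := hsplit B Finset.subset_union_right
  set Ap := A.filter (fun z => 0 < ev g z) with hAp
  set Bp := B.filter (fun z => 0 < ev g z) with hBp
  set An := A.filter (fun z => ev g z < 0) with hAnn
  set Bn := B.filter (fun z => ev g z < 0) with hBnn
  have k1 : 1 ≤ Ap.card := by
    rcases Finset.mem_union.1 hzp with h | h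
    · exact Finset.card_pos.2 ⟨zp, Finset.mem_filter.2 ⟨h, hzp'⟩⟩
    · rw [hgc]; exact Finset.card_pos.2 ⟨zp, Finset.mem_filter.2 ⟨h, hzp'⟩⟩
  have hnc : An.card = Bn.card := by omega
  have k2 : 1 ≤ An.card := by
    rcases Finset.mem_union.1 hzn with h | h
    · exact Finset.card_pos.2 ⟨zn, Finset.mem_filter.2 ⟨h, hzn'⟩⟩
    · rw [hnc]; exact Finset.card_pos.2 ⟨zn, Finset.mem_filter.2 ⟨h, hzn'⟩⟩
  have uA1 : Ap ⊆ A := Finset.filter_subset _ _
  have uB1 : Bp ⊆ B := Finset.filter_subset _ _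
  have uA2 : An ⊆ A := Finset.filter_subset _ _
  have uB2 : Bn ⊆ B := Finset.filter_subset _ _
  by_cases L1 : OnLine (Ap ∪ Bp)
  · by_cases L2 : OnLine (An ∪ Bn)
    · right; right
      refine ⟨Ap, Bp, An, Bn, uA1, uB1, uA2, uB2, hgc, hnc, sA, k1, k2, L1, L2, ?_⟩
      obtain ⟨e1, he1, hL1⟩ := L1
      obtain ⟨e2, he2, hL2⟩ := L2
      have m1 : ∀ z ∈ A ∪ B, 0 < ev g z → ev e1 z = 0 := by
        intro z hz h
        rcases Finset.mem_union.1 hz with h' | h'
        · exact hL1 z (Finset.mem_union_left _ (Finset.mem_filter.2 ⟨h', h⟩))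
        · exact hL1 z (Finset.mem_union_right _ (Finset.mem_filter.2 ⟨h', h⟩))
      have m2 : ∀ z ∈ A ∪ B, ev g z < 0 → ev e2 z = 0 := by
        intro z hz h
        rcases Finset.mem_union.1 hz with h' | h'
        · exact hL2 z (Finset.mem_union_left _ (Finset.mem_filter.2 ⟨h', h⟩))
        · exact hL2 z (Finset.mem_union_right _ (Finset.mem_filter.2 ⟨h', h⟩))
      have := hBCL A B g e1 e2 Ap.card An.card hAB he1 he2 hg0 rfl hgc.symm k1 rfl hnc.symm k2 m1 m2 hnl
      rwa [sA] at this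
    · right; left
      refine ⟨Ap, Bp, An, Bn, uA1, uB1, uA2, uB2, hgc, hnc, sA, k1, k2, L1, L2, ?_⟩
      obtain ⟨e1, he1, hL1⟩ := L1
      intro n2 hI
      have m1 : ∀ z ∈ A ∪ B, 0 < ev g z → ev e1 z = 0 := by
        intro z hz h
        rcases Finset.mem_union.1 hz with h' | h'
        · exact hL1 z (Finset.mem_union_left _ (Finset.mem_filter.2 ⟨h', h⟩))
        · exact hL1 z (Finset.mem_union_right _ (Finset.mem_filter.2 ⟨h', h⟩))
      obtain ⟨z, hz, hz0⟩ := onLine_not L2 he1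
      have hex : ∃ z ∈ A ∪ B, ev g z < 0 ∧ ev e1 z ≠ 0 := by
        rcases Finset.mem_union.1 hz with h | h
        · exact ⟨z, Finset.mem_union_left _ (Finset.mem_filter.1 h).1, (Finset.mem_filter.1 h).2, hz0⟩
        · exact ⟨z, Finset.mem_union_right _ (Finset.mem_filter.1 h).1, (Finset.mem_filter.1 h).2, hz0⟩
      exact hSCL A B g e1 Ap.card n2 hAB he1 hg0 rfl hgc.symm k1 m1 hex hI
  · by_cases L2 : OnLine (An ∪ Bn)
    · right; left
      refine ⟨An, Bn, Ap, Bp, uA2, uB2, uA1, uB1, hnc, hgc, by rw [add_comm]; exact sA, k2, k1, L2, L1, ?_⟩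
      obtain ⟨e2, he2, hL2⟩ := L2
      intro n2 hI
      set g' : Fn := lin (-1) g 0 g 0 with hg'
      have hev : ∀ z, ev g' z = - ev g z := by
        intro z; rw [hg', ev_lin]; ring
      have fA : A.filter (fun z => 0 < ev g' z) = An := by
        rw [hAnn]
        refine Finset.filter_congr ?_
        intro z _; rw [hev]; constructor <;> intro h <;> linarith
      have fB : B.filter (fun z => 0 < ev g' z) = Bn := by
        rw [hBnn]
        refine Finset.filter_congr ?_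
        intro z _; rw [hev]; constructor <;> intro h <;> linarith
      have fA' : A.filter (fun z => ev g' z < 0) = Ap := by
        rw [hAp]
        refine Finset.filter_congr ?_
        intro z _; rw [hev]; constructor <;> intro h <;> linarith
      have fB' : B.filter (fun z => ev g' z < 0) = Bp := by
        rw [hBp]
        refine Finset.filter_congr ?_
        intro z _; rw [hev]; constructor <;> intro h <;> linarith
      have m1 : ∀ z ∈ A ∪ B, 0 < ev g' z → ev e2 z = 0 := by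
        intro z hz h
        rw [hev] at h
        rcases Finset.mem_union.1 hz with h' | h'
        · exact hL2 z (Finset.mem_union_left _ (Finset.mem_filter.2 ⟨h', by linarith⟩))
        · exact hL2 z (Finset.mem_union_right _ (Finset.mem_filter.2 ⟨h', by linarith⟩))
      obtain ⟨z, hz, hz0⟩ := onLine_not L1 he2
      have hex : ∃ z ∈ A ∪ B, ev g' z < 0 ∧ ev e2 z ≠ 0 := by
        rcases Finset.mem_union.1 hz with h | h
        · exact ⟨z, Finset.mem_union_left _ (Finset.mem_filter.1 h).1,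
            by rw [hev]; have := (Finset.mem_filter.1 h).2; linarith, hz0⟩
        · exact ⟨z, Finset.mem_union_right _ (Finset.mem_filter.1 h).1,
            by rw [hev]; have := (Finset.mem_filter.1 h).2; linarith, hz0⟩
      exact hSCL A B g' e2 An.card n2 hAB he2
        (fun z hz => by rw [hev]; exact neg_ne_zero.2 (hg0 z hz)) (by rw [fA]) (by rw [fB, hnc]) k2 m1 hex
        (by rw [fA', fB']; exact hI)
    · left
      exact ⟨Ap, Bp, An, Bn, uA1, uB1, uA2, uB2, hgc, hnc, sA, k1, k2, L1, L2,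
        fun n1 n2 h1 h2 => fge_union_clean (A := A) (B := B) (g := g) h1 h2⟩

theorem onLine_small {t : ℕ} {A B A1 B1 : Finset Pt} (hyp : Hyp t A B) (hA : A1 ⊆ A) (hB : B1 ⊆ B)
    (hc : A1.card = B1.card) (hL : OnLine (A1 ∪ B1)) : A1.card ≤ t := by
  obtain ⟨e, he, h⟩ := hL
  rcases hyp e he with h1 | h1
  · refine (Finset.card_le_card ?_).trans h1
    intro z hz
    exact Finset.mem_filter.2 ⟨hA hz, h z (Finset.mem_union_left _ hz)⟩
  · rw [hc]
    refine (Finset.card_le_card ?_).trans h1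
    intro z hz
    exact Finset.mem_filter.2 ⟨hB hz, h z (Finset.mem_union_right _ hz)⟩

/-- thickness at most `t`: at least `(1 + 1/(2t)) N` segments -/
theorem NT_aux (hSXO : SXO_stmt) (hSXR : SXR_stmt) (hSCL : SCL_stmt) (hBCL : BCL_stmt) (t : ℕ) (n : ℕ) :
    ∀ (A B : Finset Pt), A.card < n → Disjoint A B → A.card = B.card → ¬ OnLine (A ∪ B) → Hyp t A B →
      ∃ q, Fge A B q ∧ (2 * t + 1) * A.card ≤ 2 * t * q := by
  induction n with
  | zero => intro A B h; exact absurd h (Nat.not_lt_zero _)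
  | succ n ihn =>
    intro A B hn hAB hc hnl hyp
    have hsub := BAS_proved.2.2.2.2.2.1
    rcases split_step hSXO hSXR hSCL hBCL A B hAB hc hnl with h | h | h
    · obtain ⟨A1, B1, A2, B2, a1, b1, a2, b2, c1, c2, c3, p1, p2, l1, l2, hf⟩ := h
      obtain ⟨q1, f1, g1⟩ := ihn A1 B1 (by omega)
        (Finset.disjoint_of_subset_left a1 (Finset.disjoint_of_subset_right b1 hAB)) c1 l1
        (hsub _ _ _ _ t a1 b1 hyp)
      obtain ⟨q2, f2, g2⟩ := ihn A2 B2 (by omega)
        (Finset.disjoint_of_subset_left a2 (Finset.disjoint_of_subset_right b2 hAB)) c2 l2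
        (hsub _ _ _ _ t a2 b2 hyp)
      refine ⟨q1 + q2, hf q1 q2 f1 f2, ?_⟩
      rw [← c3]
      calc (2 * t + 1) * (A1.card + A2.card) = (2 * t + 1) * A1.card + (2 * t + 1) * A2.card := by ring
        _ ≤ 2 * t * q1 + 2 * t * q2 := add_le_add g1 g2
        _ = 2 * t * (q1 + q2) := by ring
    · obtain ⟨A1, B1, A2, B2, a1, b1, a2, b2, c1, c2, c3, p1, p2, l1, l2, hf⟩ := h
      obtain ⟨q2, f2, g2⟩ := ihn A2 B2 (by omega)
        (Finset.disjoint_of_subset_left a2 (Finset.disjoint_of_subset_right b2 hAB)) c2 l2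
        (hsub _ _ _ _ t a2 b2 hyp)
      have hs := onLine_small hyp a1 b1 c1 l1
      refine ⟨q2 + (A1.card + 1), hf q2 f2, ?_⟩
      rw [← c3]
      calc (2 * t + 1) * (A1.card + A2.card) = (2 * t + 1) * A2.card + 2 * t * A1.card + A1.card := by ring
        _ ≤ 2 * t * q2 + 2 * t * A1.card + 2 * t := by
            have : A1.card ≤ 2 * t := by omega
            exact add_le_add (add_le_add g2 le_rfl) this
        _ = 2 * t * (q2 + (A1.card + 1)) := by ring
    · obtain ⟨A1, B1, A2, B2, a1, b1, a2, b2, c1, c2, c3, p1, p2, l1, l2, hf⟩ := h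
      have hs1 := onLine_small hyp a1 b1 c1 l1
      have hs2 := onLine_small hyp a2 b2 c2 l2
      refine ⟨A.card + 1, hf, ?_⟩
      calc (2 * t + 1) * A.card = 2 * t * A.card + A.card := by ring
        _ ≤ 2 * t * A.card + 2 * t := by
            have : A.card ≤ 2 * t := by omega
            omega
        _ = 2 * t * (A.card + 1) := by ring

/-- the same for unbalanced pairs neither of which is covered by two lines -/
theorem NT_min (hSXO : SXO_stmt) (hSXR : SXR_stmt) (hSCL : SCL_stmt) (hBCL : BCL_stmt) (t : ℕ)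
    (A B : Finset Pt) (hAB : Disjoint A B) (hyp : Hyp t A B)
    (hA : ¬ ∃ e1 e2 : Fn, Nc e1 ∧ Nc e2 ∧ ∀ z ∈ A, ev e1 z = 0 ∨ ev e2 z = 0)
    (hB : ¬ ∃ e1 e2 : Fn, Nc e1 ∧ Nc e2 ∧ ∀ z ∈ B, ev e1 z = 0 ∨ ev e2 z = 0) :
    ∃ q, Fge A B q ∧ (2 * t + 1) * min A.card B.card ≤ 2 * t * q := by
  classical
  have hsub := BAS_proved.2.2.2.2.2.1
  rcases le_total A.card B.card with h | h
  · obtain ⟨B', hB', hc⟩ := Finset.exists_subset_card_eq h
    have hnl : ¬ OnLine (A ∪ B') := by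
      rintro ⟨e, he, h3⟩
      exact hA ⟨e, e, he, he, fun z hz => Or.inl (h3 z (Finset.mem_union_left _ hz))⟩
    obtain ⟨q, f, g⟩ := NT_aux hSXO hSXR hSCL hBCL t (A.card + 1) A B' (Nat.lt_succ_self _)
      (Finset.disjoint_of_subset_right hB' hAB) hc.symm hnl
      (hsub _ _ _ _ t (Finset.Subset.refl _) hB' hyp)
    rw [min_eq_left h]
    exact ⟨q, BAS_proved.2.1 A A B' B _ (Finset.Subset.refl _) hB' f, g⟩
  · obtain ⟨A', hA', hc⟩ := Finset.exists_subset_card_eq h
    have hnl : ¬ OnLine (A' ∪ B) := by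
      rintro ⟨e, he, h3⟩
      exact hB ⟨e, e, he, he, fun z hz => Or.inl (h3 z (Finset.mem_union_right _ hz))⟩
    obtain ⟨q, f, g⟩ := NT_aux hSXO hSXR hSCL hBCL t (A'.card + 1) A' B (Nat.lt_succ_self _)
      (Finset.disjoint_of_subset_left hA' hAB) hc hnl
      (hsub _ _ _ _ t hA' (Finset.Subset.refl _) hyp)
    rw [min_eq_right h, ← hc]
    exact ⟨q, BAS_proved.2.1 A' A B B _ hA' (Finset.Subset.refl _) f, g⟩

end VK
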