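import Pool.Agent.H53.VK.RST

set_option autoImplicit false

namespace VK

theorem rst_end (hR : RST_stmt) (M : ℕ) (A B : Finset Pt) (hM1 : 1 ≤ M) (hM2 : M ≤ 2)
    (hAB : Disjoint A B) (hyp : Hyp M A B) (ih : IH M (A.card + B.card)) (hE : EndRun A B) :
    Fge A B (2 * min A.card B.card - M) := by
  rcases hE with ⟨t, h, v, x, hE⟩ | ⟨t, h, v, x, hE⟩
  · exact hR M A B t h v x hM1 hM2 hAB hyp ih hE
  · have := hR M B A t h v x hM1 hM2 hAB.symm (hyp_swap A B M hyp) (by rwa [add_comm]) hE
    rw [min_comm] at this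
    exact BAS_proved.2.2.1 B A _ this

/-- balanced case with a bicoloured supporting line on which `B` is the minority -/
theorem pst_core (hR : RST_stmt) (hPA1 : PA1_stmt) (hPA2 : PA2_stmt) (hRYI : RYI_stmt)
    (hGLM : GLM_stmt) (hD2L : D2L_stmt) (M : ℕ) (A B : Finset Pt) (hM1 : 1 ≤ M) (hM2 : M ≤ 2)
    (hAB : Disjoint A B) (hyp : Hyp M A B) (ih : IH M (A.card + B.card)) (heq : A.card = B.card)
    (hN : M + 1 ≤ A.card) (g : Fn) (hg : Nc g) (hs : ∀ z ∈ A ∪ B, 0 ≤ ev g z)
    (hb : ∃ b ∈ B, ev g b = 0)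
    (hmin : (B.filter (fun z => ev g z = 0)).card ≤ (A.filter (fun z => ev g z = 0)).card) :
    Fge A B (2 * A.card + 1 - 2 * M) := by
  classical
  have hmonoF := BAS_proved.1
  have hb1 : 1 ≤ (B.filter (fun z => ev g z = 0)).card := by
    obtain ⟨b, hb, hb0⟩ := hb
    exact Finset.card_pos.2 ⟨b, Finset.mem_filter.2 ⟨hb, hb0⟩⟩
  have hbM : (B.filter (fun z => ev g z = 0)).card ≤ M := by
    rcases hyp g hg with h | h
    · exact hmin.trans h
    · exact h
  have hEnd : EndRun A B → Fge A B (2 * A.card + 1 - 2 * M) := by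
    intro hE
    have := rst_end hR M A B hM1 hM2 hAB hyp ih hE
    exact hmonoF A B _ _ (by omega) this
  have hIS : (∃ t h w v x, IS A B t h w v x) → Fge A B (2 * A.card + 1 - 2 * M) := by
    rintro ⟨t, h, w, v, x, hI⟩
    have := hRYI M A B t h w v x hM1 hM2 hAB hyp ih heq hI
    exact hmonoF A B _ _ (by omega) this
  have hcase : (B.filter (fun z => ev g z = 0)).card = 1 ∨ (B.filter (fun z => ev g z = 0)).card = 2 := by
    omega
  rcases hcase with hc | hc
  · rcases hPA1 A B g hAB hg hs hc (by omega) with h1 | h1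
    · exact hEnd h1
    · exact hIS h1
  · have hM : M = 2 := by omega
    subst hM
    rcases hPA2 A B g hAB hg hs hc (by omega) with h1 | h1 | h1 | h1
    · exact hEnd h1
    · exact hIS h1
    · obtain ⟨t, h, y2, y1, x1, x2, hD⟩ := h1
      have hy : y2 ≠ y1 := by
        rintro rfl
        exact lt_irrefl _ hD.ord1
      have hx : x2 ≠ x1 := by
        rintro rfl
        exact lt_irrefl _ hD.ord3
      have hcA : ((A.erase x1).erase x2).card = A.card - 2 := by
        rw [Finset.card_erase_of_mem (Finset.mem_erase.2 ⟨hx, hD.hx2⟩),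
          Finset.card_erase_of_mem hD.hx1]
        omega
      have hcB : ((B.erase y1).erase y2).card = B.card - 2 := by
        rw [Finset.card_erase_of_mem (Finset.mem_erase.2 ⟨hy, hD.hy2⟩),
          Finset.card_erase_of_mem hD.hy1]
        omega
      have hAn : ((A.erase x1).erase x2).Nonempty := by rw [← Finset.card_pos]; omega
      have hBn : ((B.erase y1).erase y2).Nonempty := by rw [← Finset.card_pos]; omega
      have hsA : (A.erase x1).erase x2 ⊆ A := (Finset.erase_subset _ _).trans (Finset.erase_subset _ _)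
      have hsB : (B.erase y1).erase y2 ⊆ B := (Finset.erase_subset _ _).trans (Finset.erase_subset _ _)
      have hcol : ∃ z ∈ A ∪ B, 0 < ev h z := by
        by_contra hcon
        push Not at hcon
        have hall : ∀ z ∈ A ∪ B, ev h z = 0 := fun z hz => le_antisymm (hcon z hz) (hD.supp z hz)
        have hA : A.filter (fun z => ev h z = 0) = A :=
          Finset.filter_true_of_mem (fun z hz => hall z (Finset.mem_union_left _ hz))
        have hB : B.filter (fun z => ev h z = 0) = B :=
          Finset.filter_true_of_mem (fun z hz => hall z (Finset.mem_union_right _ hz))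
        have := hyp h (nc_of_det hD.fr)
        rw [hA, hB] at this
        omega
      have hd' : Disjoint ((A.erase x1).erase x2) ((B.erase y1).erase y2) :=
        Finset.disjoint_of_subset_left hsA (Finset.disjoint_of_subset_right hsB hAB)
      have hyp' : Hyp 2 ((A.erase x1).erase x2) ((B.erase y1).erase y2) :=
        BAS_proved.2.2.2.2.2.1 _ _ _ _ 2 hsA hsB hyp
      obtain ⟨p1, p2⟩ := ih _ _ hd' hAn hBn (by omega) hyp'
      rcases hGLM A B t h y2 y1 x1 x2 hAB hD hAn hBn hcol with k | ⟨k1, k2⟩ | k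
      · exact hmonoF A B _ _ (by omega) (k _ p1)
      · exact hmonoF A B _ _ (by omega) (k1 _ (p2 k2))
      · exact hEnd k
    · obtain ⟨t, h, w, y1, y2, x, hD⟩ := h1
      have := hD2L A B t h w y1 y2 x hAB hyp ih heq hD
      exact hmonoF A B _ _ (by omega) this

theorem PST_proved (hR : RST_stmt) (hPA1 : PA1_stmt) (hPA2 : PA2_stmt) (hRYI : RYI_stmt)
    (hGLM : GLM_stmt) (hD2L : D2L_stmt) (hMON : MON_stmt) : PST_stmt := by
  intro M A B hM1 hM2 hAB hAn hBn hyp ih
  classical
  have hmonoF := BAS_proved.1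
  have hone : Fge A B 1 := BAS_proved.2.2.2.1 A B hAn hBn
  by_cases hsm : min A.card B.card ≤ M
  · exact hmonoF A B _ _ (by omega) hone
  push Not at hsm
  rcases lt_trichotomy A.card B.card with hlt | heq | hgt
  · obtain ⟨z, hz⟩ := hBn
    have hc : (B.erase z).card = B.card - 1 := Finset.card_erase_of_mem hz
    have hBn' : (B.erase z).Nonempty := by rw [← Finset.card_pos]; omega
    obtain ⟨p1, p2⟩ := ih A (B.erase z)
      (Finset.disjoint_of_subset_right (Finset.erase_subset _ _) hAB) hAn hBn' (by omega)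
      (BAS_proved.2.2.2.2.2.1 _ _ _ _ M (Finset.Subset.refl _) (Finset.erase_subset _ _) hyp)
    have h4 := BAS_proved.2.1 A A (B.erase z) B _ (Finset.Subset.refl _) (Finset.erase_subset _ _) p1
    exact hmonoF A B _ _ (by omega) h4
  · by_cases hb : ∃ g, Nc g ∧ (∀ z ∈ A ∪ B, 0 ≤ ev g z) ∧ (∃ a ∈ A, ev g a = 0) ∧ (∃ b ∈ B, ev g b = 0)
    · obtain ⟨g, hg, hs, ha, hb⟩ := hb
      rcases le_total (B.filter (fun z => ev g z = 0)).card (A.filter (fun z => ev g z = 0)).card with h1 | h1
      · have := pst_core hR hPA1 hPA2 hRYI hGLM hD2L M A B hM1 hM2 hAB hyp ih heq (by omega) g hg hs hb h1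
        exact hmonoF A B _ _ (by omega) this
      · have := pst_core hR hPA1 hPA2 hRYI hGLM hD2L M B A hM1 hM2 hAB.symm (hyp_swap A B M hyp)
          (by rwa [add_comm]) heq.symm (by omega) g hg (by rwa [Finset.union_comm]) ha h1
        exact hmonoF A B _ _ (by omega) (BAS_proved.2.2.1 B A _ this)
    · have := hMON M A B hM1 hM2 hAB hAn heq hyp ih ?_
      · exact hmonoF A B _ _ (by omega) this
      · intro g hg hs
        by_contra hcon
        push Not at hcon
        exact hb ⟨g, hg, hs, hcon.1, hcon.2⟩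
  · obtain ⟨z, hz⟩ := hAn
    have hc : (A.erase z).card = A.card - 1 := Finset.card_erase_of_mem hz
    have hAn' : (A.erase z).Nonempty := by rw [← Finset.card_pos]; omega
    obtain ⟨p1, p2⟩ := ih (A.erase z) B
      (Finset.disjoint_of_subset_left (Finset.erase_subset _ _) hAB) hAn' hBn (by omega)
      (BAS_proved.2.2.2.2.2.1 _ _ _ _ M (Finset.erase_subset _ _) (Finset.Subset.refl _) hyp)
    have h4 := BAS_proved.2.1 (A.erase z) A B B _ (Finset.erase_subset _ _) (Finset.Subset.refl _) p1
    exact hmonoF A B _ _ (by omega) h4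

/-- final induction -/
theorem all_bounds (hR : RST_stmt) (hP : PST_stmt) (M : ℕ) (hM1 : 1 ≤ M) (hM2 : M ≤ 2) (k : ℕ) :
    IH M k := by
  induction k with
  | zero =>
    intro A B _ _ _ h
    exact absurd h (Nat.not_lt_zero _)
  | succ k ih =>
    intro A B hAB hAn hBn hk hyp
    rcases Nat.lt_succ_iff_lt_or_eq.1 hk with h | h
    · exact ih A B hAB hAn hBn h hyp
    · have ih' : IH M (A.card + B.card) := by rw [h]; exact ih
      exact ⟨hP M A B hM1 hM2 hAB hAn hBn hyp ih',
        fun hE => rst_end hR M A B hM1 hM2 hAB hyp ih' hE⟩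

end VK
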