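import Pool.Agent.H53.VK.SPL

set_option autoImplicit false

namespace VK

/-- the end point of an end run sees its neighbour over the rest -/
theorem vis_lemma {A B : Finset Pt} {t h : Fn} {v x : Pt} (hAB : Disjoint A B) (hER : ER A B t h v x) :
    ∃ F : Fn, (∀ z ∈ A ∪ B.erase v, 0 ≤ ev F z) ∧ ev F x = 0 ∧ ev F v < 0 := by
  classical
  have hmem : ∀ z ∈ A ∪ B.erase v, z ∈ A ∪ B ∧ z ≠ v := by
    intro z hz
    rcases Finset.mem_union.1 hz with h1 | h1
    · refine ⟨Finset.mem_union_left _ h1, ?_⟩
      rintro rfl
      exact (Finset.disjoint_left.1 hAB h1) hER.hv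
    · exact ⟨Finset.mem_union_right _ (Finset.mem_of_mem_erase h1), Finset.ne_of_mem_erase h1⟩
  have m2 : ∀ z ∈ A ∪ B.erase v, ev h z = 0 → 0 ≤ ev (lin 1 t 0 h (-ev t x)) z := by
    intro z hz hz0
    rw [ev_lin]
    rcases hER.rest z (hmem z hz).1 hz0 with h1 | h1 | h1
    · exact absurd h1 (hmem z hz).2
    · rw [h1]; linarith
    · linarith
  by_cases hex : ∃ z ∈ A ∪ B.erase v, 0 < ev h z
  · obtain ⟨ρ, hρ, -⟩ := MNR_proved (A ∪ B.erase v) h (lin 1 t 0 h (-ev t x))
      (fun z hz => hER.supp z (hmem z hz).1) m2 hex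
    refine ⟨lin 1 t (-ρ) h (-ev t x), ?_, ?_, ?_⟩
    · intro z hz
      have := hρ z hz
      rw [ev_lin] at this ⊢
      linarith
    · rw [ev_lin, hER.zx]; ring
    · rw [ev_lin, hER.zv]; have := hER.ord; linarith
  · push Not at hex
    refine ⟨lin 1 t 0 h (-ev t x), ?_, ?_, ?_⟩
    · intro z hz
      exact m2 z hz (le_antisymm (hex z hz) (hER.supp z (hmem z hz).1))
    · rw [ev_lin]; ring
    · rw [ev_lin]; have := hER.ord; linarith

/-- hull vertex with two visible neighbours -/
theorem hull_two {A B : Finset Pt} {t h t2 h2 : Fn} {v x w : Pt} (hAB : Disjoint A B)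
    (hER : ER A B t h v x) (hER2 : ER A B t2 h2 v w) (hxw : x ≠ w) (n : ℕ)
    (hn : Fge A (B.erase v) n) : Fge A B (n + 2) := by
  classical
  obtain ⟨F, hF0, hF1, hF2⟩ := vis_lemma hAB hER
  obtain ⟨F', hF0', hF1', hF2'⟩ := vis_lemma hAB hER2
  have := STR_proved A (B.erase v) {x, w} v n ?_ ?_ hn
  · rw [Finset.insert_erase hER.hv, Finset.card_pair hxw] at this
    exact this
  · intro z hz
    simp only [Finset.mem_insert, Finset.mem_singleton] at hz
    rcases hz with rfl | rfl
    · exact hER.hx
    · exact hER2.hx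
  · intro z hz
    simp only [Finset.mem_insert, Finset.mem_singleton] at hz
    rcases hz with rfl | rfl
    · exact ⟨F, hF0, hF1, hF2⟩
    · exact ⟨F', hF0', hF1', hF2'⟩

theorem er_sub {A B A' : Finset Pt} {t h : Fn} {v x : Pt} (hER : ER A B t h v x) (hA : A' ⊆ A)
    (hx : x ∈ A') : ER A' B t h v x := by
  refine ⟨hER.fr, hER.hv, hx, ?_, hER.zv, hER.zx, hER.ord, ?_⟩
  · intro z hz
    exact hER.supp z (Finset.union_subset_union hA (Finset.Subset.refl _) hz)
  · intro z hz
    exact hER.rest z (Finset.union_subset_union hA (Finset.Subset.refl _) hz)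

theorem RST_proved (hTLM : TLM_stmt) (hPTR : PTR_stmt) (hRYH : RYH_stmt) : RST_stmt := by
  intro M A B t h v x hM1 hM2 hAB hyp ih hER
  classical
  have hmonoF := BAS_proved.1
  have hone : Fge A B 1 := BAS_proved.2.2.2.1 A B ⟨x, hER.hx⟩ ⟨v, hER.hv⟩
  have hAe : (A.erase x).card = A.card - 1 := Finset.card_erase_of_mem hER.hx
  have hBe : (B.erase v).card = B.card - 1 := Finset.card_erase_of_mem hER.hv
  have hA1 : 1 ≤ A.card := Finset.card_pos.2 ⟨x, hER.hx⟩
  have hB1 : 1 ≤ B.card := Finset.card_pos.2 ⟨v, hER.hv⟩
  by_cases hcol : ∃ z ∈ A ∪ B, 0 < ev h z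
  · rcases lt_trichotomy A.card B.card with hlt | heq | hgt
    · -- majority B
      have := side_bound M (A.card + B.card) A B t h v x hM1 hM2 hAB hyp ih le_rfl hER hcol hlt
      exact hmonoF A B _ _ (by omega) this
    · -- equal
      by_cases hN : A.card = 1
      · exact hmonoF A B _ _ (by omega) hone
      have hAn : (A.erase x).Nonempty := by rw [← Finset.card_pos]; omega
      have hBn : (B.erase v).Nonempty := by rw [← Finset.card_pos]; omega
      have hd' : Disjoint (A.erase x) (B.erase v) :=
        Finset.disjoint_of_subset_left (Finset.erase_subset _ _)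
          (Finset.disjoint_of_subset_right (Finset.erase_subset _ _) hAB)
      have hyp' : Hyp M (A.erase x) (B.erase v) :=
        BAS_proved.2.2.2.2.2.1 _ _ _ _ M (Finset.erase_subset _ _) (Finset.erase_subset _ _) hyp
      obtain ⟨p1, p2⟩ := ih (A.erase x) (B.erase v) hd' hAn hBn (by omega) hyp'
      obtain ⟨hT1, hT2⟩ := hTLM A B t h v x hAB hER hAn hBn hcol
      -- (A, B.erase v)
      have hd2 : Disjoint A (B.erase v) :=
        Finset.disjoint_of_subset_right (Finset.erase_subset _ _) hAB
      have hyp2 : Hyp M A (B.erase v) :=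
        BAS_proved.2.2.2.2.2.1 _ _ _ _ M (Finset.Subset.refl _) (Finset.erase_subset _ _) hyp
      obtain ⟨q1, q2⟩ := ih A (B.erase v) hd2 ⟨x, hER.hx⟩ hBn (by omega) hyp2
      rcases hT2 with h3 | h3 | ⟨t2, g, w, hg, hgx⟩
      · exact hmonoF A B _ _ (by omega) (h3 _ p1)
      · exact hmonoF A B _ _ (by omega) (hT1 _ (p2 h3))
      · have hxw : x ≠ w := by
          rintro rfl
          rw [hg.zx] at hgx
          exact lt_irrefl _ hgx
        have hH := hull_two hAB hER hg hxw
        have hM : M = 1 ∨ M = 2 := by omega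
        rcases hM with rfl | rfl
        · exact hmonoF A B _ _ (by omega) (hH _ q1)
        · rcases hPTR A B t h v x hAB hyp hER with k1 | k1 | k1
          · exact hmonoF A B _ _ (by omega) (hH _ (q2 k1))
          · exact hmonoF A B _ _ (by omega) (hT1 _ (p2 k1))
          rcases hPTR A B t2 g v w hAB hyp hg with k2 | k2 | k2
          · exact hmonoF A B _ _ (by omega) (hH _ (q2 k2))
          · have hAe2 : (A.erase w).card = A.card - 1 := Finset.card_erase_of_mem hg.hx
            have hAn2 : (A.erase w).Nonempty := by rw [← Finset.card_pos]; omega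
            have hd3 : Disjoint (A.erase w) (B.erase v) :=
              Finset.disjoint_of_subset_left (Finset.erase_subset _ _)
                (Finset.disjoint_of_subset_right (Finset.erase_subset _ _) hAB)
            have hyp3 : Hyp 2 (A.erase w) (B.erase v) :=
              BAS_proved.2.2.2.2.2.1 _ _ _ _ 2 (Finset.erase_subset _ _) (Finset.erase_subset _ _) hyp
            obtain ⟨r1, r2⟩ := ih (A.erase w) (B.erase v) hd3 hAn2 hBn (by omega) hyp3
            obtain ⟨hS1, -⟩ := hTLM A B t2 g v w hAB hg hAn2 hBn
              ⟨x, Finset.mem_union_left _ hER.hx, hgx⟩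
            exact hmonoF A B _ _ (by omega) (hS1 _ (r2 k2))
          · have := hRYH 2 A B t h t2 g v x w (by norm_num) le_rfl hAB hyp ih heq hER hg hgx k1 k2
            exact hmonoF A B _ _ (by omega) this
    · -- majority A: delete an A point different from x
      have hAn : (A.erase x).Nonempty := by rw [← Finset.card_pos]; omega
      obtain ⟨z, hz⟩ := hAn
      have hzA := Finset.mem_of_mem_erase hz
      have hzx := Finset.ne_of_mem_erase hz
      have hx' : x ∈ A.erase z := Finset.mem_erase.2 ⟨hzx.symm, hER.hx⟩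
      have hc : (A.erase z).card = A.card - 1 := Finset.card_erase_of_mem hzA
      have hd' : Disjoint (A.erase z) B :=
        Finset.disjoint_of_subset_left (Finset.erase_subset _ _) hAB
      have hyp' : Hyp M (A.erase z) B :=
        BAS_proved.2.2.2.2.2.1 _ _ _ _ M (Finset.erase_subset _ _) (Finset.Subset.refl _) hyp
      obtain ⟨p1, p2⟩ := ih (A.erase z) B hd' ⟨x, hx'⟩ ⟨v, hER.hv⟩ (by omega) hyp'
      have h3 := p2 (Or.inl ⟨t, h, v, x, er_sub hER (Finset.erase_subset _ _) hx'⟩)
      have h4 := BAS_proved.2.1 (A.erase z) A B B _ (Finset.erase_subset _ _) (Finset.Subset.refl _) h3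
      exact hmonoF A B _ _ (by omega) h4
  · push Not at hcol
    have hall : ∀ z ∈ A ∪ B, ev h z = 0 := fun z hz => le_antisymm (hcol z hz) (hER.supp z hz)
    have hN : A.card ≤ M ∨ B.card ≤ M := by
      have hA : A.filter (fun z => ev h z = 0) = A :=
        Finset.filter_true_of_mem (fun z hz => hall z (Finset.mem_union_left _ hz))
      have hB : B.filter (fun z => ev h z = 0) = B :=
        Finset.filter_true_of_mem (fun z hz => hall z (Finset.mem_union_right _ hz))
      have := hyp h (nc_of_det hER.fr)
      rwa [hA, hB] at this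
    by_cases hsm : 2 * min A.card B.card - M ≤ 1
    · exact hmonoF A B _ _ hsm hone
    · have hA2 : 2 ≤ A.card := by omega
      have hB2 : 2 ≤ B.card := by omega
      have hAn : (A.erase x).Nonempty := by rw [← Finset.card_pos]; omega
      have hBn : (B.erase v).Nonempty := by rw [← Finset.card_pos]; omega
      have h1 := BAS_proved.2.2.2.1 (A.erase x) (B.erase v) hAn hBn
      have key := EXT_proved A B (A.erase x) (B.erase v) {(x, v)} 1 (Finset.erase_subset _ _)
        (Finset.erase_subset _ _) ?_ ?_ h1
      · rw [Finset.card_singleton] at key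
        exact hmonoF A B _ _ (by omega) key
      · refine ⟨?_, ?_⟩
        · intro e he
          rw [Finset.mem_singleton] at he
          subst he
          exact Finset.mem_product.2 ⟨hER.hx, hER.hv⟩
        · intro e he f hf hne
          rw [Finset.mem_singleton] at he hf
          exact absurd (he.trans hf.symm) hne
      · intro e he
        rw [Finset.mem_singleton] at he
        subst he
        refine ⟨lin 1 t 0 h (-ev t x), ?_, ?_, ?_, ?_⟩
        · intro z hz
          have hz' : z ∈ A ∪ B ∧ z ≠ v ∧ z ≠ x := by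
            rcases Finset.mem_union.1 hz with h5 | h5
            · refine ⟨Finset.mem_union_left _ (Finset.mem_of_mem_erase h5), ?_, Finset.ne_of_mem_erase h5⟩
              intro hzv
              exact (Finset.disjoint_left.1 hAB (Finset.mem_of_mem_erase h5)) (hzv ▸ hER.hv)
            · refine ⟨Finset.mem_union_right _ (Finset.mem_of_mem_erase h5), Finset.ne_of_mem_erase h5, ?_⟩
              intro hzx
              exact (Finset.disjoint_left.1 hAB (hzx ▸ hER.hx)) (Finset.mem_of_mem_erase h5)
          rcases hER.rest z hz'.1 (hall z hz'.1) with h2 | h2 | h2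
          · exact absurd h2 hz'.2.1
          · exact absurd h2 hz'.2.2
          · rw [ev_lin]; linarith
        · rw [ev_lin]; ring_nf; exact le_rfl
        · rw [ev_lin]; have := hER.ord; simp only; linarith
        · right; rw [ev_lin]; have := hER.ord; simp only; linarith

end VK
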