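import Pool.Agent.H53.VK.BLM

set_option autoImplicit false

namespace VK

theorem card_sides (A : Finset Pt) (g : Fn) :
    (A.filter (fun z => 0 ≤ ev g z)).card + (A.filter (fun z => ev g z ≤ 0)).card =
      A.card + (A.filter (fun z => ev g z = 0)).card := by
  classical
  rw [← Finset.card_union_add_card_inter]
  congr 1
  · congr 1
    ext z
    simp only [Finset.mem_union, Finset.mem_filter]
    constructor
    · rintro (h | h) <;> exact h.1
    · intro h
      rcases le_total 0 (ev g z) with h1 | h1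
      · exact Or.inl ⟨h, h1⟩
      · exact Or.inr ⟨h, h1⟩
  · congr 1
    ext z
    simp only [Finset.mem_inter, Finset.mem_filter]
    constructor
    · rintro ⟨h, h'⟩
      exact ⟨h.1, le_antisymm h'.2 h.2⟩
    · rintro ⟨h, h'⟩
      exact ⟨⟨h, h'.ge⟩, ⟨h, h'.le⟩⟩

theorem filter_line (A : Finset Pt) (g : Fn) :
    (A.filter (fun z => ev g z ≤ 0)).filter (fun z => ev g z = 0) =
      A.filter (fun z => ev g z = 0) := by
  ext z
  simp only [Finset.mem_filter]
  constructor
  · rintro ⟨⟨h, _⟩, h'⟩; exact ⟨h, h'⟩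
  · rintro ⟨h, h'⟩; exact ⟨⟨h, h'.le⟩, h'⟩

theorem exists_frame (g : Fn) (hg : Nc g) : ∃ t : Fn, det t g ≠ 0 := by
  refine ⟨⟨-g.b, g.a, 0⟩, ?_⟩
  have : det ⟨-g.b, g.a, 0⟩ g = -(g.a * g.a + g.b * g.b) := by
    simp only [det]; ring
  rw [this]
  apply neg_ne_zero.2
  rcases hg with h | h
  · have := mul_self_pos.2 h
    have := mul_self_nonneg g.b
    linarith
  · have := mul_self_pos.2 h
    have := mul_self_nonneg g.a
    linarith

theorem nc_of_det {t g : Fn} (h : det t g ≠ 0) : Nc g := by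
  by_contra hcon
  simp only [Nc, not_or, not_not] at hcon
  apply h
  simp only [det, hcon.1, hcon.2]; ring

/-- one side: a majority-`B` end run -/
theorem side_bound (M k : ℕ) (A B : Finset Pt) (t h : Fn) (v x : Pt) (hM1 : 1 ≤ M) (hM2 : M ≤ 2)
    (hAB : Disjoint A B) (hyp : Hyp M A B) (ih : IH M k) (hk : A.card + B.card ≤ k)
    (hER : ER A B t h v x) (hex : ∃ z ∈ A ∪ B, 0 < ev h z) (hc : A.card + 1 ≤ B.card) :
    Fge A B (2 * A.card + 1 - M) := by
  classical
  have hBe : (B.erase v).card = B.card - 1 := Finset.card_erase_of_mem hER.hv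
  have hA1 : 1 ≤ A.card := Finset.card_pos.2 ⟨x, hER.hx⟩
  have hne : (B.erase v).Nonempty := by
    rw [← Finset.card_pos, hBe]; omega
  have hd : Disjoint A (B.erase v) := Finset.disjoint_of_subset_right (Finset.erase_subset _ _) hAB
  have hyp' : Hyp M A (B.erase v) :=
    BAS_proved.2.2.2.2.2.1 A A (B.erase v) B M (Finset.Subset.refl _) (Finset.erase_subset _ _) hyp
  obtain ⟨p1, p2⟩ := ih A (B.erase v) hd ⟨x, hER.hx⟩ hne (by rw [hBe]; omega) hyp'
  have hmin : min A.card (B.erase v).card = A.card := by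
    rw [hBe]; omega
  rw [hmin] at p1 p2
  rcases BLM_proved A B t h v x hAB hER hex with h1 | ⟨h1, h2⟩
  · exact BAS_proved.1 A B _ _ (by omega) (h1 _ p1)
  · exact BAS_proved.1 A B _ _ (by omega) (h2 _ (p2 h1))

theorem SPL_proved (hLIN : LIN_stmt) : SPL_stmt := by
  intro M A B g v t1 h1 x1 t2 h2 x2 hM1 hM2 hAB hyp ih hg hE1 hE2 hc1 hc2 hx1 hx2
  classical
  have hmono := BAS_proved.2.2.2.2.2.1
  have s1 : Fge (A.filter (fun z => 0 ≤ ev g z)) (B.filter (fun z => 0 ≤ ev g z))
      (2 * (A.filter (fun z => 0 ≤ ev g z)).card + 1 - M) := by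
    refine side_bound M (A.card + B.card) _ _ t1 h1 v x1 hM1 hM2 ?_ ?_ ih ?_ hE1 ?_ hc1
    · exact Finset.disjoint_of_subset_left (Finset.filter_subset _ _)
        (Finset.disjoint_of_subset_right (Finset.filter_subset _ _) hAB)
    · exact hmono _ _ _ _ M (Finset.filter_subset _ _) (Finset.filter_subset _ _) hyp
    · exact add_le_add (Finset.card_le_card (Finset.filter_subset _ _))
        (Finset.card_le_card (Finset.filter_subset _ _))
    · obtain ⟨z, hz, h3, h4⟩ := hx1
      refine ⟨z, ?_, h4⟩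
      rcases Finset.mem_union.1 hz with h5 | h5
      · exact Finset.mem_union_left _ (Finset.mem_filter.2 ⟨h5, h3⟩)
      · exact Finset.mem_union_right _ (Finset.mem_filter.2 ⟨h5, h3⟩)
  have s2 : Fge (A.filter (fun z => ev g z ≤ 0)) (B.filter (fun z => ev g z ≤ 0))
      (2 * (A.filter (fun z => ev g z ≤ 0)).card + 1 - M) := by
    refine side_bound M (A.card + B.card) _ _ t2 h2 v x2 hM1 hM2 ?_ ?_ ih ?_ hE2 ?_ hc2
    · exact Finset.disjoint_of_subset_left (Finset.filter_subset _ _)
        (Finset.disjoint_of_subset_right (Finset.filter_subset _ _) hAB)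
    · exact hmono _ _ _ _ M (Finset.filter_subset _ _) (Finset.filter_subset _ _) hyp
    · exact add_le_add (Finset.card_le_card (Finset.filter_subset _ _))
        (Finset.card_le_card (Finset.filter_subset _ _))
    · obtain ⟨z, hz, h3, h4⟩ := hx2
      refine ⟨z, ?_, h4⟩
      rcases Finset.mem_union.1 hz with h5 | h5
      · exact Finset.mem_union_left _ (Finset.mem_filter.2 ⟨h5, h3⟩)
      · exact Finset.mem_union_right _ (Finset.mem_filter.2 ⟨h5, h3⟩)
  obtain ⟨t, ht⟩ := exists_frame g hg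
  have hcut := CUT_proved A B _ _ _ _ g _ _ (2 * (A.filter (fun z => ev g z = 0)).card)
    (Finset.filter_subset _ _) (Finset.filter_subset _ _)
    (Finset.filter_subset _ _) (Finset.filter_subset _ _) ?_ ?_ ?_ s1 s2
  · have hs := card_sides A g
    have ha1 : 1 ≤ (A.filter (fun z => 0 ≤ ev g z)).card := Finset.card_pos.2 ⟨x1, hE1.hx⟩
    have ha2 : 1 ≤ (A.filter (fun z => ev g z ≤ 0)).card := Finset.card_pos.2 ⟨x2, hE2.hx⟩
    exact BAS_proved.1 A B _ _ (by omega) hcut
  · intro z hz
    rcases Finset.mem_union.1 hz with h5 | h5 <;> exact (Finset.mem_filter.1 h5).2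
  · intro z hz
    rcases Finset.mem_union.1 hz with h5 | h5 <;> exact (Finset.mem_filter.1 h5).2
  · intro E hE
    rw [filter_line, filter_line] at hE
    refine (hLIN (A.filter (fun z => ev g z = 0)) (B.filter (fun z => ev g z = 0)) t g ?_ ht ?_ E hE).1
    · exact Finset.disjoint_of_subset_left (Finset.filter_subset _ _)
        (Finset.disjoint_of_subset_right (Finset.filter_subset _ _) hAB)
    · intro z hz
      rcases Finset.mem_union.1 hz with h5 | h5 <;> exact (Finset.mem_filter.1 h5).2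

end VK
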