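import Pool.Agent.H53.VK.FIN3

set_option autoImplicit false

namespace VK

open Polynomial in
theorem quad_finite (c0 c1 c2 : ℝ) (h : ¬ (c0 = 0 ∧ c1 = 0 ∧ c2 = 0)) :
    {s : ℝ | c0 + c1 * s + c2 * s ^ 2 = 0}.Finite := by
  classical
  set p : ℝ[X] := C c0 + C c1 * X + C c2 * X ^ 2 with hp
  have hp0 : p ≠ 0 := by
    intro h0
    apply h
    have k0 : p.coeff 0 = 0 := by rw [h0]; simp
    have k1 : p.coeff 1 = 0 := by rw [h0]; simp
    have k2 : p.coeff 2 = 0 := by rw [h0]; simp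
    simp [hp, coeff_X, coeff_C] at k0 k1 k2
    exact ⟨k0, k1, k2⟩
  refine (p.roots.toFinset.finite_toSet).subset ?_
  intro s hs
  have hs' : c0 + c1 * s + c2 * s ^ 2 = 0 := hs
  rw [Finset.mem_coe, Multiset.mem_toFinset, mem_roots hp0, IsRoot.def]
  simp [hp]
  linarith

theorem own_SXO : SXO_stmt := by
  intro S hS
  classical
  -- three points not on a line
  obtain ⟨p1, hp1⟩ : S.Nonempty := by
    rw [Finset.nonempty_iff_ne_empty]
    intro h
    apply hS
    refine ⟨⟨1, 0, 0⟩, Or.inl one_ne_zero, ?_⟩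
    rw [h]; intro z hz; simp at hz
  obtain ⟨p2, hp2, h12⟩ : ∃ p2 ∈ S, p1 ≠ p2 := by
    by_contra hcon
    push Not at hcon
    apply hS
    refine ⟨⟨1, 0, -p1.1⟩, Or.inl one_ne_zero, ?_⟩
    intro z hz
    rw [← hcon z hz]
    simp only [ev]; ring
  obtain ⟨g12, hg12, hg1, hg2⟩ := line_through p1 p2 h12
  obtain ⟨p3, hp3, hg3⟩ := onLine_not hS hg12
  set O : ℝ → Pt := fun s => ((1 - s - s ^ 2) * p1.1 + s * p2.1 + s ^ 2 * p3.1,
    (1 - s - s ^ 2) * p1.2 + s * p2.2 + s ^ 2 * p3.2) with hO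
  have hcr : ∀ p q : Pt, ∀ s : ℝ, cr (O s) p q = cr p1 p q + (cr p2 p q - cr p1 p q) * s +
      (cr p3 p q - cr p1 p q) * s ^ 2 := by
    intro p q s
    simp only [cr, hO]; ring
  have hfin : ∀ pq ∈ S.offDiag, {s : ℝ | cr (O s) pq.1 pq.2 = 0}.Finite := by
    rintro ⟨p, q⟩ hpq
    have hpq' := Finset.mem_offDiag.1 hpq
    have hne : ¬ (cr p1 p q = 0 ∧ cr p2 p q - cr p1 p q = 0 ∧ cr p3 p q - cr p1 p q = 0) := by
      rintro ⟨h1, h2, h3⟩
      have h2' : cr p2 p q = 0 := by linarith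
      have h3' : cr p3 p q = 0 := by linarith
      set F : Fn := ⟨p.2 - q.2, q.1 - p.1, p.1 * q.2 - p.2 * q.1⟩ with hF
      have hFe : ∀ z : Pt, ev F z = cr z p q := by
        intro z
        simp only [ev, hF, cr]; ring
      have hFN : Nc F := by
        by_contra hcon
        simp only [Nc, hF, not_or, not_not] at hcon
        exact hpq'.2.2 (Prod.ext (by linarith [hcon.2]) (by linarith [hcon.1]))
      have := (two_pts hg12 hFN h12 hg1 hg2 (by rw [hFe]; exact h1) (by rw [hFe]; exact h2') p3).2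
        (by rw [hFe]; exact h3')
      exact hg3 this
    refine (quad_finite _ _ _ hne).subset ?_
    intro s hs
    have : cr (O s) p q = 0 := hs
    rw [hcr] at this
    exact this
  have hT : (⋃ pq ∈ S.offDiag, {s : ℝ | cr (O s) pq.1 pq.2 = 0}).Finite :=
    Set.Finite.biUnion (Finset.finite_toSet _) hfin
  obtain ⟨s, hs, hsT⟩ := (Set.Ioo_infinite (by norm_num : (0 : ℝ) < 1 / 2)).exists_notMem_finite hT
  have hs0 : 0 < s := hs.1
  have hs1 : s < 1 / 2 := hs.2
  have hw : 0 < 1 - s - s ^ 2 := by nlinarith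
  refine ⟨O s, ?_, ?_⟩
  · intro p hp q hq hpq h0
    apply hsT
    simp only [Set.mem_iUnion]
    exact ⟨(p, q), Finset.mem_offDiag.2 ⟨hp, hq, hpq⟩, h0⟩
  · intro g hg hnz
    have hsum : (1 - s - s ^ 2) * ev g p1 + s * ev g p2 + s ^ 2 * ev g p3 = 0 := by
      rw [← hg]
      simp only [ev, hO]; ring
    have n1 := hnz p1 hp1
    have n2 := hnz p2 hp2
    have n3 := hnz p3 hp3
    have hs2 : 0 < s ^ 2 := by positivity
    constructor
    · by_contra hcon
      push Not at hcon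
      have a1 : ev g p1 < 0 := lt_of_le_of_ne (hcon p1 hp1) n1
      have a2 : ev g p2 < 0 := lt_of_le_of_ne (hcon p2 hp2) n2
      have a3 : ev g p3 < 0 := lt_of_le_of_ne (hcon p3 hp3) n3
      have b1 := mul_neg_of_pos_of_neg hw a1
      have b2 := mul_neg_of_pos_of_neg hs0 a2
      have b3 := mul_neg_of_pos_of_neg hs2 a3
      linarith
    · by_contra hcon
      push Not at hcon
      have a1 : 0 < ev g p1 := lt_of_le_of_ne (hcon p1 hp1) n1.symm
      have a2 : 0 < ev g p2 := lt_of_le_of_ne (hcon p2 hp2) n2.symm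
      have a3 : 0 < ev g p3 := lt_of_le_of_ne (hcon p3 hp3) n3.symm
      have b1 := mul_pos hw a1
      have b2 := mul_pos hs0 a2
      have b3 := mul_pos hs2 a3
      linarith

end VK
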