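import Pool.Agent.H53.VK.Defs

/-!
# Crew VK (MP_5f22fc_co): statements of the parts

Theorem aimed at (own statement): the conjecture `κ ≥ (2δ+1)/3` for visibility graphs holds for all
finite planar point sets with no seven points on a line (known: no five points on a line).

Core (parts BAS..PST): `A`, `B` disjoint finite nonempty sets in the plane, every line has at most `M`
points of one of the colours (`M = 1` or `2`); `N = min |A| |B|`; then there are `2N+1-2M` segments `a b`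
with pairwise disjoint open segments, and `2N-M` if there is an end run (`EndRun`).
Everybody proves `theorem VK.XXX_proved : VK.XXX_stmt`. You may use other parts as hypotheses
(`theorem VK.XXX_proved (h : VK.YYY_stmt) : VK.XXX_stmt`), only if listed in `deps`.
-/

set_option autoImplicit false

namespace VK

/-- BAS (helper53): basic facts. -/
def BAS_stmt : Prop :=
  (∀ (A B : Finset Pt) (m n : ℕ), m ≤ n → Fge A B n → Fge A B m) ∧
  (∀ (A A' B B' : Finset Pt) (n : ℕ), A ⊆ A' → B ⊆ B' → Fge A B n → Fge A' B' n) ∧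
  (∀ (A B : Finset Pt) (n : ℕ), Fge A B n → Fge B A n) ∧
  (∀ (A B : Finset Pt), A.Nonempty → B.Nonempty → Fge A B 1) ∧
  (∀ (A B : Finset Pt) (M : ℕ), Hyp M A B → Hyp M B A) ∧
  (∀ (A A' B B' : Finset Pt) (M : ℕ), A ⊆ A' → B ⊆ B' → Hyp M A' B' → Hyp M A B) ∧
  (∀ (A B : Finset Pt), EndRun A B → EndRun B A)

/-- MNR (helper53): minimal ratio. -/
def MNR_stmt : Prop := ∀ (S : Finset Pt) (f g : Fn),
  (∀ z ∈ S, 0 ≤ ev f z) → (∀ z ∈ S, ev f z = 0 → 0 ≤ ev g z) → (∃ z ∈ S, 0 < ev f z) →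
  ∃ ρ : ℝ, (∀ z ∈ S, 0 ≤ ev g z - ρ * ev f z) ∧ ∃ z ∈ S, 0 < ev f z ∧ ev g z - ρ * ev f z = 0

/-- ERM: making an end run. `f ≥ 0` supporting, `w ∈ A` is the `q`-first point of the line `f = 0`, all
others (at least one) are in `B`. (Choose `x` = the other point with minimal `q`; the result is
`ER B A q f w x`, i.e. the second alternative of `EndRun A B`.) -/
def ERM_stmt : Prop := ∀ (A B : Finset Pt) (q f : Fn) (w : Pt), Disjoint A B → det q f ≠ 0 → w ∈ A →
  ev f w = 0 → (∀ z ∈ A ∪ B, 0 ≤ ev f z) → (∃ z ∈ A ∪ B, z ≠ w ∧ ev f z = 0) →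
  (∀ z ∈ A ∪ B, z ≠ w → ev f z = 0 → z ∈ B ∧ ev q w < ev q z) → EndRun A B

/-- EXT: adding a good family `K` of new segments, each of them (open) in the negative side of a functional
that is `≥ 0` on the old points. -/
def EXT_stmt : Prop := ∀ (A B A' B' : Finset Pt) (K : Finset (Pt × Pt)) (n : ℕ), A' ⊆ A → B' ⊆ B →
  Good A B K →
  (∀ e ∈ K, ∃ f : Fn, (∀ z ∈ A' ∪ B', 0 ≤ ev f z) ∧ ev f e.1 ≤ 0 ∧ ev f e.2 ≤ 0 ∧
    (ev f e.1 < 0 ∨ ev f e.2 < 0)) →
  Fge A' B' n → Fge A B (n + K.card)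

/-- SEP: two open segments separated by a functional are disjoint (the first is strictly negative). -/
def SEP_stmt : Prop := ∀ (p q r s : Pt) (f : Fn), ev f p ≤ 0 → ev f q ≤ 0 → (ev f p < 0 ∨ ev f q < 0) →
  0 ≤ ev f r → 0 ≤ ev f s → Disjoint (openSegment ℝ p q) (openSegment ℝ r s)

/-- STR: star from a new point `v` (to be in `B`) to visible points `u ∈ W ⊆ A`. Proof: the new segments
`u v` are disjoint from old ones by `f_u`, and from each other (if `u, u', v` are collinear with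
`u` between `v` and `u'`, then `f_{u'} u < 0`). From EXT with `K = W.image (fun u => (u, v))`. -/
def STR_stmt : Prop := ∀ (A B W : Finset Pt) (v : Pt) (n : ℕ), W ⊆ A →
  (∀ u ∈ W, ∃ f : Fn, (∀ z ∈ A ∪ B, 0 ≤ ev f z) ∧ ev f u = 0 ∧ ev f v < 0) →
  Fge A B n → Fge A (insert v B) (n + W.card)

/-- CUT: cutting along the line `g = 0`: families of the two closed sides, edges of the second family
inside the line are deleted (at most `c`). -/
def CUT_stmt : Prop := ∀ (A B A1 B1 A2 B2 : Finset Pt) (g : Fn) (n1 n2 c : ℕ),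
  A1 ⊆ A → B1 ⊆ B → A2 ⊆ A → B2 ⊆ B →
  (∀ z ∈ A1 ∪ B1, 0 ≤ ev g z) → (∀ z ∈ A2 ∪ B2, ev g z ≤ 0) →
  (∀ E, Good (A2.filter (fun z => ev g z = 0)) (B2.filter (fun z => ev g z = 0)) E → E.card ≤ c) →
  Fge A1 B1 n1 → Fge A2 B2 n2 → Fge A B (n1 + n2 - c)

/-- LIN: families inside one line. (1) at most `2 |A|` (every `a ∈ A` has at most one edge in each
direction); (2) at most `2 |A| - 1` if an `A` point is the first point of the line; (3) at most one if
all `A` points are before all `B` points. -/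
def LIN_stmt : Prop := ∀ (A B : Finset Pt) (t g : Fn), Disjoint A B → det t g ≠ 0 →
  (∀ z ∈ A ∪ B, ev g z = 0) → ∀ E, Good A B E →
  (E.card ≤ 2 * A.card) ∧
  ((∃ a ∈ A, ∀ z ∈ A ∪ B, ev t a ≤ ev t z) → E.card + 1 ≤ 2 * A.card) ∧
  ((∀ a ∈ A, ∀ b ∈ B, ev t a < ev t b) → E.card ≤ 1)

/-- BLM. Proof: `S' = A ∪ B.erase v`. MNR on `S'` with `f := h`, `g := t - t x` gives `ρ`;
`F := t - t x - ρ h ≥ 0` on `S'`, `F x = 0`, `F v < 0`, some zero point with `h > 0`. If some `u ∈ A`,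
`u ≠ x`, `F u = 0`: STR with `W = {x, u}` (functional `F` for both) gives `+2`. Otherwise all zero points
`≠ x` are in `B.erase v` and have `h > 0 = h x`: ERM with `q := h`, `f := F`, `w := x`, and STR
with `W = {x}` gives `+1`. -/
def BLM_stmt : Prop := ∀ (A B : Finset Pt) (t h : Fn) (v x : Pt), Disjoint A B → ER A B t h v x →
  (∃ z ∈ A ∪ B, 0 < ev h z) →
  (∀ n, Fge A (B.erase v) n → Fge A B (n + 2)) ∨
  (EndRun A (B.erase v) ∧ ∀ n, Fge A (B.erase v) n → Fge A B (n + 1))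

/-- TLM. Remove `v ∈ B` and `x ∈ A`. `S' = A.erase x ∪ B.erase v`. Put `f := t - t x - s h` (MNR on `S'`),
`f ≥ 0` on `S'`, `f x = 0`, `f v < 0`; `w` = zero point of `f` in `S'` with minimal `h`, `h w > 0`
(all zero points have `h > 0`, other zero points have `h > h w`).
First add `x` to `S'` (STR for the colour-swapped pair), then `v` to `S' ∪ {x}`. `v x` is always an edge
(by `f`).
Case `w ∈ B`. If some `u ∈ A`, `f u = 0`: edges `v x`, `v u`, (by `f`) and `x w` (by `f + ε (h - h w)`):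
`+3`. Otherwise, since `A.erase x` is nonempty, some `z` has `f z > 0`; `e := (h - h w) - ρ f` (MNR), `e ≥ 0` on
`S'`, `e x < 0`, `e w = 0`, and another zero point (all of those have `f > 0 = f w`). `x w` is an edge by `e`. If one of
the other zero points of `e` is in `B`: `+3`. Otherwise all in `A`: ERM (swapped) with `q := f`: `EndRun S'`.
Case `w ∈ A`. `v x`, `v w` by `f`. Another `u ∈ A` with `f u = 0`: `+3`. If the other zero points of
`f` (nonempty) are all in `B`: `EndRun S'` by ERM, `q := h`. If `w` is the only zero point: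
`g := (t - t v) * h w - (t w - t v) * h`, `g v = g w = 0`, `g x > 0`. If `g ≥ 0` on `S'`: third outcome (`ER A B g' g v w`
with e.g. `g' := h`; a zero point `z` of `g` other than `v`, `w` has `f z > 0`, hence `h z > h w`).
Otherwise `e := g - ρ f` (MNR), `ρ < 0`, `e v < 0`, `e ≥ 0` on `S' ∪ {x}`, `e w = 0`, other zero points
(exist) have `f > 0`: one in `A`: `+3` (edge from `v`); all in `B`: `EndRun S'` (`q := f`). -/
def TLM_stmt : Prop := ∀ (A B : Finset Pt) (t h : Fn) (v x : Pt), Disjoint A B → ER A B t h v x →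
  (A.erase x).Nonempty → (B.erase v).Nonempty → (∃ z ∈ A ∪ B, 0 < ev h z) →
  (∀ n, Fge (A.erase x) (B.erase v) n → Fge A B (n + 2)) ∧
  ((∀ n, Fge (A.erase x) (B.erase v) n → Fge A B (n + 3)) ∨
   EndRun (A.erase x) (B.erase v) ∨
   ∃ (t2 g : Fn) (w : Pt), ER A B t2 g v w ∧ 0 < ev g x)

/-- GLM. Remove `y2, y1 ∈ B`, `x1, x2 ∈ A`. `S'' = ` the rest. `f := t - t x2 - s h` (MNR on `S''`), `f ≥ 0` on
`S''`, `f x2 = 0`, `f < 0` at `y2, y1, x1`; `w` = zero point of `f` in `S''` with minimal `h` (`h w > 0`).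
`f0 := f + ε (h - h w)` (small `ε > 0`): `f0 w = 0`, `f0 ≥ 0` on `S''`, `f0 < 0` at all four points.
Use EXT (with `f0`, or the functionals below) and SEP for the disjointness inside `K`.
Case `w ∈ A`: `K ⊇ {(x1,y1), (w,y1), (w,y2)}`. Extra edge `x2 u`, `u ∈ B` on `e = 0`, where
`e := (h - h w) - ρ f` (`e x2 < 0`; `f > 0` on this open segment, `f < 0` on the others); extra edge `y2 u`,
`u ∈ A`, `u ≠ w`, `f u = 0`; or (if `w` is the only zero point of `f`)
`g := (t - t y2) * h w - (t w - t y2) * h`; if `g ≥ 0` on `S''`: third outcome `EndRun A B` (line `y2 w`);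
otherwise `e' := g - ρ' f` (`ρ' < 0`), extra edge `y2 u`, `u ∈ A`, `e' u = 0`, `f u > 0` (`g < 0` on the open
segment `y2 u`, `g ≥ 0` at `y1, x1, w, y2`). If no extra edge: `EndRun S''` by ERM (on `f = 0` if it has
other points, which are all in `B`, otherwise on `e' = 0`).
Case `w ∈ B`: `K ⊇ {(x1,y1), (x1,w), (x2,w)}`. Extra edge `y2 u`, `u ∈ A`, `f u = 0`; or `x2 u`,
`u ∈ B`, `u ≠ w`, `e u = 0`. If no extra edge: all zero points of `e` except `w` are in `A` (there is one, since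
some point of `S''` has `f > 0`, as `A''` is nonempty): `EndRun S''`.
(The three outcomes as in the statement; `n + 4` or `n + 3 ∧ EndRun S''` or `EndRun A B`.) -/
def GLM_stmt : Prop := ∀ (A B : Finset Pt) (t h : Fn) (y2 y1 x1 x2 : Pt), Disjoint A B →
  DR A B t h y2 y1 x1 x2 →
  ((A.erase x1).erase x2).Nonempty → ((B.erase y1).erase y2).Nonempty → (∃ z ∈ A ∪ B, 0 < ev h z) →
  (∀ n, Fge ((A.erase x1).erase x2) ((B.erase y1).erase y2) n → Fge A B (n + 4)) ∨
  ((∀ n, Fge ((A.erase x1).erase x2) ((B.erase y1).erase y2) n → Fge A B (n + 3)) ∧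
    EndRun ((A.erase x1).erase x2) ((B.erase y1).erase y2)) ∨
  EndRun A B

/-- UPC: rotating ray. (Take `s` = the maximal ratio `t z / h z`, `z ∈ Z`, `h z > 0`, such that the second
sum is `≥ k+1`; the minimal ratio has this property.) -/
def UPC_stmt : Prop := ∀ (Z : Finset Pt) (t h : Fn) (w : Pt → ℤ) (k : ℤ),
  (∀ z ∈ Z, 0 ≤ ev h z) → (∀ z ∈ Z, ev h z = 0 → 0 < ev t z) →
  (∑ z ∈ Z.filter (fun z => ev h z = 0), w z) ≤ k → k + 1 ≤ ∑ z ∈ Z, w z →
  ∃ s : ℝ, (∃ z ∈ Z, 0 < ev h z ∧ ev t z = s * ev h z) ∧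
    (∑ z ∈ Z.filter (fun z => s * ev h z < ev t z), w z) ≤ k ∧
    k + 1 ≤ ∑ z ∈ Z.filter (fun z => s * ev h z ≤ ev t z), w z

/-- PA1: one `B` point on the supporting line `g = 0`. With `t := ⟨-g.b, g.a, c⟩`, `t b = 0`. If `b` is extreme
(no `A` point on one side): `EndRun`. Otherwise `IS` (nearest `A` points on both sides). -/
def PA1_stmt : Prop := ∀ (A B : Finset Pt) (g : Fn), Disjoint A B → Nc g →
  (∀ z ∈ A ∪ B, 0 ≤ ev g z) → (B.filter (fun z => ev g z = 0)).card = 1 →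
  1 ≤ (A.filter (fun z => ev g z = 0)).card →
  EndRun A B ∨ (∃ t h w v x, IS A B t h w v x)

/-- PA2: two `B` points on the supporting line `g = 0`, at least two `A` points: pattern
`A^i B A^j B A^k`. `j = 0`: `i = 0` or `k = 0`: `DR`; `i = 1` or `k = 1`: `EndRun`; else `D2`.
`j ≥ 1`: `i = 0` or `k = 0`: `EndRun`; else `IS` with `v` the first `B` point (left `i ≥ 1` against 0, right
`j + k ≥ 2` against 1). -/
def PA2_stmt : Prop := ∀ (A B : Finset Pt) (g : Fn), Disjoint A B → Nc g →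
  (∀ z ∈ A ∪ B, 0 ≤ ev g z) → (B.filter (fun z => ev g z = 0)).card = 2 →
  2 ≤ (A.filter (fun z => ev g z = 0)).card →
  EndRun A B ∨ (∃ t h w v x, IS A B t h w v x) ∨ (∃ t h y2 y1 x1 x2, DR A B t h y2 y1 x1 x2) ∨
  (∃ t h w y1 y2 x, D2 A B t h w y1 y2 x)

/-- PTR: the line of an end run `v x ...` (`v ∈ B`, `x ∈ A`). If nothing follows: counts 1, 1. Next point
`y ∈ B`: `EndRun A (B.erase v)` (end `x`). `y ∈ A` and nothing follows: counts. `y ∈ A`, then `y' ∈ B`:
`EndRun (A.erase x) (B.erase v)` (end `y`). `y, y' ∈ A`: three `A` points, so by `Hyp 2` at most two `B`. -/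
def PTR_stmt : Prop := ∀ (A B : Finset Pt) (t h : Fn) (v x : Pt), Disjoint A B → Hyp 2 A B →
  ER A B t h v x →
  EndRun A (B.erase v) ∨ EndRun (A.erase x) (B.erase v) ∨
  (B.filter (fun z => ev h z = 0)).card ≤ (A.filter (fun z => ev h z = 0)).card

/-- SPL: cut through `v ∈ B` with both closed sides majority-`B` end runs at `v`.
Each side `i`: BLM and IH for `(A_i, B_i.erase v)` give `Fge A_i B_i (2 a_i + 1 - M)`
(`a_i = |A_i| ≤ |B_i| - 1`; `+2` with the first bound, `+1` with the second).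
CUT with `c = 2 |A_0|` (LIN (1)), and `a_1 + a_2 = |A| + |A_0|`. -/
def SPL_stmt : Prop := ∀ (M : ℕ) (A B : Finset Pt) (g : Fn) (v : Pt) (t1 h1 : Fn) (x1 : Pt)
    (t2 h2 : Fn) (x2 : Pt),
  1 ≤ M → M ≤ 2 → Disjoint A B → Hyp M A B → IH M (A.card + B.card) → Nc g → 
  ER (A.filter (fun z => 0 ≤ ev g z)) (B.filter (fun z => 0 ≤ ev g z)) t1 h1 v x1 →
  ER (A.filter (fun z => ev g z ≤ 0)) (B.filter (fun z => ev g z ≤ 0)) t2 h2 v x2 →
  (A.filter (fun z => 0 ≤ ev g z)).card + 1 ≤ (B.filter (fun z => 0 ≤ ev g z)).card →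
  (A.filter (fun z => ev g z ≤ 0)).card + 1 ≤ (B.filter (fun z => ev g z ≤ 0)).card →
  (∃ z ∈ A ∪ B, 0 ≤ ev g z ∧ 0 < ev h1 z) → (∃ z ∈ A ∪ B, ev g z ≤ 0 ∧ 0 < ev h2 z) →
  Fge A B (2 * A.card + 2 - 2 * M)

/-- RYI: inner isolated point. UPC with `Z = (A ∪ B) \ {v} \ {h = 0, t < 0}`, weights `+1` on `B`, `-1` on `A`,
`k = -1` (`cr`, `cl`, and the total weight of `(A ∪ B) \ {v}` is `-1`). `g := t - s h`. Both closed sides
(which contain `v`) have `#A + 1 ≤ #B`. Side `g ≥ 0`: `ER` with `t, h, v, x`; side `g ≤ 0`: `ER` with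
`-t, h, v, w`. Then SPL. -/
def RYI_stmt : Prop := ∀ (M : ℕ) (A B : Finset Pt) (t h : Fn) (w v x : Pt),
  1 ≤ M → M ≤ 2 → Disjoint A B → Hyp M A B → IH M (A.card + B.card) → A.card = B.card →
  IS A B t h w v x → Fge A B (2 * A.card + 2 - 2 * M)

/-- RYH: hull vertex `v ∈ B` with two supporting lines `h = 0` and `h2 = 0`, on both the neighbour of `v` is in
`A` and `#B ≤ #A`. As RYI, with `Z = (A ∪ B) \ {h2 = 0}`, frame `t - t v, h`; all points `z ≠ v` have
`h > 0` or (`h = 0` and `t > t v`); points of `h2 = 0` are strictly on the side `t - t v < s h`. -/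
def RYH_stmt : Prop := ∀ (M : ℕ) (A B : Finset Pt) (t h t2 h2 : Fn) (v x w : Pt),
  1 ≤ M → M ≤ 2 → Disjoint A B → Hyp M A B → IH M (A.card + B.card) → A.card = B.card →
  ER A B t h v x → ER A B t2 h2 v w → 0 < ev h2 x →
  (B.filter (fun z => ev h z = 0)).card ≤ (A.filter (fun z => ev h z = 0)).card →
  (B.filter (fun z => ev h2 z = 0)).card ≤ (A.filter (fun z => ev h2 z = 0)).card →
  Fge A B (2 * A.card + 2 - 2 * M)

/-- D2L (`M = 2`). UPC as in RYI with centre `v = y1` (right line ray: `y2` and at least two `A`; left line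
ray: at least two `A`, no `B`). `g := t - s h`; both closed sides have `#A + 1 ≤ #B` (with `y1`).
Side `g ≤ 0`: `ER` (`-t, h, y1, w`), BLM and IH: `Fge A2 B2 (2 a2 - 1)`. Side `g ≥ 0`: delete `y1`:
`(A1, B1.erase y1)` has `ER` (`t, h, y2, x`), `#A1 ≤ #(B1.erase y1)`, IH (R bound): `Fge A1 (B1.erase y1) (2 a1 - 2)`.
CUT with `c = 2 |A_0|`: `2 (|A| + |A_0|) - 3 - 2 |A_0|`. -/
def D2L_stmt : Prop := ∀ (A B : Finset Pt) (t h : Fn) (w y1 y2 x : Pt), Disjoint A B → Hyp 2 A B →
  IH 2 (A.card + B.card) → A.card = B.card → D2 A B t h w y1 y2 x → Fge A B (2 * A.card - 3)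

/-- MCU: cut through `v ∈ A` (`v` is the `h`-first point of the line `g = 0`) with `#A ≤ #B` on the line and on both
closed sides, both sides proper. `a_0 = |A_0| ≤ M` by `Hyp`. `a_1 + a_2 = |A| + a_0`.
`a_0 = 1`: `EndRun` on both sides (ERM with `w := v`, `q := h`, `f := ±g`), `2a_j - M` each, `c = 1` (LIN (3) or (2)).
`a_0 = 2` (`M = 2`): if the neighbour of `v` on the line is in `B`: `EndRun` on both sides (`ER B_j A_j h g v y`),
`2a_j - 2` each, `c = 3` (LIN (2)). If it is in `A`: both `A` points are before all `B` points: first bound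
`2a_j - 3` each, `c = 1` (LIN (3)). -/
def MCU_stmt : Prop := ∀ (M : ℕ) (A B : Finset Pt) (g h : Fn) (v : Pt),
  1 ≤ M → M ≤ 2 → Disjoint A B → Hyp M A B → IH M (A.card + B.card) →
  v ∈ A → ev g v = 0 → ev h v = 0 → det h g ≠ 0 →
  (∀ z ∈ A ∪ B, ev g z = 0 → z ≠ v → 0 < ev h z) →
  (A.filter (fun z => ev g z = 0)).card ≤ (B.filter (fun z => ev g z = 0)).card →
  (A.filter (fun z => 0 ≤ ev g z)).card ≤ (B.filter (fun z => 0 ≤ ev g z)).card →
  (A.filter (fun z => ev g z ≤ 0)).card ≤ (B.filter (fun z => ev g z ≤ 0)).card →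
  (∃ z ∈ A ∪ B, ev g z < 0) → (∃ z ∈ A ∪ B, 0 < ev g z) →
  Fge A B (2 * A.card + 1 - 2 * M)

/-- MON: no supporting line has both colours, `|A| = |B|`. `v` = lexicographic minimum of `A ∪ B`, say `v ∈ A`
(otherwise swap the colours). `h := z.1 - v.1`, `t := z.2 - v.2`. UPC with `Z = (A ∪ B).erase v`, weights `+1`
on `B`, `-1` on `A`, `k = 0` (the line `h = 0` is supporting and contains `v ∈ A`, so no `B` points: sum `≤ 0`; total `= 1`).
`g := t - s h`: both closed sides have `#A ≤ #B`, the line has `#A + 1 ≤ #B + 1`, in fact `#A ≤ #B` and a `B` point;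
both sides are proper since otherwise `g = 0` would be a supporting line with both colours. MCU. -/
def MON_stmt : Prop := ∀ (M : ℕ) (A B : Finset Pt),
  1 ≤ M → M ≤ 2 → Disjoint A B → A.Nonempty → A.card = B.card → Hyp M A B → IH M (A.card + B.card) →
  (∀ g, Nc g → (∀ z ∈ A ∪ B, 0 ≤ ev g z) → (∀ a ∈ A, ev g a ≠ 0) ∨ (∀ b ∈ B, ev g b ≠ 0)) →
  Fge A B (2 * A.card + 1 - 2 * M)

/-- RST (helper53): the second bound from the induction hypothesis. -/
def RST_stmt : Prop := ∀ (M : ℕ) (A B : Finset Pt) (t h : Fn) (v x : Pt),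
  1 ≤ M → M ≤ 2 → Disjoint A B → Hyp M A B → IH M (A.card + B.card) → ER A B t h v x →
  Fge A B (2 * min A.card B.card - M)

/-- PST (helper53): the first bound. -/
def PST_stmt : Prop := ∀ (M : ℕ) (A B : Finset Pt),
  1 ≤ M → M ≤ 2 → Disjoint A B → A.Nonempty → B.Nonempty → Hyp M A B → IH M (A.card + B.card) →
  Fge A B (2 * min A.card B.card + 1 - 2 * M)

/-! ## Reduction of the graph problem -/

/-- every `A`-`B` segment is blocked by a point of `C` -/
def Blocked (A B C : Finset Pt) : Prop := ∀ a ∈ A, ∀ b ∈ B, ∃ c ∈ C, c ∈ openSegment ℝ a b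

/-- RD1: if `G - C` is not connected, there is a partition `A, B` of `P \ C` with all segments blocked.
(`A` = a component of `G.induce (P \ C)`, `B` = the rest. For `a ∈ A`, `b ∈ B` with no point of `C` on the open segment,
take a pair of points of `A × B` on `[a, b]` at minimal distance: they are adjacent.) -/
def RD1_stmt : Prop := ∀ (P : Finset Pt) (G : SimpleGraph Pt),
  (∀ p q : Pt, G.Adj p q ↔ (p ∈ P ∧ q ∈ P ∧ p ≠ q ∧ ∀ r ∈ P, r ∉ openSegment ℝ p q)) →
  ∀ C : Finset Pt, C ⊆ P → C.card < P.card → 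
  ¬ (G.induce ((P : Set Pt) \ (C : Set Pt))).Connected →
  ∃ A B : Finset Pt, A.Nonempty ∧ B.Nonempty ∧ Disjoint A B ∧ Disjoint A C ∧ Disjoint B C ∧
    A ∪ B ∪ C = P ∧ Blocked A B C

/-- RD2: a good family is at most `|C|` if blocked. -/
def RD2_stmt : Prop := ∀ (A B C : Finset Pt) (E : Finset (Pt × Pt)), Blocked A B C → Good A B E →
  E.card ≤ C.card

/-- RD3: the degree of `v ∈ A`. Every visible neighbour of `v` is in `A ∪ C` (a visible `B` point would not be blocked);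
send a visible neighbour in `C` to itself, and a visible neighbour `u ∈ A` whose ray from `v` has a `B` point to
a blocking point of `C` on this ray; injective, since different visible neighbours are on different rays. -/
def RD3_stmt : Prop := ∀ (A B C : Finset Pt) (v : Pt), v ∈ A → Disjoint A B → Blocked A B C →
  {p : Pt | p ∈ A ∪ B ∪ C ∧ p ≠ v ∧ ∀ r ∈ A ∪ B ∪ C, r ∉ openSegment ℝ v p}.ncard ≤
    C.card + {u : Pt | u ∈ A ∧ u ≠ v ∧ ∀ z ∈ B, ¬ SameRay ℝ (u - v) (z - v)}.ncard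

/-- RD4: a line `g = 0` with `A` and `B` points; `v` = the extreme `A` point of the line such that a `B` point and all other
`A` points of the line are on one ray from `v`. By RD3 `d ≤ |C| + (|A| - |A ∩ line|)`. -/
def RD4_stmt : Prop := ∀ (A B C : Finset Pt) (g : Fn) (d : ℕ), Nc g → Disjoint A B → Blocked A B C →
  (∃ a ∈ A, ev g a = 0) → (∃ b ∈ B, ev g b = 0) →
  (∀ v ∈ A, d ≤ {p : Pt | p ∈ A ∪ B ∪ C ∧ p ≠ v ∧ ∀ r ∈ A ∪ B ∪ C, r ∉ openSegment ℝ v p}.ncard) →
  d + (A.filter (fun z => ev g z = 0)).card ≤ C.card + A.card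

end VK
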