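import Pool.Agent.H53.VK.SPL

/-!
# Crew VK, second round (MP_5f22fc_co): a bound for ALL point sets

Goal: every visibility graph satisfies `κ ≥ min ((2δ+1)/3, (δ+5)/2)` (known: `δ/2 + 1`), so the conjecture
holds for all planar point sets with `δ ≤ 14`.

Core: `S = A ∪ B`, `|A| = |B| = N`. (N1) if `S` is not on a line, there are `N + 1` disjoint `A`-`B` segments;
(N2) if `S` is not covered by two lines, `N + 2`. Proof: a clean balanced split `g` (no point of `S` on
`g = 0`, `|A| = |B| ≥ 1` on both sides) exists; recursion.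
-/

set_option autoImplicit false

namespace VK

/-- `S` lies on a line -/
def OnLine (S : Finset Pt) : Prop := ∃ e : Fn, Nc e ∧ ∀ z ∈ S, ev e z = 0

/-- cross product of `p - O` and `q - O` -/
noncomputable def cr (O p q : Pt) : ℝ := (p.1 - O.1) * (q.2 - O.2) - (p.2 - O.2) * (q.1 - O.1)

/-- SXO: a generic interior point. Take `p1, p2, p3 ∈ S` not on a line (they exist; or take `p1 ≠ p2` in `S` and
`p3` off their line). `O(s) := p1 + s (p2 - p1) + s^2 (p3 - p1)`, `0 < s < 1/2`. For `p ≠ q` in `S` the function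
`s ↦ cr (O(s)) p q` is a polynomial of degree `≤ 2` in `s` (it is affine in `O`), not identically zero, since otherwise
the affine functional `O ↦ cr O p q` vanishes at `p1, p2, p3`. So finitely many bad `s`. Last claim: `O(s)` is a
positive combination (weights `1-s-s^2, s, s^2`) of `p1, p2, p3`, and `g` vanishes at `O` but not at the `p_i`,
so the `g p_i` do not all have the same sign. -/
def SXO_stmt : Prop := ∀ S : Finset Pt, ¬ OnLine S →
  ∃ O : Pt, (∀ p ∈ S, ∀ q ∈ S, p ≠ q → cr O p q ≠ 0) ∧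
    (∀ g : Fn, ev g O = 0 → (∀ z ∈ S, ev g z ≠ 0) → (∃ z ∈ S, 0 < ev g z) ∧ (∃ z ∈ S, ev g z < 0))

/-- SXR: balanced line through `O`. There is a frame `t, h` with `t O = h O = 0`, `det t h ≠ 0`, and `h z ≠ 0` for all
`z ∈ S = A ∪ B` (avoid finitely many directions). Reflect: for `h z < 0` replace `z` by `z* = 2 O - z` (`h z* > 0`), for
`h z > 0` put `z* = z`. The map `z ↦ z*` is injective and the ratios `t z* / h z*` are pairwise different
(`cr ≠ 0`; a frame is a multiple of coordinates). Weights: `w z = 1` on `B`, `-1` on `A`, `w' = w` if `h z > 0` and `w' = -w` if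
`h z < 0`. `W' = Σ w'` is even (`|S| = 2N`). If `W' = 0`: `g := h` works. If `W' > 0` (otherwise use `-w'`): UPC on the
set of all `z*` with `w'` and `k = W'/2 - 1` gives `s`, a point with ratio exactly `s`, and (ratios distinct)
`Σ_{t ≥ s h} w' = W'/2`; take `s'` slightly smaller than `s` (no ratio in `[s', s)`), `g := t - s' h`: then
`Σ_{g z > 0} w z = 0` (points with `h z < 0` are counted with opposite sign: `g z > 0 ↔ g z* < 0`, and `Σ w = 0`). -/
def SXR_stmt : Prop := ∀ (A B : Finset Pt) (O : Pt), Disjoint A B → A.card = B.card → A.Nonempty →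
  (∀ p ∈ A ∪ B, ∀ q ∈ A ∪ B, p ≠ q → cr O p q ≠ 0) →
  ∃ g : Fn, ev g O = 0 ∧ (∀ z ∈ A ∪ B, ev g z ≠ 0) ∧
    (A.filter (fun z => 0 < ev g z)).card = (B.filter (fun z => 0 < ev g z)).card

/-- WLM: a point of `T` off the line `e = 0` which sees a collinear set. `g < 0` on `T`.
`m := max_T g < 0`. If some `w ∈ T` with `g w = m` has `e w ≠ 0`: `f := m - g` (`s = 0`). Otherwise the maximum
is attained on `e = 0` only; replace `e` by `-e` if necessary so that some `z ∈ T` has `e z < 0`; MNR-type choice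
`s := min (m - g z) / (-e z)` over `z ∈ T`, `e z < 0` (`s > 0`); `f := m - g + s e ≥ 0` on `T`.
On points with `e = 0`, `g > 0` we get `f = m - g < 0`. -/
def WLM_stmt : Prop := ∀ (T : Finset Pt) (e g : Fn), (∀ z ∈ T, ev g z < 0) → (∃ z ∈ T, ev e z ≠ 0) →
  ∃ (f : Fn) (w : Pt), w ∈ T ∧ ev f w = 0 ∧ ev e w ≠ 0 ∧ (∀ z ∈ T, 0 ≤ ev f z) ∧
    (∀ z : Pt, ev e z = 0 → 0 < ev g z → ev f z < 0)

/-- KFM: `X, Y` (colours `A`, `B`) nonempty on the line `e = 0`, apex `w` off the line. If `w` has colour `A`: the star from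
`w` to `Y` and one edge from `X` to `Y` on the line. All open star segments are off the line, pairwise disjoint
since the points of `Y` are different points of a line not through `w`. -/
def KFM_stmt : Prop := ∀ (X Y : Finset Pt) (e : Fn) (w : Pt), X.Nonempty → Y.Nonempty →
  (∀ z ∈ X ∪ Y, ev e z = 0) → ev e w ≠ 0 →
  (∃ K, Good (insert w X) Y K ∧ K.card = Y.card + 1 ∧ ∀ k ∈ K, k.1 ∈ X ∨ k.1 = w) ∧
  (∃ K, Good X (insert w Y) K ∧ K.card = X.card + 1 ∧ ∀ k ∈ K, k.2 ∈ Y ∨ k.2 = w)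

/-- SCL: clean split, `S1 = {g > 0}` on the line `e = 0`, `S2 = {g < 0}` not on this line. WLM for `T = S2` gives `f, w`;
`K` from KFM (`w ∈ A` or `w ∈ B`), EXT with functional `f` for all edges of `K` (`f w = 0`, `f < 0` on `S1`). -/
def SCL_stmt : Prop := ∀ (A B : Finset Pt) (g e : Fn) (k n : ℕ), Disjoint A B → Nc e →
  (∀ z ∈ A ∪ B, ev g z ≠ 0) →
  (A.filter (fun z => 0 < ev g z)).card = k → (B.filter (fun z => 0 < ev g z)).card = k → 1 ≤ k →
  (∀ z ∈ A ∪ B, 0 < ev g z → ev e z = 0) → (∃ z ∈ A ∪ B, ev g z < 0 ∧ ev e z ≠ 0) →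
  Fge (A.filter (fun z => ev g z < 0)) (B.filter (fun z => ev g z < 0)) n → Fge A B (n + (k + 1))

/-- DTL: inner tangent through `w`. `f w = 0`, `f < 0` on `X` (`X` on the line `e = 0`, at least two points, `e w ≠ 0`),
`p ≠ w`, `f p ≥ 0`. Frame: `t` with `t w = 0`, `det t f ≠ 0`. `d1 := t - ρ1 (-f)`, `ρ1 = min_X t/(-f)` (MNR), and
`d2 := -t - ρ2 (-f)`, `ρ2 = min_X (-t)/(-f)`. Both `≥ 0` on `X`; a zero of `d1` on `X` is unique (two zeros `u, u'` and `w` on the
line `d1 = 0`, but `u, u'` are on `e = 0` and `w` is not). `d1 p + d2 p = (ρ1 + ρ2) f p` with `ρ1 + ρ2 < 0`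
(two points of `X` in different directions from `w`), so if `f p > 0` one of them is `< 0`; if `f p = 0` then
`d1 p = t p = - d2 p ≠ 0`. -/
def DTL_stmt : Prop := ∀ (X : Finset Pt) (e f : Fn) (w p : Pt), Nc e → (∀ z ∈ X, ev e z = 0) → 2 ≤ X.card →
  ev e w ≠ 0 → ev f w = 0 → (∀ z ∈ X, ev f z < 0) → p ≠ w → 0 ≤ ev f p →
  ∃ (d : Fn) (u : Pt), u ∈ X ∧ ev d u = 0 ∧ ev d w = 0 ∧ (∀ z ∈ X, z ≠ u → 0 < ev d z) ∧ ev d p < 0

/-- BCL: clean split with both sides on lines `e1 = 0`, `e2 = 0`, the whole set not on a line; `k1` points of each colour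
in `{g > 0}`, `k2` in `{g < 0}`. Then `k1 + k2 + 1` segments. Proof: `S2` is not on `e1 = 0` (at least two points on each
side). WLM (`T = S2`, `e := e1`): `f, w0`. If `f` is not identically zero on the line `e2 = 0`, `w := w0` is an end of `S2` on its
line (all other points of `S2` are on one ray from `w`); if `f = 0` on the line `e2 = 0`, take `w` = an end of `S2` with `e1 w ≠ 0`
(the lines are different, so one of the two ends will do); `f w = 0`, `f ≥ 0` on `S2`, `f < 0` on `S1` anyway.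
`p` = another point of `S2`. DTL (`X = S1`) gives `d, u`: `d > 0` on `S1 \ {u}`, `d p < 0`, hence `d < 0` on `S2 \ {w}` (same ray from `w`).
Now CUT with `d`: side `d ≥ 0`: `S1 ∪ {w}` has `k1 + 1` (KFM, `e w ≠ 0`), side `d ≤ 0`: `S2 ∪ {u}` has `k2 + 1` (KFM with `e2`,
`e2 u ≠ 0`: otherwise `d`... `u, w, p` on the line `e2 = 0` contradicts `d u = d w = 0`, `d p < 0`); the line part has only `u, w`, so `c = 1`. -/
def BCL_stmt : Prop := ∀ (A B : Finset Pt) (g e1 e2 : Fn) (k1 k2 : ℕ), Disjoint A B → Nc e1 → Nc e2 →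
  (∀ z ∈ A ∪ B, ev g z ≠ 0) →
  (A.filter (fun z => 0 < ev g z)).card = k1 → (B.filter (fun z => 0 < ev g z)).card = k1 → 1 ≤ k1 →
  (A.filter (fun z => ev g z < 0)).card = k2 → (B.filter (fun z => ev g z < 0)).card = k2 → 1 ≤ k2 →
  (∀ z ∈ A ∪ B, 0 < ev g z → ev e1 z = 0) → (∀ z ∈ A ∪ B, ev g z < 0 → ev e2 z = 0) →
  ¬ OnLine (A ∪ B) → Fge A B (k1 + k2 + 1)

/-- N12 (helper53): final induction. -/
def N12_stmt : Prop := ∀ (A B : Finset Pt), Disjoint A B → A.card = B.card → ¬ OnLine (A ∪ B) →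
  Fge A B (A.card + 1) ∧
  ((¬ ∃ e1 e2 : Fn, Nc e1 ∧ Nc e2 ∧ ∀ z ∈ A ∪ B, ev e1 z = 0 ∨ ev e2 z = 0) → Fge A B (A.card + 2))

end VK
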